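import Mathlib

/-! Back and forth for coloured Rado-type graphs. -/

namespace Pool.Agent.Q303.BF

variable {V C : Type*}

/-- finite partial automorphisms -/
def Good (adj : V → V → Prop) (col : V → C) (f : Finset (V × V)) : Prop :=
  (∀ p ∈ f, col p.2 = col p.1) ∧
    ∀ p ∈ f, ∀ q ∈ f, (p.1 = q.1 ↔ p.2 = q.2) ∧ (adj p.1 q.1 ↔ adj p.2 q.2)

/-- the coloured extension property -/
def Ext (adj : V → V → Prop) (col : V → C) : Prop :=
  ∀ (F1 F2 : Finset V) (z : V), Disjoint F1 F2 → ∃ w, w ∉ F1 ∧ w ∉ F2 ∧ col w = col z ∧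
    (∀ p ∈ F1, adj p w) ∧ ∀ p ∈ F2, ¬ adj p w

variable {adj : V → V → Prop} {col : V → C}

theorem ext_left (hext : Ext adj col) (hirr : ∀ a, ¬ adj a a) (hsymm : ∀ a b, adj a b → adj b a)
    {f : Finset (V × V)} (hf : Good adj col f) (a : V) :
    ∃ g, Good adj col g ∧ f ⊆ g ∧ ∃ b, (a, b) ∈ g := by
  classical
  by_cases ha : ∃ b, (a, b) ∈ f
  · exact ⟨f, hf, Finset.Subset.refl _, ha⟩
  · have hdis : Disjoint ((f.filter fun p => adj p.1 a).image Prod.snd)
        ((f.filter fun p => ¬ adj p.1 a).image Prod.snd) := by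
      rw [Finset.disjoint_left]
      intro b hb1 hb2
      simp only [Finset.mem_image, Finset.mem_filter] at hb1 hb2
      obtain ⟨p, ⟨hp, hp1⟩, hp2⟩ := hb1
      obtain ⟨q, ⟨hq, hq1⟩, hq2⟩ := hb2
      have : p.1 = q.1 := (hf.2 p hp q hq).1.2 (hp2.trans hq2.symm)
      rw [this] at hp1
      exact hq1 hp1
    obtain ⟨w, hw1, hw2, hw3, hw4, hw5⟩ := hext _ _ a hdis
    have hnew : ∀ p ∈ f, (p.1 = a ↔ p.2 = w) ∧ (adj p.1 a ↔ adj p.2 w) := by
      intro p hp
      have h1 : p.1 ≠ a := by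
        intro h
        exact ha ⟨p.2, by rw [← h]; exact hp⟩
      by_cases h : adj p.1 a
      · have hm : p.2 ∈ (f.filter fun p => adj p.1 a).image Prod.snd :=
          Finset.mem_image.2 ⟨p, Finset.mem_filter.2 ⟨hp, h⟩, rfl⟩
        have h2 : p.2 ≠ w := fun h => hw1 (h ▸ hm)
        exact ⟨⟨fun h => absurd h h1, fun h => absurd h h2⟩, ⟨fun _ => hw4 _ hm, fun _ => h⟩⟩
      · have hm : p.2 ∈ (f.filter fun p => ¬ adj p.1 a).image Prod.snd :=
          Finset.mem_image.2 ⟨p, Finset.mem_filter.2 ⟨hp, h⟩, rfl⟩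
        have h2 : p.2 ≠ w := fun h => hw2 (h ▸ hm)
        exact ⟨⟨fun h => absurd h h1, fun h => absurd h h2⟩,
          ⟨fun h' => absurd h' h, fun h' => absurd h' (hw5 _ hm)⟩⟩
    refine ⟨insert (a, w) f, ⟨?_, ?_⟩, Finset.subset_insert _ _, w, Finset.mem_insert_self _ _⟩
    · intro p hp
      rcases Finset.mem_insert.1 hp with rfl | hp
      · exact hw3
      · exact hf.1 p hp
    · intro p hp q hq
      rcases Finset.mem_insert.1 hp with rfl | hp <;> rcases Finset.mem_insert.1 hq with rfl | hq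
      · exact ⟨by simp, ⟨fun h => absurd h (hirr _), fun h => absurd h (hirr _)⟩⟩
      · have := hnew q hq
        refine ⟨⟨fun h => (this.1.1 h.symm).symm, fun h => (this.1.2 h.symm).symm⟩,
          ⟨fun h => hsymm _ _ (this.2.1 (hsymm _ _ h)), fun h => hsymm _ _ (this.2.2 (hsymm _ _ h))⟩⟩
      · exact hnew p hp
      · exact hf.2 p hp q hq

theorem good_swap {f : Finset (V × V)} [DecidableEq V] (hf : Good adj col f) :
    Good adj col (f.image Prod.swap) := by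
  constructor
  · intro p hp
    obtain ⟨q, hq, rfl⟩ := Finset.mem_image.1 hp
    exact (hf.1 q hq).symm
  · intro p hp q hq
    obtain ⟨p', hp', rfl⟩ := Finset.mem_image.1 hp
    obtain ⟨q', hq', rfl⟩ := Finset.mem_image.1 hq
    exact ⟨(hf.2 p' hp' q' hq').1.symm, (hf.2 p' hp' q' hq').2.symm⟩

theorem ext_right (hext : Ext adj col) (hirr : ∀ a, ¬ adj a a) (hsymm : ∀ a b, adj a b → adj b a)
    {f : Finset (V × V)} (hf : Good adj col f) (b : V) :
    ∃ g, Good adj col g ∧ f ⊆ g ∧ ∃ a, (a, b) ∈ g := by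
  classical
  obtain ⟨g, hg, hfg, a, ha⟩ := ext_left hext hirr hsymm (good_swap hf) b
  refine ⟨g.image Prod.swap, good_swap hg, ?_, a, Finset.mem_image.2 ⟨(b, a), ha, rfl⟩⟩
  intro p hp
  exact Finset.mem_image.2 ⟨p.swap, hfg (Finset.mem_image.2 ⟨p, hp, rfl⟩), by simp⟩

theorem back_forth [Countable V] (hext : Ext adj col) (hirr : ∀ a, ¬ adj a a)
    (hsymm : ∀ a b, adj a b → adj b a) {a b : V} (hab : col b = col a) :
    ∃ π : Equiv.Perm V, π a = b ∧ (∀ v, col (π v) = col v) ∧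
      ∀ u v, adj u v ↔ adj (π u) (π v) := by
  classical
  have : Nonempty V := ⟨a⟩
  obtain ⟨e, he⟩ := exists_surjective_nat V
  have hstep : ∀ (n : ℕ) (f : {f : Finset (V × V) // Good adj col f}),
      ∃ g : {f : Finset (V × V) // Good adj col f}, f.1 ⊆ g.1 ∧ (∃ b, (e n, b) ∈ g.1) ∧
        ∃ a, (a, e n) ∈ g.1 := by
    intro n f
    obtain ⟨g, hg, hfg, b, hb⟩ := ext_left hext hirr hsymm f.2 (e n)
    obtain ⟨g', hg', hgg', a, ha⟩ := ext_right hext hirr hsymm hg (e n)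
    exact ⟨⟨g', hg'⟩, hfg.trans hgg', ⟨b, hgg' hb⟩, a, ha⟩
  choose step hs1 hs2 hs3 using hstep
  let f0 : {f : Finset (V × V) // Good adj col f} := ⟨{(a, b)}, by
    constructor
    · intro p hp
      rw [Finset.mem_singleton] at hp
      subst hp
      exact hab
    · intro p hp q hq
      rw [Finset.mem_singleton] at hp hq
      subst hp
      subst hq
      exact ⟨by simp, ⟨fun h => absurd h (hirr _), fun h => absurd h (hirr _)⟩⟩⟩
  let F : ℕ → {f : Finset (V × V) // Good adj col f} := fun n => Nat.rec f0 (fun n f => step n f) n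
  have hF : ∀ n, F (n + 1) = step n (F n) := fun n => rfl
  have hmono : ∀ m n, m ≤ n → (F m).1 ⊆ (F n).1 := by
    intro m n hmn
    induction n, hmn using Nat.le_induction with
    | base => exact Finset.Subset.refl _
    | succ n _ ih =>
      rw [hF]
      exact ih.trans (hs1 n (F n))
  have hcompat : ∀ p q m n, p ∈ (F m).1 → q ∈ (F n).1 →
      (p.1 = q.1 ↔ p.2 = q.2) ∧ (adj p.1 q.1 ↔ adj p.2 q.2) := by
    intro p q m n hp hq
    exact (F (max m n)).2.2 p (hmono _ _ (le_max_left _ _) hp) q (hmono _ _ (le_max_right _ _) hq)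
  have hL : ∀ u, ∃ v n, (u, v) ∈ (F n).1 := by
    intro u
    obtain ⟨n, rfl⟩ := he u
    obtain ⟨v, hv⟩ := hs2 n (F n)
    exact ⟨v, n + 1, hv⟩
  have hR : ∀ v, ∃ u n, (u, v) ∈ (F n).1 := by
    intro v
    obtain ⟨n, rfl⟩ := he v
    obtain ⟨u, hu⟩ := hs3 n (F n)
    exact ⟨u, n + 1, hu⟩
  choose φ nφ hφ using hL
  choose ψ nψ hψ using hR
  refine ⟨⟨φ, ψ, ?_, ?_⟩, ?_, ?_, ?_⟩
  · intro u
    exact ((hcompat _ _ _ _ (hφ u) (hψ (φ u))).1.2 rfl).symm
  · intro v
    exact ((hcompat _ _ _ _ (hψ v) (hφ (ψ v))).1.1 rfl).symm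
  · have h1 : ((a, b) : V × V) ∈ (F 0).1 := by simp [F, f0]
    exact ((hcompat (a, b) (a, φ a) 0 (nφ a) h1 (hφ a)).1.1 rfl).symm
  · intro v
    exact (F (nφ v)).2.1 _ (hφ v)
  · intro u v
    exact (hcompat _ _ _ _ (hφ u) (hφ v)).2

end Pool.Agent.Q303.BF
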