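import Pool.Agent.Q303.KU

/-! The category argument for iterated group jumps of equality. -/

open Set Topology Filter MeasureTheory

namespace Pool.Agent.Q303.Jump

open Pool.Agent.Q303.KU

/-- the `G`-jump `E^{[G]}` of a relation `E` on `X`: the relation on `X^G` with
`α E^{[G]} β` iff for some `g` in `G`, `α(g⁻¹ h) E β(h)` for all `h` in `G` -/
def jump (G : Type*) [Group G] {X : Type*} (E : X → X → Prop) (α β : G → X) : Prop :=
  ∃ g : G, ∀ h : G, E (α (g⁻¹ * h)) (β h)

/-- Borel reducibility of relations on topological spaces -/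
def BorelRed {X Y : Type*} [TopologicalSpace X] [TopologicalSpace Y] (E : X → X → Prop)
    (F : Y → Y → Prop) : Prop :=
  ∃ f : X → Y, @Measurable X Y (borel X) (borel Y) f ∧ ∀ x x', E x x' ↔ F (f x) (f x')

section core

variable {G H : Type*} [Group G] [Group H]

/-- the coordinatewise shift -/
def act (g : H → G) (x : H → G → Bool) : H → G → Bool := fun m j => x m ((g m)⁻¹ * j)

/-- the shift on one row -/
def sh (γ : G) (a : G → Bool) : G → Bool := fun j => a (γ⁻¹ * j)

theorem act_cont [TopologicalSpace G] [DiscreteTopology G] :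
    Continuous (fun p : (H → G) × (H → G → Bool) => act p.1 p.2) := by
  apply continuous_pi
  intro m
  apply continuous_pi
  intro j
  have h1 : Continuous (fun q : G × (G → Bool) => q.2 (q.1⁻¹ * j)) := by
    rw [continuous_prod_of_discrete_left]
    intro a
    show Continuous (fun x : G → Bool => x (a⁻¹ * j))
    exact continuous_apply (a⁻¹ * j)
  have h2 : Continuous (fun p : (H → G) × (H → G → Bool) => (p.1 m, p.2 m)) :=
    ((continuous_apply m).comp continuous_fst).prodMk
      ((continuous_apply m).comp continuous_snd)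
  exact h1.comp h2

theorem jump_act (g : H → G) (x : H → G → Bool) :
    jump H (jump G (fun a b : Bool => a = b)) x (act g x) := by
  refine ⟨1, fun m => ⟨g m, fun j => ?_⟩⟩
  simp [act]

/-- the shift of a row as a homeomorphism -/
def shHomeo (γ : G) : (G → Bool) ≃ₜ (G → Bool) where
  toFun := sh γ
  invFun := sh γ⁻¹
  left_inv a := by funext j; simp [sh]
  right_inv a := by funext j; simp [sh]
  continuous_toFun := continuous_pi fun j => continuous_apply _
  continuous_invFun := continuous_pi fun j => continuous_apply _

/-- right translation as a homeomorphism -/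
def rightHomeo [TopologicalSpace G] [DiscreteTopology G] (δ : H → G) : (H → G) ≃ₜ (H → G) where
  toFun g := fun m => g m * δ m
  invFun g := fun m => g m * (δ m)⁻¹
  left_inv g := by funext m; simp
  right_inv g := by funext m; simp
  continuous_toFun := continuous_pi fun m =>
    (continuous_of_discreteTopology (f := fun a : G => a * δ m)).comp (continuous_apply m)
  continuous_invFun := continuous_pi fun m =>
    (continuous_of_discreteTopology (f := fun a : G => a * (δ m)⁻¹)).comp (continuous_apply m)

/-- generic ergodicity of the shift -/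
theorem gen_erg [Countable G] [Infinite G] {Y : Type*} [TopologicalSpace Y]
    [SecondCountableTopology Y] [T0Space Y] {c : (G → Bool) → Y}
    (hc : ∀ U : Set Y, IsOpen U → BaireMeasurableSet (c ⁻¹' U))
    (hinv : ∀ γ : G, ∀ᶠ a in residual (G → Bool), c (sh γ a) = c a) :
    ∃ N : Set (Set Y), ∀ᶠ a in residual (G → Bool),
      ∀ D ∈ TopologicalSpace.countableBasis Y, (c a ∈ D ↔ D ∈ N) := by
  classical
  have key : ∀ D ∈ TopologicalSpace.countableBasis Y,
      (∀ᶠ a in residual (G → Bool), c a ∈ D) ∨ (∀ᶠ a in residual (G → Bool), c a ∉ D) := by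
    intro D hD
    have hDo := TopologicalSpace.isOpen_of_mem_countableBasis hD
    rcases borel_dich (hc D hDo) with ⟨U, hU, hUne, hUr⟩ | h
    · rcases borel_dich (hc D hDo).compl with ⟨V, hV, hVne, hVr⟩ | h
      · exfalso
        -- find a shift moving `U` onto `V`
        obtain ⟨u, hu⟩ := hUne
        obtain ⟨v, hv⟩ := hVne
        obtain ⟨I, s, hs1, hs2⟩ := isOpen_pi_iff.1 hU u hu
        obtain ⟨J, t, ht1, ht2⟩ := isOpen_pi_iff.1 hV v hv
        -- choose γ with γ I disjoint from J
        obtain ⟨γ, hγ⟩ : ∃ γ : G, γ ∉ (J ×ˢ I).image (fun p => p.1 * p.2⁻¹) :=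
          Infinite.exists_notMem_finset _
        have hdis : ∀ j ∈ J, γ⁻¹ * j ∉ I := by
          intro j hj hI
          apply hγ
          rw [Finset.mem_image]
          refine ⟨(j, γ⁻¹ * j), Finset.mem_product.2 ⟨hj, hI⟩, ?_⟩
          simp
        -- the open set of `a` in `U` with `sh γ a` in `V`
        have hO : IsOpen (U ∩ (sh γ) ⁻¹' V) :=
          hU.inter (hV.preimage (shHomeo γ).continuous)
        have hOne : (U ∩ (sh γ) ⁻¹' V).Nonempty := by
          refine ⟨fun i => if i ∈ I then u i else v (γ * i), hs2 ?_, ht2 ?_⟩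
          · intro i hi
            have hi' : i ∈ I := hi
            simp only [hi', if_true]
            exact (hs1 i hi').2
          · intro j hj
            have hj' : j ∈ J := hj
            simp only [sh, hdis j hj', if_false, mul_inv_cancel_left]
            exact (ht1 j hj').2
        have hVr' : ∀ᶠ a in residual (G → Bool), sh γ a ∈ V → sh γ a ∈ (c ⁻¹' D)ᶜ :=
          res_pre (shHomeo γ).continuous (shHomeo γ).isOpenMap hVr
        obtain ⟨a, ha1, ha2, ha3, ha4⟩ := exists_of_res (hUr.and (hVr'.and (hinv γ))) hO hOne
        have h5 : c (sh γ a) ∉ D := ha3 ha1.2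
        rw [ha4] at h5
        exact h5 (ha2 ha1.1)
      · left
        filter_upwards [h] with a ha
        by_contra h3
        exact ha h3
    · right
      exact h
  refine ⟨{D | ∀ᶠ a in residual (G → Bool), c a ∈ D}, ?_⟩
  have hcount : Countable (TopologicalSpace.countableBasis Y) :=
    (TopologicalSpace.countable_countableBasis Y).to_subtype
  have h2 : ∀ᶠ a in residual (G → Bool), ∀ D : TopologicalSpace.countableBasis Y,
      (c a ∈ D.1 ↔ D.1 ∈ {D | ∀ᶠ a in residual (G → Bool), c a ∈ D}) := by
    rw [eventually_countable_forall]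
    rintro ⟨D, hD⟩
    rcases key D hD with h | h
    · filter_upwards [h] with a ha
      exact ⟨fun _ => h, fun _ => ha⟩
    · filter_upwards [h] with a ha
      refine ⟨fun h3 => absurd h3 ha, fun h3 => ?_⟩
      exfalso
      obtain ⟨b, _, hb1, hb2⟩ := exists_of_res (h.and h3) isOpen_univ univ_nonempty
      exact hb1 hb2
  filter_upwards [h2] with a ha D hD
  exact ha ⟨D, hD⟩

/-- the core argument -/
theorem core [Countable G] [Infinite G] [Countable H] [Infinite H] {Y κ : Type*}
    [TopologicalSpace Y] [SecondCountableTopology Y] [T2Space Y] [Countable κ]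
    (s : κ → Y → Y) (hs : ∀ k, Continuous (s k)) (f : (H → G → Bool) → Y)
    (hf : @Measurable _ _ (borel _) (borel _) f)
    (h1 : ∀ g x, ∃ k, s k (f x) = f (act g x))
    (h2 : ∀ x x', f x = f x' → jump H (jump G (fun a b : Bool => a = b)) x x') : False := by
  classical
  let tG : TopologicalSpace G := ⊥
  have dG : DiscreteTopology G := ⟨rfl⟩
  -- covering
  let A : κ → Set ((H → G) × (H → G → Bool)) := fun k => {p | s k (f p.2) = f (act p.1 p.2)}
  have hA : ∀ k, BaireMeasurableSet (A k) := by
    intro k
    letI m1 : MeasurableSpace (H → G → Bool) := borel _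
    haveI b1 : BorelSpace (H → G → Bool) := ⟨rfl⟩
    letI m2 : MeasurableSpace ((H → G) × (H → G → Bool)) := borel _
    haveI b2 : BorelSpace ((H → G) × (H → G → Bool)) := ⟨rfl⟩
    letI m3 : MeasurableSpace Y := borel Y
    haveI b3 : BorelSpace Y := ⟨rfl⟩
    have hm1 : Measurable (fun p : (H → G) × (H → G → Bool) => s k (f p.2)) :=
      (hs k).measurable.comp (hf.comp continuous_snd.measurable)
    have hm2 : Measurable (fun p : (H → G) × (H → G → Bool) => f (act p.1 p.2)) :=
      hf.comp act_cont.measurable
    exact (measurableSet_eq_fun hm1 hm2).baireMeasurableSet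
  obtain ⟨k, O, hO, ⟨⟨v, w⟩, hvw⟩, hres⟩ := borel_cover hA (fun p => h1 p.1 p.2)
  -- basic rectangle
  obtain ⟨V', W, hV', hW, hvV, hwW, hVW⟩ := isOpen_prod_iff.1 hO v w hvw
  obtain ⟨I, t, ht1, ht2⟩ := isOpen_pi_iff.1 hV' v hvV
  obtain ⟨J, r, hr1, hr2⟩ := isOpen_pi_iff.1 hW w hwW
  obtain ⟨m0, hm0⟩ : ∃ m0 : H, m0 ∉ I ∪ J := Infinite.exists_notMem_finset _
  rw [Finset.mem_union, not_or] at hm0
  let V : Set (H → G) := (I : Set H).pi t
  let W0 : Set (H → G → Bool) := (J : Set H).pi r
  have hVopen : IsOpen V := isOpen_set_pi I.finite_toSet fun i hi => (ht1 i hi).1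
  have hW0open : IsOpen W0 := isOpen_set_pi J.finite_toSet fun i hi => (hr1 i hi).1
  have hVne : V.Nonempty := ⟨v, fun i hi => (ht1 i hi).2⟩
  have hW0ne : W0.Nonempty := ⟨w, fun i hi => (hr1 i hi).2⟩
  let c : (H → G → Bool) → Y := fun x => s k (f x)
  let P : (H → G → Bool) → Prop := fun x =>
    ∀ᶠ g in residual (H → G), g ∈ V → x ∈ W0 → f (act g x) = c x
  have hP : ∀ᶠ x in residual (H → G → Bool), P x := by
    have h3 : ∀ᶠ p in residual ((H → G → Bool) × (H → G)), (p.2, p.1) ∈ O → (p.2, p.1) ∈ A k :=
      res_pre (Homeomorph.prodComm _ _).continuous (Homeomorph.prodComm _ _).isOpenMap hres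
    have h4 := ku_res h3
    filter_upwards [h4] with x hx
    filter_upwards [hx] with g hg hgV hxW
    exact (hg (hVW ⟨ht2 hgV, hr2 hxW⟩)).symm
  -- rows are pairwise inequivalent
  have hrow : ∀ᶠ x in residual (H → G → Bool), ∀ m m' : H, m ≠ m' → ∀ γ : G,
      sh γ (x m) ≠ x m' := by
    rw [eventually_countable_forall]
    intro m
    rw [eventually_countable_forall]
    intro m'
    by_cases hmm : m = m'
    · exact Eventually.of_forall fun x h => absurd hmm h
    · have : ∀ᶠ x in residual (H → G → Bool), ∀ γ : G, sh γ (x m) ≠ x m' := by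
        rw [eventually_countable_forall]
        intro γ
        have hcl : IsClosed {x : H → G → Bool | sh γ (x m) = x m'} :=
          isClosed_eq ((shHomeo γ).continuous.comp (continuous_apply m)) (continuous_apply m')
        apply residual_of_dense_open hcl.isOpen_compl
        rw [dense_iff_inter_open]
        rintro U hU ⟨x, hx⟩
        obtain ⟨I', t', ht', hI'⟩ := isOpen_pi_iff.1 hU x hx
        by_cases hxx : sh γ (x m) = x m'
        · -- change row m' at a coordinate outside the finite condition
          by_cases hm' : m' ∈ I'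
          · obtain ⟨hto, htx⟩ := ht' m' hm'
            obtain ⟨J', u', hu', hJ'⟩ := isOpen_pi_iff.1 hto (x m') htx
            obtain ⟨j, hj⟩ : ∃ j : G, j ∉ J' := Infinite.exists_notMem_finset _
            refine ⟨Function.update x m' (Function.update (x m') j (!(x m' j))), hI' ?_, ?_⟩
            · intro i hi
              by_cases him : i = m'
              · subst him
                rw [Function.update_self]
                apply hJ'
                intro l hl
                have hlj : l ≠ j := fun h => hj (h ▸ hl)
                rw [Function.update_of_ne hlj]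
                exact (hu' l hl).2
              · rw [Function.update_of_ne him]
                exact (ht' i hi).2
            · intro h
              rw [Set.mem_ofPred_eq, Function.update_self, Function.update_of_ne hmm, hxx] at h
              have := congrFun h j
              rw [Function.update_self] at this
              cases hb : x m' j <;> simp [hb] at this
          · refine ⟨Function.update x m' (Function.update (x m') 1 (!(x m' 1))), hI' ?_, ?_⟩
            · intro i hi
              have him : i ≠ m' := fun h => hm' (h ▸ hi)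
              rw [Function.update_of_ne him]
              exact (ht' i hi).2
            · intro h
              rw [Set.mem_ofPred_eq, Function.update_self, Function.update_of_ne hmm, hxx] at h
              have := congrFun h 1
              rw [Function.update_self] at this
              cases hb : x m' 1 <;> simp [hb] at this
        · exact ⟨x, hx, hxx⟩
      filter_upwards [this] with x hx _
      exact hx
  -- the update map
  have hupd_cont : Continuous (fun p : (H → G → Bool) × (G → Bool) =>
      Function.update p.1 m0 p.2) := continuous_fst.update m0 continuous_snd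
  have hupd_open : IsOpenMap (fun p : (H → G → Bool) × (G → Bool) =>
      Function.update p.1 m0 p.2) := by
    intro U hU
    rw [isOpen_iff_mem_nhds]
    rintro _ ⟨⟨x, a⟩, hxa, rfl⟩
    have hcont : Continuous (fun y : H → G → Bool => (Function.update y m0 (x m0), y m0)) :=
      (continuous_id.update m0 continuous_const).prodMk (continuous_apply m0)
    have hmem : (fun y : H → G → Bool => (Function.update y m0 (x m0), y m0)) ⁻¹' U ∈
        𝓝 (Function.update x m0 a) := by
      apply hcont.continuousAt.preimage_mem_nhds
      apply hU.mem_nhds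
      simpa using hxa
    filter_upwards [hmem] with y hy
    refine ⟨_, hy, ?_⟩
    simp
  have hQ : ∀ᶠ x in residual (H → G → Bool), ∀ᶠ a in residual (G → Bool),
      P (Function.update x m0 a) := ku_res (res_pre hupd_cont hupd_open hP)
  obtain ⟨x, hxW, hx1, hx2⟩ := exists_of_res (hQ.and hrow) hW0open hW0ne
  let xa : (G → Bool) → H → G → Bool := fun a => Function.update x m0 a
  have hxaW : ∀ a, xa a ∈ W0 := by
    intro a i hi
    have him : i ≠ m0 := fun h => hm0.2 (h ▸ hi)
    show Function.update x m0 a i ∈ r i
    rw [Function.update_of_ne him]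
    exact hxW i hi
  have hxac : Continuous xa := continuous_const.update m0 continuous_id
  -- invariance
  have hinv : ∀ γ : G, ∀ᶠ a in residual (G → Bool), c (xa (sh γ a)) = c (xa a) := by
    intro γ
    have h3 : ∀ᶠ a in residual (G → Bool), P (xa (sh γ a)) :=
      res_pre (shHomeo γ).continuous (shHomeo γ).isOpenMap hx1
    filter_upwards [hx1, h3] with a ha1 ha2
    let δ : H → G := Function.update (fun _ => 1) m0 γ
    have h4 : ∀ᶠ g in residual (H → G), (rightHomeo δ g) ∈ V → xa a ∈ W0 →
        f (act (rightHomeo δ g) (xa a)) = c (xa a) :=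
      res_pre (rightHomeo δ).continuous (rightHomeo δ).isOpenMap ha1
    obtain ⟨g, hgV, hg1, hg2⟩ := exists_of_res (h4.and ha2) hVopen hVne
    have h5 : rightHomeo δ g ∈ V := by
      intro i hi
      have him : i ≠ m0 := fun h => hm0.1 (h ▸ hi)
      show g i * δ i ∈ t i
      have : δ i = 1 := by simp [δ, Function.update_of_ne him]
      rw [this, mul_one]
      exact hgV i hi
    have h6 : act (rightHomeo δ g) (xa a) = act g (xa (sh γ a)) := by
      funext m j
      show xa a m ((g m * δ m)⁻¹ * j) = xa (sh γ a) m ((g m)⁻¹ * j)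
      by_cases hm : m = m0
      · subst hm
        simp [xa, δ, sh, mul_assoc]
      · simp [xa, δ, Function.update_of_ne hm]
    rw [← hg2 hgV (hxaW _), ← hg1 h5 (hxaW _), h6]
  have hcB : ∀ U : Set Y, IsOpen U → BaireMeasurableSet ((fun a => c (xa a)) ⁻¹' U) := by
    intro U hU
    letI m1 : MeasurableSpace (H → G → Bool) := borel _
    haveI b1 : BorelSpace (H → G → Bool) := ⟨rfl⟩
    letI m2 : MeasurableSpace (G → Bool) := borel _
    haveI b2 : BorelSpace (G → Bool) := ⟨rfl⟩
    letI m3 : MeasurableSpace Y := borel Y
    haveI b3 : BorelSpace Y := ⟨rfl⟩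
    have hm : Measurable (fun a => c (xa a)) :=
      (hs k).measurable.comp (hf.comp hxac.measurable)
    exact (hm hU.measurableSet).baireMeasurableSet
  obtain ⟨N, hN⟩ := gen_erg hcB hinv
  -- pick two generic rows in different orbits
  obtain ⟨a, _, ha1, ha2⟩ := exists_of_res (hx1.and hN) isOpen_univ univ_nonempty
  have horb : ∀ᶠ a' in residual (G → Bool), ∀ γ : G, a' ≠ sh γ a := by
    rw [eventually_countable_forall]
    intro γ
    apply residual_of_dense_open isClosed_singleton.isOpen_compl
    rw [dense_iff_inter_open]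
    rintro U hU ⟨b, hb⟩
    by_cases hbb : b = sh γ a
    · obtain ⟨I', t', ht', hI'⟩ := isOpen_pi_iff.1 hU b hb
      obtain ⟨j, hj⟩ : ∃ j : G, j ∉ I' := Infinite.exists_notMem_finset _
      refine ⟨Function.update b j (!(b j)), hI' ?_, ?_⟩
      · intro l hl
        have hlj : l ≠ j := fun h => hj (h ▸ hl)
        rw [Function.update_of_ne hlj]
        exact (ht' l hl).2
      · intro h
        have h7 : Function.update b j (!(b j)) = b := by
          rw [hbb] at h ⊢
          exact h
        have := congrFun h7 j
        rw [Function.update_self] at this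
        cases hb : b j <;> simp [hb] at this
    · exact ⟨b, hb, hbb⟩
  obtain ⟨a', _, ⟨ha1', ha2'⟩, ha3'⟩ :=
    exists_of_res ((hx1.and hN).and horb) isOpen_univ univ_nonempty
  have hcc : c (xa a) = c (xa a') := by
    by_contra hne
    have hB := TopologicalSpace.isBasis_countableBasis Y
    obtain ⟨U, U', hUo, hUo', hU1, hU2, hUd⟩ := t2_separation hne
    obtain ⟨D, hD1, hD2, hD3⟩ := hB.exists_subset_of_mem_open hU1 hUo
    have h8 : c (xa a') ∈ D := (ha2' D hD1).2 ((ha2 D hD1).1 hD2)
    exact Set.disjoint_left.1 hUd (hD3 h8) hU2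
  obtain ⟨g, hgV, hg1, hg2⟩ := exists_of_res (ha1.and ha1') hVopen hVne
  have hfe : f (act g (xa a)) = f (act g (xa a')) := by
    rw [hg1 hgV (hxaW _), hg2 hgV (hxaW _), hcc]
  obtain ⟨n, hn⟩ := h2 _ _ hfe
  by_cases hn1 : n = 1
  · obtain ⟨γ, hγ⟩ := hn m0
    apply ha3' ((g m0)⁻¹ * γ * g m0)
    funext j
    have h9 := hγ (g m0 * j)
    simp only [hn1, inv_one, one_mul, act, xa, Function.update_self] at h9
    rw [inv_mul_cancel_left] at h9
    rw [← h9]
    simp [sh, mul_assoc]
  · obtain ⟨m, hm⟩ : ∃ m : H, m ∉ ({m0, n * m0} : Finset H) := Infinite.exists_notMem_finset _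
    simp only [Finset.mem_insert, Finset.mem_singleton, not_or] at hm
    have hnm : n⁻¹ * m ≠ m0 := by
      intro h
      apply hm.2
      rw [← h, mul_inv_cancel_left]
    have hnm' : n⁻¹ * m ≠ m := by
      intro h
      apply hn1
      have h10 : n⁻¹ = 1 := by
        have := mul_right_cancel (h.trans (one_mul m).symm)
        exact this
      exact inv_eq_one.1 h10
    obtain ⟨γ, hγ⟩ := hn m
    apply hx2 (n⁻¹ * m) m hnm' ((g m)⁻¹ * γ * g (n⁻¹ * m))
    funext j
    have h9 := hγ (g m * j)
    simp only [act, xa, Function.update_of_ne hnm, Function.update_of_ne hm.1] at h9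
    rw [inv_mul_cancel_left] at h9
    rw [← h9]
    simp [sh, mul_assoc]

end core

end Pool.Agent.Q303.Jump
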