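import Mathlib.Topology.Baire.BaireMeasurable
import Mathlib.Topology.Baire.CompleteMetrizable
import Mathlib.Topology.Bases
import Mathlib.Topology.MetricSpace.Polish
import Mathlib.MeasureTheory.Constructions.BorelSpace.Metrizable
import Mathlib.MeasureTheory.Constructions.Polish.Basic

/-! Kuratowski-Ulam (after the starting file `Helper59.AC1`) and small Baire category lemmas. -/

open Set Topology Filter MeasureTheory

namespace Pool.Agent.Q303.KU

/-- Kuratowski-Ulam for closed nowhere dense sets -/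
lemma ku_closed {X Y : Type*} [TopologicalSpace X] [TopologicalSpace Y]
    [SecondCountableTopology Y] (C : Set (X × Y)) (hC : IsClosed C) (hnd : IsNowhereDense C) :
    IsMeagre {x | ¬ IsMeagre {y | (x, y) ∈ C}} := by
  have hB := TopologicalSpace.isBasis_countableBasis Y
  have h1 : IsMeagre (⋃ b ∈ {b ∈ TopologicalSpace.countableBasis Y | b.Nonempty},
      {x : X | ∀ y ∈ b, (x, y) ∈ C}) := by
    refine isMeagre_biUnion ((TopologicalSpace.countable_countableBasis Y).mono
      fun b hb => hb.1) ?_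
    rintro b ⟨hb, hbn⟩
    apply IsNowhereDense.isMeagre
    have hcl : IsClosed {x : X | ∀ y ∈ b, (x, y) ∈ C} := by
      have : {x : X | ∀ y ∈ b, (x, y) ∈ C} = ⋂ y ∈ b, (fun x : X => (x, y)) ⁻¹' C := by
        ext x
        simp
      rw [this]
      exact isClosed_biInter fun y _ => hC.preimage (by fun_prop)
    rw [IsNowhereDense, hcl.closure_eq, ← not_nonempty_iff_eq_empty]
    rintro ⟨x, hx⟩
    obtain ⟨y, hy⟩ := hbn
    have h2 : interior {x : X | ∀ y ∈ b, (x, y) ∈ C} ×ˢ b ⊆ C := by
      rintro ⟨x', y'⟩ ⟨hx', hy'⟩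
      exact interior_subset hx' y' hy'
    have h3 : (x, y) ∈ interior C :=
      interior_maximal h2 (isOpen_interior.prod (hB.isOpen hb)) ⟨hx, hy⟩
    have h4 : (x, y) ∈ interior (closure C) := interior_mono subset_closure h3
    rw [hnd] at h4
    exact h4
  refine h1.mono ?_
  intro x hx
  by_contra hcon
  apply hx
  apply IsNowhereDense.isMeagre
  have hcl : IsClosed {y | (x, y) ∈ C} := hC.preimage (by fun_prop)
  rw [IsNowhereDense, hcl.closure_eq, ← not_nonempty_iff_eq_empty]
  rintro ⟨y, hy⟩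
  obtain ⟨b, hb1, hb2, hb3⟩ := hB.exists_subset_of_mem_open hy isOpen_interior
  apply hcon
  refine mem_iUnion₂.2 ⟨b, ⟨hb1, ⟨y, hb2⟩⟩, ?_⟩
  intro y' hy'
  have h5 : y' ∈ {y | (x, y) ∈ C} := interior_subset (hb3 hy')
  exact h5

/-- Kuratowski-Ulam for meagre sets -/
theorem ku {X Y : Type*} [TopologicalSpace X] [TopologicalSpace Y]
    [SecondCountableTopology Y] (C : Set (X × Y)) (hC : IsMeagre C) :
    IsMeagre {x | ¬ IsMeagre {y | (x, y) ∈ C}} := by
  obtain ⟨S, hS1, hS2, hS3⟩ := isMeagre_iff_countable_union_isNowhereDense.1 hC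
  have h1 : IsMeagre (⋃ t ∈ S, {x : X | ¬ IsMeagre {y | (x, y) ∈ closure t}}) := by
    refine isMeagre_biUnion hS2 ?_
    intro t ht
    apply ku_closed _ isClosed_closure
    rw [IsNowhereDense, closure_closure]
    exact hS1 t ht
  refine h1.mono ?_
  intro x hx
  by_contra hcon
  apply hx
  have h2 : IsMeagre (⋃ t ∈ S, {y | (x, y) ∈ closure t}) := by
    refine isMeagre_biUnion hS2 ?_
    intro t ht
    by_contra h
    exact hcon (mem_iUnion₂.2 ⟨t, ht, h⟩)
  refine h2.mono ?_
  intro y hy
  obtain ⟨t, ht, hyt⟩ := hS3 hy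
  exact mem_iUnion₂.2 ⟨t, ht, subset_closure hyt⟩

/-- Kuratowski-Ulam, residual form -/
theorem ku_res {X Y : Type*} [TopologicalSpace X] [TopologicalSpace Y]
    [SecondCountableTopology Y] {P : X × Y → Prop} (h : ∀ᶠ p in residual (X × Y), P p) :
    ∀ᶠ x in residual X, ∀ᶠ y in residual Y, P (x, y) := by
  have h1 : IsMeagre {p : X × Y | ¬ P p} := by
    rw [IsMeagre]
    refine Filter.mem_of_superset h ?_
    intro p hp hp'
    exact hp' hp
  have h2 := ku _ h1
  rw [IsMeagre] at h2
  refine Filter.mem_of_superset h2 ?_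
  intro x hx
  rw [Set.mem_compl_iff, Set.mem_ofPred_eq, not_not] at hx
  rw [Set.mem_ofPred_eq]
  rw [IsMeagre] at hx
  refine Filter.mem_of_superset hx ?_
  intro y hy
  by_contra h3
  exact hy h3

/-- preimages of residual sets under open continuous maps -/
theorem res_pre {X Y : Type*} [TopologicalSpace X] [TopologicalSpace Y] {φ : X → Y}
    (hc : Continuous φ) (ho : IsOpenMap φ) {P : Y → Prop} (hS : ∀ᶠ y in residual Y, P y) :
    ∀ᶠ x in residual X, P (φ x) := by
  have h1 : IsMeagre {y | P y}ᶜ := by rw [IsMeagre, compl_compl]; exact hS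
  have h2 := h1.preimage_of_isOpenMap hc ho
  rw [IsMeagre, Set.preimage_compl, compl_compl] at h2
  exact h2

/-- in a Baire space, a residual property holds somewhere in every nonempty open set -/
theorem exists_of_res {X : Type*} [TopologicalSpace X] [BaireSpace X] {P : X → Prop}
    (hP : ∀ᶠ x in residual X, P x) {U : Set X} (hU : IsOpen U) (hne : U.Nonempty) :
    ∃ x ∈ U, P x := by
  have hd : Dense {x | P x} := dense_of_mem_residual hP
  obtain ⟨x, hx, hx2⟩ := hd.inter_open_nonempty U hU hne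
  exact ⟨x, hx, hx2⟩

/-- a Borel set is residual in some nonempty open set, or its complement is residual -/
theorem borel_dich {X : Type*} [TopologicalSpace X] {S : Set X} (hS : BaireMeasurableSet S) :
    (∃ U : Set X, IsOpen U ∧ U.Nonempty ∧ ∀ᶠ x in residual X, x ∈ U → x ∈ S) ∨
      ∀ᶠ x in residual X, x ∉ S := by
  obtain ⟨U, hU, hSU⟩ := hS.residualEq_isOpen
  have h2 : ∀ᶠ x in residual X, (x ∈ S) = (x ∈ U) := hSU
  rcases U.eq_empty_or_nonempty with h | h
  · right
    filter_upwards [h2] with x hx hxS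
    rw [hx, h] at hxS
    exact hxS
  · left
    refine ⟨U, hU, h, ?_⟩
    filter_upwards [h2] with x hx hxU
    rw [hx]
    exact hxU

/-- if countably many Borel sets cover a Baire space, one of them is residual in some nonempty
open set -/
theorem borel_cover {X ι : Type*} [TopologicalSpace X] [BaireSpace X] [Nonempty X] [Countable ι]
    {S : ι → Set X} (hS : ∀ i, BaireMeasurableSet (S i)) (hc : ∀ x, ∃ i, x ∈ S i) :
    ∃ i, ∃ U : Set X, IsOpen U ∧ U.Nonempty ∧ ∀ᶠ x in residual X, x ∈ U → x ∈ S i := by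
  by_contra hcon
  push Not at hcon
  have h1 : ∀ i, ∀ᶠ x in residual X, x ∉ S i := by
    intro i
    rcases borel_dich (hS i) with ⟨U, h1, h2, h3⟩ | h
    · refine absurd ?_ (hcon i U h1 h2)
      filter_upwards [h3] with x hx
      rintro ⟨hx1, hx2⟩
      exact hx2 (hx hx1)
    · exact h
  have h2 : ∀ᶠ x in residual X, ∀ i, x ∉ S i := eventually_countable_forall.2 h1
  obtain ⟨x, _, hx⟩ := exists_of_res h2 isOpen_univ univ_nonempty
  obtain ⟨i, hi⟩ := hc x
  exact hx i hi

end Pool.Agent.Q303.KU
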