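import Pool.Agent.Q303.Split

/-! Borel dependence on parameters. -/

open Set Topology Filter MeasureTheory

namespace Pool.Agent.Q303.Split

section meas

variable {Z : Type*} [MeasurableSpace Z] {P : Z → Set (ℕ → Bool)}

theorem meas_agree (s : ℕ → Bool) (n : ℕ) :
    MeasurableSet {x : ℕ → Bool | ∀ i < n, x i = s i} := by
  have : {x : ℕ → Bool | ∀ i < n, x i = s i} = ⋂ i ∈ Set.Iio n, {x : ℕ → Bool | x i = s i} := by
    ext x
    simp
  rw [this]
  apply MeasurableSet.biInter (Set.to_countable _)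
  intro i _
  have h1 : Measurable (fun x : ℕ → Bool => x i) := measurable_pi_apply i
  exact h1 (measurableSet_singleton (s i))

theorem meas_Sp (hproj : ∀ (s : ℕ → Bool) (n : ℕ),
      MeasurableSet {z | ∃ y ∈ P z, ∀ i < n, y i = s i}) (n : ℕ) :
    MeasurableSet {p : Z × (ℕ → Bool) | Sp (P p.1) p.2 n} := by
  classical
  let ext : (Fin (n + 1) → Bool) → ℕ → Bool := fun s i => if h : i < n + 1 then s ⟨i, h⟩ else false
  have h1 : {p : Z × (ℕ → Bool) | Sp (P p.1) p.2 n} = ⋃ s : Fin (n + 1) → Bool,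
      ({z | ∃ y ∈ P z, ∀ i < n + 1, y i = ext s i} ×ˢ
        {x : ℕ → Bool | (∀ i < n, x i = ext s i) ∧ x n = !(ext s n)}) := by
    ext ⟨z, x⟩
    simp only [Set.mem_ofPred_eq, Set.mem_iUnion, Set.mem_prod]
    constructor
    · rintro ⟨y, hy, h1, h2⟩
      refine ⟨fun i => y i, ⟨y, hy, ?_⟩, ?_, ?_⟩
      · intro i hi
        simp only [ext, dif_pos hi]
      · intro i hi
        have h5 : i < n + 1 := by omega
        simp only [ext, dif_pos h5, h1 i hi]
      · simp only [ext, Nat.lt_succ_self, dif_pos]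
        cases hx : x n <;> cases hy' : y n <;> simp_all
    · rintro ⟨s, ⟨y, hy, h1⟩, h2, h3⟩
      refine ⟨y, hy, ?_, ?_⟩
      · intro i hi
        rw [h1 i (by omega), h2 i hi]
      · rw [h1 n (by omega), h3]
        cases ext s n <;> simp
  rw [h1]
  apply MeasurableSet.iUnion
  intro s
  refine (hproj _ _).prod ((meas_agree _ _).inter ?_)
  have h2 : Measurable (fun x : ℕ → Bool => x n) := measurable_pi_apply n
  exact h2 (measurableSet_singleton _)

theorem meas_count (hproj : ∀ (s : ℕ → Bool) (n : ℕ),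
      MeasurableSet {z | ∃ y ∈ P z, ∀ i < n, y i = s i}) (n : ℕ) :
    ∀ k, MeasurableSet {p : Z × (ℕ → Bool) |
      @Nat.count (Sp (P p.1) p.2) (Classical.decPred _) n = k} := by
  classical
  induction n with
  | zero =>
    intro k
    simp only [Nat.count_zero]
    exact MeasurableSet.const _
  | succ n ih =>
    intro k
    have h1 : {p : Z × (ℕ → Bool) |
      @Nat.count (Sp (P p.1) p.2) (Classical.decPred _) (n + 1) = k} =
      ({p : Z × (ℕ → Bool) | @Nat.count (Sp (P p.1) p.2) (Classical.decPred _) n = k} ∩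
        {p : Z × (ℕ → Bool) | Sp (P p.1) p.2 n}ᶜ) ∪
      ({p : Z × (ℕ → Bool) | @Nat.count (Sp (P p.1) p.2) (Classical.decPred _) n + 1 = k} ∩
        {p : Z × (ℕ → Bool) | Sp (P p.1) p.2 n}) := by
      ext p
      simp only [Set.mem_ofPred_eq, Set.mem_union, Set.mem_inter_iff, Set.mem_compl_iff]
      rw [Nat.count_succ]
      by_cases h : Sp (P p.1) p.2 n <;> simp [h]
    rw [h1]
    refine ((ih k).inter (meas_Sp hproj n).compl).union (MeasurableSet.inter ?_ (meas_Sp hproj n))
    cases k with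
    | zero =>
      have : {p : Z × (ℕ → Bool) | @Nat.count (Sp (P p.1) p.2) (Classical.decPred _) n + 1 = 0} =
        ∅ := by ext p; simp
      rw [this]
      exact MeasurableSet.empty
    | succ k =>
      have : {p : Z × (ℕ → Bool) |
          @Nat.count (Sp (P p.1) p.2) (Classical.decPred _) n + 1 = k + 1} =
        {p : Z × (ℕ → Bool) | @Nat.count (Sp (P p.1) p.2) (Classical.decPred _) n = k} := by
        ext p; simp
      rw [this]
      exact ih k

/-- the graph of the family -/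
def Gr (P : Z → Set (ℕ → Bool)) : Set (Z × (ℕ → Bool)) := {p | p.2 ∈ P p.1}

theorem meas_phi (hperf : ∀ z, Perf (P z)) (hproj : ∀ (s : ℕ → Bool) (n : ℕ),
      MeasurableSet {z | ∃ y ∈ P z, ∀ i < n, y i = s i}) :
    Measurable (fun p : Gr P => phi (P p.1.1) p.1.2) := by
  classical
  rw [measurable_pi_iff]
  intro k
  apply measurable_to_bool
  have h1 : (fun p : Gr P => phi (P p.1.1) p.1.2 k) ⁻¹' {true} = Subtype.val ⁻¹' (⋃ n : ℕ,
      ({p : Z × (ℕ → Bool) | Sp (P p.1) p.2 n} ∩
        {p : Z × (ℕ → Bool) | @Nat.count (Sp (P p.1) p.2) (Classical.decPred _) n = k}) ∩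
      {p : Z × (ℕ → Bool) | p.2 n = true}) := by
    ext p
    simp only [Set.mem_preimage, Set.mem_singleton_iff, Set.mem_iUnion, Set.mem_inter_iff,
      Set.mem_ofPred_eq]
    constructor
    · intro h
      refine ⟨Nat.nth (Sp (P p.1.1) p.1.2) k, ⟨Nat.nth_mem_of_infinite (Sp_inf (hperf _) p.2) k,
        ?_⟩, h⟩
      exact @Nat.count_nth_of_infinite _ (Classical.decPred _) (Sp_inf (hperf _) p.2) k
    · rintro ⟨n, ⟨h1, h2⟩, h3⟩
      have h4 := @Nat.nth_count _ (Classical.decPred _) _ h1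
      rw [h2] at h4
      rw [phi, h4]
      exact h3
  rw [h1]
  apply measurable_subtype_coe
  apply MeasurableSet.iUnion
  intro n
  refine ((meas_Sp hproj n).inter (meas_count hproj n k)).inter ?_
  have h2 : Measurable (fun p : Z × (ℕ → Bool) => p.2 n) :=
    (measurable_pi_apply n).comp measurable_snd
  exact h2 (measurableSet_singleton true)

/-- measurability of the inverse -/
theorem meas_inv [StandardBorelSpace Z] (hGr : MeasurableSet (Gr P)) (hcl : ∀ z, IsClosed (P z))
    (hne : ∀ z, (P z).Nonempty) (hperf : ∀ z, Perf (P z)) (hproj : ∀ (s : ℕ → Bool) (n : ℕ),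
      MeasurableSet {z | ∃ y ∈ P z, ∀ i < n, y i = s i}) :
    Measurable (fun q : Z × (ℕ → Bool) =>
      (⟨(q.1, ((homeo (hcl q.1) (hne q.1) (hperf q.1)).symm q.2).1),
        ((homeo (hcl q.1) (hne q.1) (hperf q.1)).symm q.2).2⟩ : Gr P)) := by
  have hst : StandardBorelSpace (Gr P) := hGr.standardBorel
  let Φ : Gr P → Z × (ℕ → Bool) := fun p => (p.1.1, phi (P p.1.1) p.1.2)
  have hΦ : Measurable Φ :=
    (measurable_fst.comp measurable_subtype_coe).prodMk (meas_phi hperf hproj)
  have hinj : Function.Injective Φ := by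
    rintro ⟨⟨z, x⟩, hx⟩ ⟨⟨z', x'⟩, hx'⟩ h
    have h1 : z = z' := congrArg Prod.fst h
    subst h1
    have h2 : phi (P z) x = phi (P z) x' := congrArg Prod.snd h
    have h3 := phi_inj hx hx' h2
    subst h3
    rfl
  have hemb : MeasurableEmbedding Φ := hΦ.measurableEmbedding hinj
  let Ψ : Z × (ℕ → Bool) → Gr P := fun q =>
      (⟨(q.1, ((homeo (hcl q.1) (hne q.1) (hperf q.1)).symm q.2).1),
        ((homeo (hcl q.1) (hne q.1) (hperf q.1)).symm q.2).2⟩ : Gr P)
  have hΦΨ : ∀ q, Φ (Ψ q) = q := by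
    rintro ⟨z, b⟩
    have h1 := (homeo (hcl z) (hne z) (hperf z)).apply_symm_apply b
    rw [homeo_apply] at h1
    exact Prod.ext rfl h1
  show Measurable Ψ
  intro S hS
  have h2 : Ψ ⁻¹' S = Φ '' S := by
    ext q
    constructor
    · intro hq
      exact ⟨Ψ q, hq, hΦΨ q⟩
    · rintro ⟨p, hp, rfl⟩
      have : Ψ (Φ p) = p := hinj (hΦΨ _)
      show Ψ (Φ p) ∈ S
      rw [this]
      exact hp
  rw [h2]
  exact hemb.measurableSet_image.2 hS

end meas

/-- pointwise Borel families of continuous maps of Cantor space are Borel -/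
theorem meas_cmap {Z : Type*} [MeasurableSpace Z] (F : Z → C(ℕ → Bool, ℕ → Bool))
    (h : ∀ b, Measurable (fun z => F z b)) : @Measurable _ _ _ (borel _) F := by
  classical
  have h1 := ContinuousMap.compactOpen_eq_generateFrom (X := ℕ → Bool) (Y := ℕ → Bool)
    (S := {K | IsClopen K}) (T := {K | IsClopen K}) (fun K hK => hK.isClosed.isCompact)
    isTopologicalBasis_isClopen (by
      intro f x V hV hx
      refine ⟨f ⁻¹' V, IsClopen.preimage hV f.continuous, ?_, fun y hy => hy⟩
      exact (IsClopen.preimage hV f.continuous).isOpen.mem_nhds hx)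
  rw [borel_eq_generateFrom_of_subbasis h1]
  apply measurable_generateFrom
  rintro _ ⟨K, hK, t, ⟨ht1, ht2⟩, rfl⟩
  have hW : IsClosed (⋃₀ t) := by
    rw [Set.sUnion_eq_biUnion]
    exact ht1.isClosed_biUnion fun s hs => (ht2 hs).isClosed
  obtain ⟨D, hD1, hD2⟩ := TopologicalSpace.exists_countable_dense (ℕ → Bool)
  have h2 : F ⁻¹' {f : C(ℕ → Bool, ℕ → Bool) | MapsTo f K (⋃₀ t)} =
      ⋂ x ∈ D ∩ K, {z | F z x ∈ ⋃₀ t} := by
    ext z
    simp only [Set.mem_preimage, Set.mem_ofPred_eq, Set.mem_iInter]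
    constructor
    · intro h x hx
      exact h hx.2
    · intro h x hx
      by_contra hcon
      have hO : IsOpen (K ∩ (F z) ⁻¹' (⋃₀ t)ᶜ) :=
        hK.isOpen.inter (hW.isOpen_compl.preimage (F z).continuous)
      obtain ⟨y, hy1, hy2⟩ := hD2.inter_open_nonempty _ hO ⟨x, hx, hcon⟩
      exact hy1.2 (h y ⟨hy2, hy1.1⟩)
  rw [h2]
  apply MeasurableSet.biInter (hD1.mono Set.inter_subset_left)
  intro x _
  exact (h x) hW.measurableSet

end Pool.Agent.Q303.Split

namespace Pool.Agent.Q303.Split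

/-- a Borel family of homeomorphisms of Cantor space conjugate to the restrictions of a fixed
homeomorphism to perfect closed sets depending on a parameter -/
theorem param {Z : Type*} [MeasurableSpace Z] [StandardBorelSpace Z] (P : Z → Set (ℕ → Bool))
    (hGr : MeasurableSet (Gr P)) (hcl : ∀ z, IsClosed (P z))
    (hne : ∀ z, (P z).Nonempty) (hperf : ∀ z, Perf (P z)) (hproj : ∀ (s : ℕ → Bool) (n : ℕ),
      MeasurableSet {z | ∃ y ∈ P z, ∀ i < n, y i = s i})
    (S : (ℕ → Bool) ≃ₜ (ℕ → Bool)) (hS : ∀ z x, x ∈ P z ↔ S x ∈ P z) :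
    ∃ (T : Z → (ℕ → Bool) ≃ₜ (ℕ → Bool)) (h : ∀ z, P z ≃ₜ (ℕ → Bool)),
      @Measurable _ _ _ (borel _) (fun z => (⟨T z, (T z).continuous⟩ : C(ℕ → Bool, ℕ → Bool))) ∧
      @Measurable _ _ _ (borel _)
        (fun z => (⟨(T z).symm, (T z).symm.continuous⟩ : C(ℕ → Bool, ℕ → Bool))) ∧
      ∀ z (x : P z), T z (h z x) = h z ⟨S x.1, (hS z x.1).1 x.2⟩ := by
  let h : ∀ z, P z ≃ₜ (ℕ → Bool) := fun z => homeo (hcl z) (hne z) (hperf z)
  let SP : ∀ z, P z ≃ₜ P z := fun z =>
    { toFun := fun x => ⟨S x.1, (hS z x.1).1 x.2⟩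
      invFun := fun x => ⟨S.symm x.1, (hS z _).2 (by rw [S.apply_symm_apply]; exact x.2)⟩
      left_inv := fun x => Subtype.ext (S.symm_apply_apply x.1)
      right_inv := fun x => Subtype.ext (S.apply_symm_apply x.1)
      continuous_toFun := (S.continuous.comp continuous_subtype_val).subtype_mk _
      continuous_invFun := (S.symm.continuous.comp continuous_subtype_val).subtype_mk _ }
  have hmi := meas_inv hGr hcl hne hperf hproj
  have key : ∀ R : ∀ z, P z ≃ₜ P z, Measurable (fun p : Gr P => (⟨(p.1.1, (R p.1.1 ⟨p.1.2, p.2⟩).1),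
      (R p.1.1 ⟨p.1.2, p.2⟩).2⟩ : Gr P)) → @Measurable _ _ _ (borel _)
        (fun z => (⟨((h z).symm.trans (R z)).trans (h z),
          (((h z).symm.trans (R z)).trans (h z)).continuous⟩ : C(ℕ → Bool, ℕ → Bool))) := by
    intro R hR
    apply meas_cmap
    intro b
    have h1 : Measurable (fun z : Z => (z, b)) := measurable_id.prodMk measurable_const
    exact (meas_phi hperf hproj).comp (hR.comp (hmi.comp h1))
  refine ⟨fun z => ((h z).symm.trans (SP z)).trans (h z), h, ?_, ?_, ?_⟩
  · apply key SP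
    apply Measurable.subtype_mk
    exact (measurable_fst.comp measurable_subtype_coe).prodMk
      (S.continuous.measurable.comp (measurable_snd.comp measurable_subtype_coe))
  · have h2 := key (fun z => (SP z).symm) (by
      apply Measurable.subtype_mk
      exact (measurable_fst.comp measurable_subtype_coe).prodMk
        (S.symm.continuous.measurable.comp (measurable_snd.comp measurable_subtype_coe)))
    exact h2
  · intro z x
    show h z (SP z ((h z).symm (h z x))) = _
    rw [(h z).symm_apply_apply]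
    rfl

end Pool.Agent.Q303.Split
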