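import Pool.Agent.Q303.KU

/-! Category argument: no 2-cube tilings on a product of skew Bernoulli shifts. -/

open Set Topology Filter MeasureTheory

namespace Pool.Agent.Q303.Poly

open Pool.Agent.Q303.KU

/-- generic ergodicity, abstract form -/
theorem erg_dich {Z : Type*} [TopologicalSpace Z] [BaireSpace Z] {B : Set Z}
    (hB : BaireMeasurableSet B) {ι : Type*} (S : ι → Z → Z) (hc : ∀ i, Continuous (S i))
    (ho : ∀ i, IsOpenMap (S i))
    (htrans : ∀ U V : Set Z, IsOpen U → IsOpen V → U.Nonempty → V.Nonempty →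
      ∃ i, ∃ z ∈ U, S i z ∈ V)
    (hinv : ∀ i, ∀ᶠ z in residual Z, (S i z ∈ B ↔ z ∈ B)) :
    (∀ᶠ z in residual Z, z ∈ B) ∨ (∀ᶠ z in residual Z, z ∉ B) := by
  rcases borel_dich hB with ⟨U, hU, hUne, hUr⟩ | h
  · rcases borel_dich hB.compl with ⟨V, hV, hVne, hVr⟩ | h
    · exfalso
      obtain ⟨i, z, hz, hz2⟩ := htrans U V hU hV hUne hVne
      have hO : IsOpen (U ∩ (S i) ⁻¹' V) := hU.inter (hV.preimage (hc i))
      have h1 : ∀ᶠ z in residual Z, S i z ∈ V → S i z ∈ Bᶜ := res_pre (hc i) (ho i) hVr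
      obtain ⟨a, ha1, ⟨ha2, ha3⟩, ha4⟩ :=
        exists_of_res ((hUr.and h1).and (hinv i)) hO ⟨z, hz, hz2⟩
      exact ha3 ha1.2 (ha4.2 (ha2 ha1.1))
    · left
      filter_upwards [h] with a ha
      by_contra h3
      exact ha h3
  · right
    exact h

/-- swapping category quantifiers for a fibrewise homogeneous set -/
theorem homog {X Y : Type*} [TopologicalSpace X] [TopologicalSpace Y] [BaireSpace X]
    [BaireSpace Y] [SecondCountableTopology X] [SecondCountableTopology Y] {C : Set (X × Y)}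
    (hC : BaireMeasurableSet C)
    (hBor : ∀ V : Set Y, IsOpen V → BaireMeasurableSet {p : X × Y | p.2 ∈ V → p ∈ C})
    (hh : ∀ᶠ y in residual Y, (∀ᶠ x in residual X, (x, y) ∈ C) ∨
      (∀ᶠ x in residual X, (x, y) ∉ C)) (hne : ¬ ∀ᶠ p in residual (X × Y), p ∉ C) :
    ∃ V : Set Y, IsOpen V ∧ V.Nonempty ∧
      ∀ᶠ x in residual X, ∀ᶠ y in residual Y, y ∈ V → (x, y) ∈ C := by
  rcases borel_dich hC with ⟨O, hO, ⟨⟨u, v⟩, huv⟩, hOr⟩ | h
  · obtain ⟨U, V, hU, hV, huU, hvV, hUV⟩ := isOpen_prod_iff.1 hO u v huv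
    refine ⟨V, hV, ⟨v, hvV⟩, ?_⟩
    have swap : ∀ {P : X × Y → Prop}, (∀ᶠ p in residual (X × Y), P p) →
        ∀ᶠ y in residual Y, ∀ᶠ x in residual X, P (x, y) := by
      intro P hP
      have h1 : ∀ᶠ q in residual (Y × X), P (q.2, q.1) :=
        res_pre (φ := fun q : Y × X => (q.2, q.1)) (Homeomorph.prodComm Y X).continuous
          (Homeomorph.prodComm Y X).isOpenMap hP
      exact ku_res h1
    have h2 : ∀ᶠ y in residual Y, y ∈ V → ∀ᶠ x in residual X, (x, y) ∈ C := by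
      filter_upwards [swap hOr, hh] with y hy1 hy2 hyV
      rcases hy2 with h | h
      · exact h
      · exfalso
        obtain ⟨x, hxU, hx1, hx2⟩ := exists_of_res (hy1.and h) hU ⟨u, huU⟩
        exact hx2 (hx1 (hUV ⟨hxU, hyV⟩))
    have h3 : ∀ᶠ p in residual (X × Y), p ∉ {p : X × Y | p.2 ∈ V → p ∈ C}ᶜ := by
      rcases borel_dich (hBor V hV).compl with ⟨O', hO', ⟨⟨u', v'⟩, huv'⟩, hOr'⟩ | h
      · exfalso
        obtain ⟨U', V', hU', hV', huU', hvV', hUV'⟩ := isOpen_prod_iff.1 hO' u' v' huv'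
        obtain ⟨y, hyV, hy1, hy2⟩ := exists_of_res ((swap hOr').and h2) hV' ⟨v', hvV'⟩
        by_cases hyy : y ∈ V
        · obtain ⟨x, hxU, hx1, hx2⟩ := exists_of_res (hy1.and (hy2 hyy)) hU' ⟨u', huU'⟩
          exact hx1 (hUV' ⟨hxU, hyV⟩) fun _ => hx2
        · obtain ⟨x, hxU, hx1⟩ := exists_of_res hy1 hU' ⟨u', huU'⟩
          exact hx1 (hUV' ⟨hxU, hyV⟩) fun h => absurd h hyy
      · exact h
    have h4 := ku_res h3
    filter_upwards [h4] with x hx
    filter_upwards [hx] with y hy hyV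
    by_contra hcon
    exact hy fun h => hcon (h hyV)
  · exact absurd h hne

/-- shift by `v` -/
def sh {L : Type*} [AddCommGroup L] (v : L) (φ : L → Bool) : L → Bool := fun w => φ (w + v)

theorem sh_zero {L : Type*} [AddCommGroup L] (φ : L → Bool) : sh 0 φ = φ := by
  funext w
  simp [sh]

/-- mixing of shifts -/
theorem mix {L : Type*} [AddCommGroup L] [IsAddTorsionFree L] {v : L} (hv : v ≠ 0)
    {U V : Set (L → Bool)} (hU : IsOpen U) (hV : IsOpen V) (hUne : U.Nonempty)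
    (hVne : V.Nonempty) :
    ∃ K : Set ℕ, K.Finite ∧ ∀ k ∉ K, ∃ φ ∈ U, sh (k • v) φ ∈ V := by
  classical
  obtain ⟨u, hu⟩ := hUne
  obtain ⟨v', hv'⟩ := hVne
  obtain ⟨I, s, hs1, hs2⟩ := isOpen_pi_iff.1 hU u hu
  obtain ⟨J, t, ht1, ht2⟩ := isOpen_pi_iff.1 hV v' hv'
  refine ⟨⋃ i ∈ I, ⋃ j ∈ J, {k : ℕ | j + k • v = i}, ?_, ?_⟩
  · apply Set.Finite.biUnion I.finite_toSet
    intro i _
    apply Set.Finite.biUnion J.finite_toSet
    intro j _
    apply Set.Subsingleton.finite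
    intro k hk l hl
    have h1 : k • v = l • v := by
      have h1 : j + k • v = j + l • v := hk.trans hl.symm
      exact add_left_cancel h1
    exact IsAddLeftRegular.nsmul_injective (IsAddLeftRegular.all v) hv h1
  · intro k hk
    have hdis : ∀ j ∈ J, j + k • v ∉ I := by
      intro j hj hI
      apply hk
      simp only [Set.mem_iUnion]
      exact ⟨j + k • v, hI, j, hj, rfl⟩
    refine ⟨fun i => if i ∈ I then u i else v' (i - k • v), hs2 ?_, ht2 ?_⟩
    · intro i hi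
      have hi' : i ∈ I := hi
      simp only [hi', if_true]
      exact (hs1 i hi').2
    · intro j hj
      have hj' : j ∈ J := hj
      simp only [sh, hdis j hj', if_false, add_sub_cancel_right]
      exact (ht1 j hj').2

/-- the parity bit of an integer -/
def par (n : ℤ) : Bool := decide (n % 2 = 1)

theorem par_add (m n : ℤ) : par (m + n) = xor (par m) (par n) := by
  unfold par
  rcases Int.emod_two_eq_zero_or_one m with hm | hm <;>
    rcases Int.emod_two_eq_zero_or_one n with hn | hn <;>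
    simp [Int.add_emod, hm, hn]

theorem par_zero : par 0 = false := by simp [par]

theorem par_one : par 1 = true := by simp [par]

/-- the skew action on sequences: `z` acts by a shift in the directions other than `i`, and in
direction `i` by flipping the values -/
def tw {d : ℕ} (i : Fin d) (z : Fin d → ℤ) (φ : (Fin d → ℤ) → Bool) : (Fin d → ℤ) → Bool :=
  fun w => xor (φ (w + Function.update z i 0)) (par (z i))

theorem upd_add {d : ℕ} (i : Fin d) (z z' : Fin d → ℤ) :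
    Function.update (z + z') i 0 = Function.update z i 0 + Function.update z' i 0 := by
  funext j
  by_cases h : j = i
  · subst h; simp
  · simp [Function.update_of_ne h]

theorem tw_add {d : ℕ} (i : Fin d) (z z' : Fin d → ℤ) (φ : (Fin d → ℤ) → Bool) :
    tw i (z + z') φ = tw i z (tw i z' φ) := by
  funext w
  simp only [tw, upd_add, Pi.add_apply, par_add]
  rw [add_assoc w, Bool.xor_comm (par (z i)), Bool.xor_assoc]

theorem tw_zero {d : ℕ} (i : Fin d) (φ : (Fin d → ℤ) → Bool) : tw i 0 φ = φ := by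
  funext w
  have : Function.update (0 : Fin d → ℤ) i 0 = 0 := by
    funext j
    by_cases h : j = i
    · subst h; simp
    · simp [Function.update_of_ne h]
  simp [tw, this, par_zero]

theorem tw_cont {d : ℕ} (i : Fin d) (z : Fin d → ℤ) : Continuous (tw i z) := by
  apply continuous_pi
  intro w
  have h1 : Continuous (fun b : Bool => xor b (par (z i))) := continuous_of_discreteTopology
  exact h1.comp (continuous_apply (w + Function.update z i 0))

/-- the skew action by homeomorphisms -/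
def twH {d : ℕ} (i : Fin d) (z : Fin d → ℤ) : ((Fin d → ℤ) → Bool) ≃ₜ ((Fin d → ℤ) → Bool) where
  toFun := tw i z
  invFun := tw i (-z)
  left_inv φ := by rw [← tw_add, neg_add_cancel, tw_zero]
  right_inv φ := by rw [← tw_add, add_neg_cancel, tw_zero]
  continuous_toFun := tw_cont i z
  continuous_invFun := tw_cont i (-z)

theorem tw_even {d : ℕ} (i : Fin d) (z : Fin d → ℤ) (h : par (z i) = false)
    (φ : (Fin d → ℤ) → Bool) : tw i z φ = sh (Function.update z i 0) φ := by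
  funext w
  simp [tw, sh, h]

/-- the diagonal action on the product -/
def ac {d : ℕ} (i0 i1 : Fin d) (z : Fin d → ℤ)
    (p : ((Fin d → ℤ) → Bool) × ((Fin d → ℤ) → Bool)) :
    ((Fin d → ℤ) → Bool) × ((Fin d → ℤ) → Bool) := (tw i0 z p.1, tw i1 z p.2)

theorem ac_add {d : ℕ} (i0 i1 : Fin d) (z z' : Fin d → ℤ)
    (p : ((Fin d → ℤ) → Bool) × ((Fin d → ℤ) → Bool)) :
    ac i0 i1 (z + z') p = ac i0 i1 z (ac i0 i1 z' p) := by
  simp [ac, tw_add]

theorem ac_cont {d : ℕ} (i0 i1 : Fin d) (z : Fin d → ℤ) : Continuous (ac i0 i1 z) :=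
  ((twH i0 z).prodCongr (twH i1 z)).continuous

theorem ac_open {d : ℕ} (i0 i1 : Fin d) (z : Fin d → ℤ) : IsOpenMap (ac i0 i1 z) :=
  ((twH i0 z).prodCongr (twH i1 z)).isOpenMap

theorem inv_nsmul {d : ℕ} {i0 i1 : Fin d} {z : Fin d → ℤ}
    {B : Set (((Fin d → ℤ) → Bool) × ((Fin d → ℤ) → Bool))}
    (h : ∀ᶠ p in residual _, (ac i0 i1 z p ∈ B ↔ p ∈ B)) (k : ℕ) :
    ∀ᶠ p in residual _, (ac i0 i1 (k • z) p ∈ B ↔ p ∈ B) := by
  induction k with
  | zero =>
    refine Eventually.of_forall fun p => ?_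
    simp [ac, tw_zero]
  | succ k ih =>
    have h1 : ∀ᶠ p in residual _, (ac i0 i1 z (ac i0 i1 (k • z) p) ∈ B ↔ ac i0 i1 (k • z) p ∈ B) :=
      res_pre (ac_cont i0 i1 _) (ac_open i0 i1 _) h
    filter_upwards [ih, h1] with p hp1 hp2
    rw [succ_nsmul', ac_add, hp2, hp1]

/-- the core argument -/
theorem core {d : ℕ} {i0 i1 : Fin d} (h01 : i0 ≠ i1)
    {B0 B1 : Set (((Fin d → ℤ) → Bool) × ((Fin d → ℤ) → Bool))}
    (hB0 : @MeasurableSet _ (borel _) B0) (hB1 : @MeasurableSet _ (borel _) B1)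
    (A0 : ∀ᶠ p in residual _, (ac i0 i1 (Pi.single i0 1) p ∈ B0 ↔ p ∉ B0))
    (A1 : ∀ᶠ p in residual _, (ac i0 i1 (Pi.single i1 1) p ∈ B1 ↔ p ∉ B1))
    (hB : ∀ᶠ p in residual _, p ∈ B0 → (ac i0 i1 (Pi.single i0 1) p ∈ B1 ↔ p ∈ B1)) : False := by
  classical
  -- abbreviations
  let Φ := (Fin d → ℤ) → Bool
  let Q := ((Fin d → ℤ) → Bool) × ((Fin d → ℤ) → Bool)
  let e0 : Fin d → ℤ := Pi.single i0 1
  let e1 : Fin d → ℤ := Pi.single i1 1
  let mQ : MeasurableSpace Q := borel Q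
  have bQ : BorelSpace Q := ⟨rfl⟩
  let mΦ : MeasurableSpace Φ := borel Φ
  have bΦ : BorelSpace Φ := ⟨rfl⟩
  have hacm : ∀ z, Measurable (ac i0 i1 z) := fun z => (ac_cont i0 i1 z).measurable
  -- doubles
  have h20 : ∀ k : ℕ, ∀ p : Q, ac i0 i1 (k • (e0 + e0)) p = (p.1, sh (k • (e0 + e0)) p.2) := by
    intro k p
    have hp1 : par ((k • (e0 + e0)) i0) = false := by
      simp [par, e0]
    have hp2 : par ((k • (e0 + e0)) i1) = false := by
      simp [par, e0, h01.symm]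
    have hu1 : Function.update (k • (e0 + e0)) i0 0 = 0 := by
      funext j
      by_cases h : j = i0
      · subst h; simp
      · simp [Function.update_of_ne h, e0, Pi.single_eq_of_ne h]
    have hu2 : Function.update (k • (e0 + e0)) i1 0 = k • (e0 + e0) := by
      funext j
      by_cases h : j = i1
      · subst h; simp [e0, Pi.single_eq_of_ne h01.symm]
      · rw [Function.update_of_ne h]
    rw [ac, tw_even _ _ hp1, tw_even _ _ hp2, hu1, hu2, sh_zero]
  have h21 : ∀ k : ℕ, ∀ p : Q, ac i0 i1 (k • (e1 + e1)) p = (sh (k • (e1 + e1)) p.1, p.2) := by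
    intro k p
    have hp1 : par ((k • (e1 + e1)) i0) = false := by
      simp [par, e1, h01]
    have hp2 : par ((k • (e1 + e1)) i1) = false := by
      simp [par, e1]
    have hu1 : Function.update (k • (e1 + e1)) i0 0 = k • (e1 + e1) := by
      funext j
      by_cases h : j = i0
      · subst h; simp [e1, Pi.single_eq_of_ne h01]
      · rw [Function.update_of_ne h]
    have hu2 : Function.update (k • (e1 + e1)) i1 0 = 0 := by
      funext j
      by_cases h : j = i1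
      · subst h; simp
      · simp [Function.update_of_ne h, e1, Pi.single_eq_of_ne h]
    rw [ac, tw_even _ _ hp1, tw_even _ _ hp2, hu1, hu2, sh_zero]
  have he0 : (e0 + e0) ≠ 0 := by
    intro h
    have := congrFun h i0
    simp [e0] at this
  have he1 : (e1 + e1) ≠ 0 := by
    intro h
    have := congrFun h i1
    simp [e1] at this
  have inv0 : ∀ᶠ p : Q in residual _, (ac i0 i1 (e0 + e0) p ∈ B0 ↔ p ∈ B0) := by
    have h1 : ∀ᶠ p in residual _, (ac i0 i1 e0 (ac i0 i1 e0 p) ∈ B0 ↔ ac i0 i1 e0 p ∉ B0) :=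
      res_pre (ac_cont i0 i1 _) (ac_open i0 i1 _) A0
    filter_upwards [A0, h1] with p hp1 hp2
    have hp2' : ac i0 i1 e0 (ac i0 i1 e0 p) ∈ B0 ↔ ac i0 i1 e0 p ∉ B0 := hp2
    have hp1' : ac i0 i1 e0 p ∈ B0 ↔ p ∉ B0 := hp1
    rw [ac_add, hp2', hp1', not_not]
  have inv1 : ∀ᶠ p : Q in residual _, (ac i0 i1 (e1 + e1) p ∈ B1 ↔ p ∈ B1) := by
    have h1 : ∀ᶠ p in residual _, (ac i0 i1 e1 (ac i0 i1 e1 p) ∈ B1 ↔ ac i0 i1 e1 p ∉ B1) :=
      res_pre (ac_cont i0 i1 _) (ac_open i0 i1 _) A1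
    filter_upwards [A1, h1] with p hp1 hp2
    have hp2' : ac i0 i1 e1 (ac i0 i1 e1 p) ∈ B1 ↔ ac i0 i1 e1 p ∉ B1 := hp2
    have hp1' : ac i0 i1 e1 p ∈ B1 ↔ p ∉ B1 := hp1
    rw [ac_add, hp2', hp1', not_not]
  have shc : ∀ v : Fin d → ℤ, Continuous (sh v) := fun v => continuous_pi fun w =>
    continuous_apply (w + v)
  have sho : ∀ v : Fin d → ℤ, IsOpenMap (sh v) := by
    intro v
    let H : Φ ≃ₜ Φ :=
      { toFun := sh v
        invFun := sh (-v)
        left_inv := fun φ => by funext w; simp [sh]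
        right_inv := fun φ => by funext w; simp [sh]
        continuous_toFun := shc v
        continuous_invFun := shc (-v) }
    exact H.isOpenMap
  -- dichotomy for `B0` over the first coordinate
  have d0 : ∀ᶠ φ in residual Φ, (∀ᶠ ψ in residual Φ, ((φ, ψ) : Q) ∈ B0) ∨
      (∀ᶠ ψ in residual Φ, ((φ, ψ) : Q) ∉ B0) := by
    have h1 : ∀ᶠ φ in residual Φ, ∀ k : ℕ, ∀ᶠ ψ in residual Φ,
        (((φ, sh (k • (e0 + e0)) ψ) : Q) ∈ B0 ↔ ((φ, ψ) : Q) ∈ B0) := by
      rw [eventually_countable_forall]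
      intro k
      have h2 := ku_res (inv_nsmul inv0 k)
      refine h2.mono fun φ hφ => ?_
      refine hφ.mono fun ψ hψ => ?_
      rw [h20] at hψ
      exact hψ
    filter_upwards [h1] with φ hφ
    have hm : Measurable (fun ψ : Φ => ((φ, ψ) : Q)) :=
      (continuous_const.prodMk continuous_id).measurable
    refine erg_dich (Z := Φ) (B := {ψ | ((φ, ψ) : Q) ∈ B0}) (hm hB0).baireMeasurableSet
      (fun k : ℕ => sh (k • (e0 + e0))) (fun k => shc _) (fun k => sho _) ?_ hφ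
    intro U V hU hV hUne hVne
    obtain ⟨K, hK, hK2⟩ := mix he0 hU hV hUne hVne
    obtain ⟨k, hk⟩ := hK.infinite_compl.nonempty
    exact ⟨k, hK2 k hk⟩
  -- the set where `B1` is not invariant under `e0`
  let C : Set Q := {p | ¬ (ac i0 i1 e0 p ∈ B1 ↔ p ∈ B1)}
  have hCm : MeasurableSet C := by
    have hm : MeasurableSet {p : Q | ac i0 i1 e0 p ∈ B1} := hacm e0 hB1
    have : C = ({p : Q | ac i0 i1 e0 p ∈ B1} \ B1) ∪ (B1 \ {p : Q | ac i0 i1 e0 p ∈ B1}) := by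
      ext p
      simp only [C, Set.mem_ofPred_eq, Set.mem_union, Set.mem_sdiff]
      tauto
    rw [this]
    exact (hm.diff hB1).union (MeasurableSet.diff hB1 hm)
  have invC : ∀ᶠ p : Q in residual _, (ac i0 i1 (e1 + e1) p ∈ C ↔ p ∈ C) := by
    have h1 : ∀ᶠ p : Q in residual _, (ac i0 i1 (e1 + e1) (ac i0 i1 e0 p) ∈ B1 ↔
        ac i0 i1 e0 p ∈ B1) := res_pre (ac_cont i0 i1 _) (ac_open i0 i1 _) inv1
    filter_upwards [h1, inv1] with p hp1 hp2
    have hp1' : ac i0 i1 (e1 + e1) (ac i0 i1 e0 p) ∈ B1 ↔ ac i0 i1 e0 p ∈ B1 := hp1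
    have h3 : ac i0 i1 e0 (ac i0 i1 (e1 + e1) p) = ac i0 i1 (e1 + e1) (ac i0 i1 e0 p) := by
      rw [← ac_add, ← ac_add, add_comm]
    show ¬ (ac i0 i1 e0 (ac i0 i1 (e1 + e1) p) ∈ B1 ↔ ac i0 i1 (e1 + e1) p ∈ B1) ↔
      ¬ (ac i0 i1 e0 p ∈ B1 ↔ p ∈ B1)
    rw [h3, hp1', hp2]
  have d1 : ∀ᶠ ψ in residual Φ, (∀ᶠ φ in residual Φ, ((φ, ψ) : Q) ∈ C) ∨
      (∀ᶠ φ in residual Φ, ((φ, ψ) : Q) ∉ C) := by
    have h1 : ∀ᶠ ψ in residual Φ, ∀ k : ℕ, ∀ᶠ φ in residual Φ,
        (((sh (k • (e1 + e1)) φ, ψ) : Q) ∈ C ↔ ((φ, ψ) : Q) ∈ C) := by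
      rw [eventually_countable_forall]
      intro k
      have h2 : ∀ᶠ q : Φ × Φ in residual _,
          (ac i0 i1 (k • (e1 + e1)) (q.2, q.1) ∈ C ↔ (q.2, q.1) ∈ C) :=
        res_pre (φ := fun q : Φ × Φ => (q.2, q.1)) (Homeomorph.prodComm Φ Φ).continuous
          (Homeomorph.prodComm Φ Φ).isOpenMap (inv_nsmul invC k)
      have h2' := ku_res h2
      refine h2'.mono fun φ hφ => ?_
      refine hφ.mono fun ψ hψ => ?_
      rw [h21] at hψ
      exact hψ
    filter_upwards [h1] with ψ hψ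
    have hm : Measurable (fun φ : Φ => ((φ, ψ) : Q)) :=
      (continuous_id.prodMk continuous_const).measurable
    refine erg_dich (Z := Φ) (B := {φ | ((φ, ψ) : Q) ∈ C}) (hm hCm).baireMeasurableSet
      (fun k : ℕ => sh (k • (e1 + e1))) (fun k => shc _) (fun k => sho _) ?_ hψ
    intro U V hU hV hUne hVne
    obtain ⟨K, hK, hK2⟩ := mix he1 hU hV hUne hVne
    obtain ⟨k, hk⟩ := hK.infinite_compl.nonempty
    exact ⟨k, hK2 k hk⟩
  -- `B0` is not meager
  have hB0ne : ¬ ∀ᶠ p : Q in residual _, p ∉ B0 := by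
    intro h
    have h1 : ∀ᶠ p : Q in residual _, ac i0 i1 e0 p ∉ B0 :=
      res_pre (ac_cont i0 i1 _) (ac_open i0 i1 _) h
    obtain ⟨p, _, ⟨hp1, hp2⟩, hp3⟩ :=
      exists_of_res ((h.and h1).and A0) isOpen_univ ⟨((fun _ => true, fun _ => true) : Q), trivial⟩
    exact hp2 (hp3.2 hp1)
  -- `C` is meager
  have hCmeag : ∀ᶠ p : Q in residual _, p ∉ C := by
    by_contra hcon
    obtain ⟨V, hV, hVne, hVr⟩ := homog (X := Φ) (Y := Φ) hCm.baireMeasurableSet (by
      intro V hV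
      have hm : MeasurableSet {p : Q | p.2 ∈ V} := (hV.preimage continuous_snd).measurableSet
      have h1 : {p : Q | p.2 ∈ V → p ∈ C} = {p : Q | p.2 ∈ V}ᶜ ∪ C := by
        ext p
        simp only [Set.mem_ofPred_eq, Set.mem_union, Set.mem_compl_iff]
        tauto
      have h2 : MeasurableSet {p : Q | p.2 ∈ V → p ∈ C} := by
        rw [h1]
        exact hm.compl.union hCm
      exact h2.baireMeasurableSet) d1 hcon
    rcases borel_dich (S := B0) (hB0.baireMeasurableSet) with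
      ⟨O, hO, ⟨⟨u, v⟩, huv⟩, hOr⟩ | h
    · obtain ⟨U', V', hU', hV', huU', hvV', hUV'⟩ := isOpen_prod_iff.1 hO u v huv
      have h5 := ku_res hOr
      have h6 := ku_res hB
      obtain ⟨φ, hφU, ⟨⟨h7, h8⟩, h9⟩, h10⟩ :=
        exists_of_res (((h5.and h6).and d0).and hVr) hU' ⟨u, huU'⟩
      rcases h9 with h9 | h9
      · obtain ⟨ψ, hψV, ⟨h11, h12⟩, h13⟩ := exists_of_res ((h9.and h10).and h8) hV hVne
        exact (h12 hψV) (h13 h11)
      · obtain ⟨ψ, hψV, h11, h12⟩ := exists_of_res (h9.and h7) hV' ⟨v, hvV'⟩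
        exact h11 (h12 (hUV' ⟨hφU, hψV⟩))
    · exact hB0ne h
  have inv10 : ∀ᶠ p : Q in residual _, (ac i0 i1 e0 p ∈ B1 ↔ p ∈ B1) := by
    filter_upwards [hCmeag] with p hp
    by_contra h
    exact hp h
  have inv10' : ∀ᶠ p : Q in residual _, (ac i0 i1 (e0 + e0) p ∈ B1 ↔ p ∈ B1) := by
    have h1 : ∀ᶠ p in residual _, (ac i0 i1 e0 (ac i0 i1 e0 p) ∈ B1 ↔ ac i0 i1 e0 p ∈ B1) :=
      res_pre (ac_cont i0 i1 _) (ac_open i0 i1 _) inv10
    filter_upwards [inv10, h1] with p hp1 hp2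
    have hp2' : ac i0 i1 e0 (ac i0 i1 e0 p) ∈ B1 ↔ ac i0 i1 e0 p ∈ B1 := hp2
    rw [ac_add, hp2', hp1]
  have fin : (∀ᶠ p : Q in residual _, p ∈ B1) ∨ (∀ᶠ p : Q in residual _, p ∉ B1) := by
    refine erg_dich (Z := Q) (B := B1) (hB1.baireMeasurableSet)
      (fun k : ℕ => ac i0 i1 (k • (e0 + e0) + k • (e1 + e1))) (fun k => ac_cont _ _ _)
      (fun k => ac_open _ _ _) ?_ ?_
    · intro U V hU hV hUne hVne
      obtain ⟨⟨u, u'⟩, hu⟩ := hUne
      obtain ⟨⟨v, v'⟩, hv⟩ := hVne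
      obtain ⟨U1, U2, hU1, hU2, hu1, hu2, hUU⟩ := isOpen_prod_iff.1 hU u u' hu
      obtain ⟨V1, V2, hV1, hV2, hv1, hv2, hVV⟩ := isOpen_prod_iff.1 hV v v' hv
      obtain ⟨K, hK, hK2⟩ := mix he1 hU1 hV1 ⟨u, hu1⟩ ⟨v, hv1⟩
      obtain ⟨K', hK', hK2'⟩ := mix he0 hU2 hV2 ⟨u', hu2⟩ ⟨v', hv2⟩
      obtain ⟨k, hk⟩ := (hK.union hK').infinite_compl.nonempty
      rw [Set.mem_compl_iff, Set.mem_union, not_or] at hk
      obtain ⟨φ, hφ1, hφ2⟩ := hK2 k hk.1
      obtain ⟨ψ, hψ1, hψ2⟩ := hK2' k hk.2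
      refine ⟨k, (φ, ψ), hUU ⟨hφ1, hψ1⟩, ?_⟩
      simp only [ac_add, h21, h20]
      exact hVV ⟨hφ2, hψ2⟩
    · intro k
      have h1 : ∀ᶠ p : Q in residual _, (ac i0 i1 (k • (e0 + e0)) (ac i0 i1 (k • (e1 + e1)) p) ∈ B1
          ↔ ac i0 i1 (k • (e1 + e1)) p ∈ B1) :=
        res_pre (ac_cont i0 i1 _) (ac_open i0 i1 _) (inv_nsmul inv10' k)
      filter_upwards [h1, inv_nsmul inv1 k] with p hp1 hp2
      have hp1' : ac i0 i1 (k • (e0 + e0)) (ac i0 i1 (k • (e1 + e1)) p) ∈ B1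
          ↔ ac i0 i1 (k • (e1 + e1)) p ∈ B1 := hp1
      have hp2' : ac i0 i1 (k • (e1 + e1)) p ∈ B1 ↔ p ∈ B1 := hp2
      simp only [ac_add]
      rw [hp1', hp2']
  rcases fin with h | h
  · have h1 : ∀ᶠ p : Q in residual _, ac i0 i1 e1 p ∈ B1 :=
      res_pre (ac_cont i0 i1 _) (ac_open i0 i1 _) h
    obtain ⟨p, _, ⟨hp1, hp2⟩, hp3⟩ :=
      exists_of_res ((h.and h1).and A1) isOpen_univ ⟨((fun _ => true, fun _ => true) : Q), trivial⟩
    exact (hp3.1 hp2) hp1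
  · have h1 : ∀ᶠ p : Q in residual _, ac i0 i1 e1 p ∉ B1 :=
      res_pre (ac_cont i0 i1 _) (ac_open i0 i1 _) h
    obtain ⟨p, _, ⟨hp1, hp2⟩, hp3⟩ :=
      exists_of_res ((h.and h1).and A1) isOpen_univ ⟨((fun _ => true, fun _ => true) : Q), trivial⟩
    exact hp2 (hp3.2 hp1)

end Pool.Agent.Q303.Poly
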