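import Pool.Agent.Q303.Poly

/-! The free action without Borel polychromatic colourings. -/

open Set Topology Filter MeasureTheory

namespace Pool.Agent.Q303.Poly

open Pool.Agent.Q303.KU

/-- generically `z` moves `φ` -/
theorem tw_ne {d : ℕ} (i : Fin d) (z : Fin d → ℤ) (hz : Function.update z i 0 ≠ 0) :
    ∀ᶠ φ in residual ((Fin d → ℤ) → Bool), tw i z φ ≠ φ := by
  classical
  have hcl : IsClosed {φ : (Fin d → ℤ) → Bool | tw i z φ = φ} :=
    isClosed_eq (tw_cont i z) continuous_id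
  apply residual_of_dense_open hcl.isOpen_compl
  rw [dense_iff_inter_open]
  rintro U hU ⟨φ, hφ⟩
  by_cases h : tw i z φ = φ
  · obtain ⟨I, t, ht, hI⟩ := isOpen_pi_iff.1 hU φ hφ
    have hinf : Infinite (Fin d → ℤ) := by
      have : Nonempty (Fin d) := ⟨i⟩
      infer_instance
    obtain ⟨w, hw⟩ : ∃ w : Fin d → ℤ, w ∉ I := Infinite.exists_notMem_finset _
    refine ⟨Function.update φ w (!(φ w)), hI ?_, ?_⟩
    · intro l hl
      have hlj : l ≠ w := fun h => hw (h ▸ hl)
      rw [Function.update_of_ne hlj]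
      exact (ht l hl).2
    · intro h2
      have h3 := congrFun h2 w
      have hne : w + Function.update z i 0 ≠ w := by
        intro h4
        exact hz (by simpa using h4)
      have h5 := congrFun h w
      simp only [tw] at h3 h5
      rw [Function.update_of_ne hne, Function.update_self, h5] at h3
      cases hb : φ w <;> simp [hb] at h3
  · exact ⟨φ, hφ, h⟩

theorem ac_ne {d : ℕ} {i0 i1 : Fin d} (h01 : i0 ≠ i1) (z : Fin d → ℤ) (hz : z ≠ 0) :
    ∀ᶠ p in residual (((Fin d → ℤ) → Bool) × ((Fin d → ℤ) → Bool)), ac i0 i1 z p ≠ p := by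
  by_cases h : Function.update z i0 0 = 0
  · have h2 : Function.update z i1 0 ≠ 0 := by
      intro h2
      apply hz
      funext j
      by_cases hj : j = i0
      · subst hj
        have := congrFun h2 j
        rwa [Function.update_of_ne h01] at this
      · have := congrFun h j
        rwa [Function.update_of_ne hj] at this
    have h3 : ∀ᶠ p : (((Fin d → ℤ) → Bool) × ((Fin d → ℤ) → Bool)) in residual _,
        tw i1 z p.2 ≠ p.2 := res_pre continuous_snd isOpenMap_snd (tw_ne i1 z h2)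
    refine h3.mono fun p hp hpp => hp ?_
    exact congrArg Prod.snd hpp
  · have h3 : ∀ᶠ p : (((Fin d → ℤ) → Bool) × ((Fin d → ℤ) → Bool)) in residual _,
        tw i0 z p.1 ≠ p.1 := res_pre continuous_fst isOpenMap_fst (tw_ne i0 z h)
    refine h3.mono fun p hp hpp => hp ?_
    exact congrArg Prod.fst hpp

/-- the big space -/
abbrev X0 (d : ℕ) := (((Fin d → ℤ) → Bool) × ((Fin d → ℤ) → Bool)) × (Fin d → Bool)

/-- the action on the third factor -/
def bt {d : ℕ} (i0 i1 : Fin d) (z : Fin d → ℤ) (b : Fin d → Bool) : Fin d → Bool :=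
  fun i => xor (b i) (decide (i ≠ i0 ∧ i ≠ i1) && par (z i))

/-- the action on the big space -/
def act {d : ℕ} (i0 i1 : Fin d) (z : Fin d → ℤ) (x : X0 d) : X0 d :=
  (ac i0 i1 z x.1, bt i0 i1 z x.2)

theorem bt_add {d : ℕ} (i0 i1 : Fin d) (z z' : Fin d → ℤ) (b : Fin d → Bool) :
    bt i0 i1 (z + z') b = bt i0 i1 z (bt i0 i1 z' b) := by
  funext i
  simp only [bt, Pi.add_apply, par_add]
  cases b i <;> cases decide (i ≠ i0 ∧ i ≠ i1) <;> cases par (z i) <;> cases par (z' i) <;> rfl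

theorem bt_zero {d : ℕ} (i0 i1 : Fin d) (b : Fin d → Bool) : bt i0 i1 0 b = b := by
  funext i
  simp [bt, par_zero]

theorem ac_zero {d : ℕ} (i0 i1 : Fin d)
    (p : ((Fin d → ℤ) → Bool) × ((Fin d → ℤ) → Bool)) : ac i0 i1 0 p = p := by
  simp [ac, tw_zero]

theorem act_add {d : ℕ} (i0 i1 : Fin d) (z z' : Fin d → ℤ) (x : X0 d) :
    act i0 i1 (z + z') x = act i0 i1 z (act i0 i1 z' x) := by
  simp [act, bt_add, ac_add]

theorem act_zero {d : ℕ} (i0 i1 : Fin d) (x : X0 d) : act i0 i1 0 x = x := by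
  simp [act, bt_zero, ac_zero]

theorem bt_cont {d : ℕ} (i0 i1 : Fin d) (z : Fin d → ℤ) : Continuous (bt i0 i1 z) :=
  continuous_of_discreteTopology

theorem act_cont {d : ℕ} (i0 i1 : Fin d) (z : Fin d → ℤ) : Continuous (act i0 i1 z) :=
  ((ac_cont i0 i1 z).comp continuous_fst).prodMk ((bt_cont i0 i1 z).comp continuous_snd)

/-- the free part -/
def Fr {d : ℕ} (i0 i1 : Fin d) : Set (X0 d) := {x | ∀ z, z ≠ 0 → act i0 i1 z x ≠ x}

theorem Fr_meas {d : ℕ} (i0 i1 : Fin d) : MeasurableSet (Fr (d := d) i0 i1) := by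
  have h1 : Fr (d := d) i0 i1 = ⋂ z : Fin d → ℤ, {x | z ≠ 0 → act i0 i1 z x ≠ x} := by
    ext x
    simp [Fr]
  rw [h1]
  apply MeasurableSet.iInter
  intro z
  by_cases hz : z = 0
  · have : {x : X0 d | z ≠ 0 → act i0 i1 z x ≠ x} = Set.univ := by
      ext x
      simp [hz]
    rw [this]
    exact MeasurableSet.univ
  · have : {x : X0 d | z ≠ 0 → act i0 i1 z x ≠ x} = {x | act i0 i1 z x = x}ᶜ := by
      ext x
      simp [hz]
    rw [this]
    exact (isClosed_eq (act_cont i0 i1 z) continuous_id).isOpen_compl.measurableSet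

theorem Fr_inv {d : ℕ} (i0 i1 : Fin d) (z : Fin d → ℤ) {x : X0 d} (hx : x ∈ Fr i0 i1) :
    act i0 i1 z x ∈ Fr i0 i1 := by
  intro w hw h
  apply hx w hw
  have h2 : act i0 i1 (-z) (act i0 i1 w (act i0 i1 z x)) = x := by
    rw [h, ← act_add, neg_add_cancel, act_zero]
  rw [← act_add, ← act_add] at h2
  rw [show -z + w + z = w by abel] at h2
  exact h2

/-- the free action -/
@[reducible]
def frAct {d : ℕ} (i0 i1 : Fin d) : AddAction (Fin d → ℤ) (Fr (d := d) i0 i1) where
  vadd z x := ⟨act i0 i1 z x.1, Fr_inv i0 i1 z x.2⟩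
  zero_vadd x := Subtype.ext (act_zero i0 i1 x.1)
  add_vadd z z' x := Subtype.ext (act_add i0 i1 z z' x.1)

/-- the 0-1 vector -/
def vec {d : ℕ} (b : Fin d → Bool) : Fin d → ℤ := fun i => if b i then 1 else 0

theorem vec_upd {d : ℕ} (b : Fin d → Bool) (i : Fin d) (h : b i = true) :
    vec (Function.update b i false) + Pi.single i 1 = vec b := by
  funext j
  by_cases hj : j = i
  · subst hj
    simp [vec, h]
  · simp [vec, Function.update_of_ne hj, Pi.single_eq_of_ne hj]

theorem vec_inj {d : ℕ} {b b' : Fin d → Bool} (h : vec b = vec b') : b = b' := by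
  funext i
  have := congrFun h i
  simp only [vec] at this
  cases hb : b i <;> cases hb' : b' i <;> simp [hb, hb'] at this <;> rfl

section pos

variable {d : ℕ} {X : Type*} [AddAction (Fin d → ℤ) X] {c : X → Fin (2 ^ d)}

theorem uniq (hc : ∀ x k, ∃ b : Fin d → Bool, c (vec b +ᵥ x) = k) (k : Fin (2 ^ d)) (x : X) :
    ∃! b : Fin d → Bool, c (vec b +ᵥ x) = k := by
  have hs : Function.Surjective (fun b : Fin d → Bool => c (vec b +ᵥ x)) := fun k => hc x k
  have hb : Function.Bijective (fun b : Fin d → Bool => c (vec b +ᵥ x)) := by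
    rw [Fintype.bijective_iff_surjective_and_card]
    exact ⟨hs, by simp⟩
  exact hb.existsUnique k

variable {pos : X → Fin d → Bool} {k : Fin (2 ^ d)}

theorem step1 (hp : ∀ x b, c (vec b +ᵥ x) = k ↔ b = pos x) (x : X) (i : Fin d)
    (h : pos x i = true) : pos ((Pi.single i 1 : Fin d → ℤ) +ᵥ x) =
      Function.update (pos x) i false := by
  symm
  rw [← hp, vadd_vadd, vec_upd _ _ h, hp]

theorem step2 (hp : ∀ x b, c (vec b +ᵥ x) = k ↔ b = pos x) (x : X) (i : Fin d) :
    pos ((Pi.single i 1 : Fin d → ℤ) +ᵥ x) i = !(pos x i) := by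
  cases h : pos x i
  · by_contra hcon
    have h1 : pos ((Pi.single i 1 : Fin d → ℤ) +ᵥ x) i = false := by simpa using hcon
    have h2 := (hp ((Pi.single i 1 : Fin d → ℤ) +ᵥ x) _).2 rfl
    rw [vadd_vadd] at h2
    have h3 : vec (pos ((Pi.single i 1 : Fin d → ℤ) +ᵥ x)) + Pi.single i 1 =
        vec (Function.update (pos ((Pi.single i 1 : Fin d → ℤ) +ᵥ x)) i true) := by
      rw [← vec_upd (Function.update (pos ((Pi.single i 1 : Fin d → ℤ) +ᵥ x)) i true) i (by simp)]
      congr 2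
      funext j
      by_cases hj : j = i
      · subst hj; simp [h1]
      · simp [Function.update_of_ne hj]
    rw [h3, hp] at h2
    have h4 := congrFun h2 i
    rw [Function.update_self, h] at h4
    exact absurd h4 (by simp)
  · rw [step1 hp x i h]
    simp

theorem step3 (hp : ∀ x b, c (vec b +ᵥ x) = k ↔ b = pos x) (x : X) (i j : Fin d) (hij : j ≠ i)
    (h : pos x i = true) : pos ((Pi.single i 1 : Fin d → ℤ) +ᵥ x) j = pos x j := by
  rw [step1 hp x i h, Function.update_of_ne hij]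

end pos

/-- no Borel polychromatic colouring of the free action -/
theorem no_poly {d : ℕ} {i0 i1 : Fin d} (h01 : i0 ≠ i1) (c : Fr (d := d) i0 i1 → Fin (2 ^ d))
    (hc : Measurable c) (hpoly : ∀ (x : Fr (d := d) i0 i1) k, ∃ b : Fin d → Bool,
      c (⟨act i0 i1 (vec b) x.1, Fr_inv i0 i1 (vec b) x.2⟩) = k) : False := by
  classical
  let inst := frAct (d := d) i0 i1
  let k0 : Fin (2 ^ d) := ⟨0, by positivity⟩
  have hu := fun x => uniq (c := c) hpoly k0 x
  choose pos hpos1 hpos2 using hu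
  have hp : ∀ x b, c (vec b +ᵥ x) = k0 ↔ b = pos x := by
    intro x b
    constructor
    · intro h
      exact hpos2 x b h
    · rintro rfl
      exact hpos1 x
  let T : Set (X0 d) := Subtype.val '' (c ⁻¹' {k0})
  have hT : MeasurableSet T := MeasurableSet.subtype_image (Fr_meas i0 i1) (hc (measurableSet_singleton _))
  let b0 : Fin d → Bool := fun _ => false
  let B : Fin d → Set (((Fin d → ℤ) → Bool) × ((Fin d → ℤ) → Bool)) := fun i =>
    {p | ∃ b : Fin d → Bool, b i = true ∧ act i0 i1 (vec b) (p, b0) ∈ T}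
  have hB : ∀ i, MeasurableSet (B i) := by
    intro i
    have h1 : B i = ⋃ b : {b : Fin d → Bool // b i = true},
        (fun p => act i0 i1 (vec b.1) (p, b0)) ⁻¹' T := by
      ext p
      simp [B]
    rw [h1]
    apply MeasurableSet.iUnion
    intro b
    have h2 : Continuous (fun p : ((Fin d → ℤ) → Bool) × ((Fin d → ℤ) → Bool) =>
        act i0 i1 (vec b.1) (p, b0)) := (act_cont i0 i1 _).comp (continuous_id.prodMk continuous_const)
    exact h2.measurable hT
  have hBpos : ∀ i p (hpF : (p, b0) ∈ Fr i0 i1), p ∈ B i ↔ pos ⟨(p, b0), hpF⟩ i = true := by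
    intro i p hpF
    constructor
    · rintro ⟨b, hb, ⟨y, hy⟩, hy1, hy2⟩
      have h3 : c (vec b +ᵥ (⟨(p, b0), hpF⟩ : Fr i0 i1)) = k0 := by
        have : (vec b +ᵥ (⟨(p, b0), hpF⟩ : Fr i0 i1)) = ⟨y, hy⟩ := Subtype.ext hy2.symm
        rw [this]
        exact hy1
      rw [hp] at h3
      rw [← h3]
      exact hb
    · intro h
      refine ⟨_, h, ?_⟩
      refine ⟨vec (pos ⟨(p, b0), hpF⟩) +ᵥ (⟨(p, b0), hpF⟩ : Fr i0 i1), ?_, rfl⟩
      exact (hp _ _).2 rfl
  have hgen : ∀ᶠ p in residual (((Fin d → ℤ) → Bool) × ((Fin d → ℤ) → Bool)),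
      (p, b0) ∈ Fr i0 i1 := by
    have h1 : ∀ᶠ p in residual (((Fin d → ℤ) → Bool) × ((Fin d → ℤ) → Bool)), ∀ z : Fin d → ℤ,
        z ≠ 0 → ac i0 i1 z p ≠ p := by
      rw [eventually_countable_forall]
      intro z
      by_cases hz : z = 0
      · exact Eventually.of_forall fun p h => absurd hz h
      · exact (ac_ne h01 z hz).mono fun p hp _ => hp
    refine h1.mono fun p hp z hz h => hp z hz ?_
    exact congrArg Prod.fst h
  have hb0 : ∀ i, (i = i0 ∨ i = i1) → bt i0 i1 (Pi.single i 1) b0 = b0 := by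
    intro i hi
    funext j
    by_cases hj : j = i
    · subst hj
      rcases hi with h | h <;> simp [bt, h]
    · simp [bt, Pi.single_eq_of_ne hj, par_zero]
  have hstep : ∀ i, (i = i0 ∨ i = i1) → ∀ p (hpF : (p, b0) ∈ Fr i0 i1),
      ∃ hpF' : (ac i0 i1 (Pi.single i 1) p, b0) ∈ Fr i0 i1,
      (⟨(ac i0 i1 (Pi.single i 1) p, b0), hpF'⟩ : Fr (d := d) i0 i1) =
        (Pi.single i 1 : Fin d → ℤ) +ᵥ (⟨(p, b0), hpF⟩ : Fr (d := d) i0 i1) := by
    intro i hi p hpF
    have h1 : act i0 i1 (Pi.single i 1) (p, b0) = (ac i0 i1 (Pi.single i 1) p, b0) := by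
      show (ac i0 i1 (Pi.single i 1) p, bt i0 i1 (Pi.single i 1) b0) = _
      rw [hb0 i hi]
    have h2 := Fr_inv i0 i1 (Pi.single i 1) hpF
    rw [h1] at h2
    refine ⟨h2, Subtype.ext ?_⟩
    exact h1.symm
  have hA : ∀ i, (i = i0 ∨ i = i1) → ∀ᶠ p in residual _,
      (ac i0 i1 (Pi.single i 1) p ∈ B i ↔ p ∉ B i) := by
    intro i hi
    refine hgen.mono fun p hpF => ?_
    obtain ⟨hpF', heq⟩ := hstep i hi p hpF
    rw [hBpos i _ hpF', hBpos i _ hpF, heq, step2 hp]
    simp
  refine core h01 (B0 := B i0) (B1 := B i1) ?_ ?_ (hA i0 (Or.inl rfl)) (hA i1 (Or.inr rfl)) ?_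
  · have := hB i0
    rwa [BorelSpace.measurable_eq (α := ((Fin d → ℤ) → Bool) × ((Fin d → ℤ) → Bool))] at this
  · have := hB i1
    rwa [BorelSpace.measurable_eq (α := ((Fin d → ℤ) → Bool) × ((Fin d → ℤ) → Bool))] at this
  · refine hgen.mono fun p hpF hpB => ?_
    obtain ⟨hpF', heq⟩ := hstep i0 (Or.inl rfl) p hpF
    rw [hBpos i0 _ hpF] at hpB
    rw [hBpos i1 _ hpF', hBpos i1 _ hpF, heq, step3 hp _ _ _ h01.symm hpB]

end Pool.Agent.Q303.Poly
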