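import Pool.Agent.Q303.BackForth
import Pool.Agent.Q303.KU

/-! A Borel graph on the generic part of the two-sided shift, all of whose components are Rado
graphs in a generic way. -/

open Set Topology Filter MeasureTheory

namespace Pool.Agent.Q303.Rado

open Pool.Agent.Q303.KU

/-- the shift -/
def s (k : ℤ) (x : ℤ → Bool) : ℤ → Bool := fun m => x (m + k)

/-- adjacency of the `p`-th and `q`-th point of the orbit of `x` -/
def E (x : ℤ → Bool) (p q : ℤ) : Bool := xor (x (2 * q - p)) (x (2 * p - q))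

theorem E_symm (x : ℤ → Bool) (p q : ℤ) : E x p q = E x q p := Bool.xor_comm _ _

theorem E_irr (x : ℤ → Bool) (p : ℤ) : E x p p = false := by simp [E]

theorem E_s (x : ℤ → Bool) (k p q : ℤ) : E (s k x) p q = E x (p + k) (q + k) := by
  simp only [E, s]
  congr 2 <;> ring

theorem s_add (k l : ℤ) (x : ℤ → Bool) : s k (s l x) = s (k + l) x := by
  funext m
  show x (m + k + l) = x (m + (k + l))
  rw [add_assoc]

theorem s_zero (x : ℤ → Bool) : s 0 x = x := by
  funext m
  simp [s]

theorem s_cont (k : ℤ) : Continuous (s k) := continuous_pi fun m => continuous_apply (m + k)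

/-- the shift as a homeomorphism -/
def sH (k : ℤ) : (ℤ → Bool) ≃ₜ (ℤ → Bool) where
  toFun := s k
  invFun := s (-k)
  left_inv x := by rw [s_add, neg_add_cancel, s_zero]
  right_inv x := by rw [s_add, add_neg_cancel, s_zero]
  continuous_toFun := s_cont k
  continuous_invFun := s_cont (-k)

/-- one instance of the generic extension property -/
def D (F1 F2 J K : Finset ℤ) : Set (ℤ → Bool) :=
  {x | ∃ m, m ∉ F1 ∧ m ∉ F2 ∧ (∀ j ∈ J, x (j + m) = decide (j ∈ K)) ∧
    (∀ p ∈ F1, E x p m = true) ∧ ∀ p ∈ F2, E x p m = false}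

/-- the generic part -/
def X0 : Set (ℤ → Bool) := {x | ∀ F1 F2 J K : Finset ℤ, Disjoint F1 F2 → x ∈ D F1 F2 J K}

theorem bit_clopen (i : ℤ) (b : Bool) : IsClopen {x : ℤ → Bool | x i = b} :=
  (isClopen_discrete {b}).preimage (continuous_apply i)

theorem E_cont (p q : ℤ) : Continuous (fun x : ℤ → Bool => E x p q) := by
  have h1 : Continuous (fun b : Bool × Bool => xor b.1 b.2) := continuous_of_discreteTopology
  have h2 : Continuous (fun x : ℤ → Bool => (x (2 * q - p), x (2 * p - q))) :=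
    (continuous_apply (2 * q - p)).prodMk (continuous_apply (2 * p - q))
  exact h1.comp h2

theorem E_clopen (p q : ℤ) (b : Bool) : IsClopen {x : ℤ → Bool | E x p q = b} :=
  (isClopen_discrete {b}).preimage (E_cont p q)

theorem D_open (F1 F2 J K : Finset ℤ) : IsOpen (D F1 F2 J K) := by
  have e : D F1 F2 J K = ⋃ m : {m : ℤ // m ∉ F1 ∧ m ∉ F2},
      ((⋂ j ∈ J, {x : ℤ → Bool | x (j + m.1) = decide (j ∈ K)}) ∩
      ((⋂ p ∈ F1, {x : ℤ → Bool | E x p m.1 = true}) ∩
        (⋂ p ∈ F2, {x : ℤ → Bool | E x p m.1 = false}))) := by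
    ext x
    simp only [D, Set.mem_ofPred_eq, Set.mem_iUnion, Set.mem_inter_iff, Set.mem_iInter]
    constructor
    · rintro ⟨m, h1, h2, h3, h4, h5⟩
      exact ⟨⟨m, h1, h2⟩, h3, h4, h5⟩
    · rintro ⟨⟨m, h1, h2⟩, h3, h4, h5⟩
      exact ⟨m, h1, h2, h3, h4, h5⟩
  rw [e]
  apply isOpen_iUnion
  intro m
  refine IsOpen.inter ?_ (IsOpen.inter ?_ ?_)
  · exact J.finite_toSet.isOpen_biInter fun j _ => (bit_clopen _ _).isOpen
  · exact F1.finite_toSet.isOpen_biInter fun p _ => (E_clopen _ _ _).isOpen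
  · exact F2.finite_toSet.isOpen_biInter fun p _ => (E_clopen _ _ _).isOpen

theorem D_dense {F1 F2 : Finset ℤ} (h12 : Disjoint F1 F2) (J K : Finset ℤ) :
    Dense (D F1 F2 J K) := by
  classical
  rw [dense_iff_inter_open]
  rintro U hU ⟨x, hx⟩
  obtain ⟨I, t, ht, hI⟩ := isOpen_pi_iff.1 hU x hx
  let T := I ∪ J ∪ F1 ∪ F2
  let B : ℕ := T.sup Int.natAbs
  have hB : ∀ i ∈ T, i.natAbs ≤ B := fun i hi => Finset.le_sup (f := Int.natAbs) hi
  have hBI : ∀ i, B < i.natAbs → i ∉ I := fun i hi h => by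
    have := hB i (by simp [T, h]); omega
  have hBJ : ∀ i, B < i.natAbs → i ∉ J := fun i hi h => by
    have := hB i (by simp [T, h]); omega
  have hB1 : ∀ i, B < i.natAbs → i ∉ F1 := fun i hi h => by
    have := hB i (by simp [T, h]); omega
  have hB2 : ∀ i, B < i.natAbs → i ∉ F2 := fun i hi h => by
    have := hB i (by simp [T, h]); omega
  have hJB : ∀ i ∈ J, i.natAbs ≤ B := fun i hi => hB i (by simp [T, hi])
  have hFB : ∀ i, i ∈ F1 ∨ i ∈ F2 → i.natAbs ≤ B := fun i hi => hB i (by
    rcases hi with h | h <;> simp [T, h])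
  let m : ℤ := 3 * B + 1
  let x' : ℤ → Bool := fun i => if i ∈ I then x i else if i - m ∈ J then decide (i - m ∈ K) else
    decide (2 * m - i ∈ F1)
  have hx' : x' ∈ U := by
    apply hI
    intro i hi
    have hi' : i ∈ I := hi
    simp only [x', hi', if_true]
    exact (ht i hi').2
  have hE : ∀ p, p ∈ F1 ∨ p ∈ F2 → E x' p m = decide (p ∈ F1) := by
    intro p hp
    have hpB := hFB p hp
    have h1 : x' (2 * m - p) = decide (p ∈ F1) := by
      have a1 : 2 * m - p ∉ I := hBI _ (by simp only [m]; omega)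
      have a2 : 2 * m - p - m ∉ J := hBJ _ (by simp only [m]; omega)
      simp only [x', a1, a2, if_false]
      rw [show 2 * m - (2 * m - p) = p by ring]
    have h2 : x' (2 * p - m) = false := by
      have a1 : 2 * p - m ∉ I := hBI _ (by simp only [m]; omega)
      have a2 : 2 * p - m - m ∉ J := hBJ _ (by simp only [m]; omega)
      have a3 : 2 * m - (2 * p - m) ∉ F1 := hB1 _ (by simp only [m]; omega)
      simp only [x', a1, a2, a3, if_false, decide_false]
    rw [E, h1, h2, Bool.xor_false]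
  refine ⟨x', hx', m, hB1 m (by simp only [m]; omega), hB2 m (by simp only [m]; omega), ?_, ?_, ?_⟩
  · intro j hj
    have hjB := hJB j hj
    have a1 : j + m ∉ I := hBI _ (by simp only [m]; omega)
    simp only [x', a1, if_false, add_sub_cancel_right, hj, if_true]
  · intro p hp
    rw [hE p (Or.inl hp)]
    simp [hp]
  · intro p hp
    rw [hE p (Or.inr hp)]
    have : p ∉ F1 := fun h => Finset.disjoint_left.1 h12 h hp
    simp [this]

theorem X0_eq : X0 = ⋂ F : (Finset ℤ × Finset ℤ) × (Finset ℤ × Finset ℤ),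
    {x | Disjoint F.1.1 F.1.2 → x ∈ D F.1.1 F.1.2 F.2.1 F.2.2} := by
  ext x
  simp only [X0, Set.mem_ofPred_eq, Set.mem_iInter]
  constructor
  · rintro h ⟨⟨F1, F2⟩, ⟨J, K⟩⟩
    exact h F1 F2 J K
  · intro h F1 F2 J K
    exact h ⟨⟨F1, F2⟩, ⟨J, K⟩⟩

theorem X0_meas : MeasurableSet X0 := by
  rw [X0_eq]
  apply MeasurableSet.iInter
  intro F
  by_cases h : Disjoint F.1.1 F.1.2
  · have : {x | Disjoint F.1.1 F.1.2 → x ∈ D F.1.1 F.1.2 F.2.1 F.2.2} =
        D F.1.1 F.1.2 F.2.1 F.2.2 := by ext x; simp [h]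
    rw [this]
    exact (D_open _ _ _ _).measurableSet
  · have : {x | Disjoint F.1.1 F.1.2 → x ∈ D F.1.1 F.1.2 F.2.1 F.2.2} = Set.univ := by
      ext x; simp [h]
    rw [this]
    exact MeasurableSet.univ

theorem X0_res : ∀ᶠ x in residual (ℤ → Bool), x ∈ X0 := by
  have h1 : ∀ᶠ x in residual (ℤ → Bool), ∀ F : (Finset ℤ × Finset ℤ) × (Finset ℤ × Finset ℤ),
      Disjoint F.1.1 F.1.2 → x ∈ D F.1.1 F.1.2 F.2.1 F.2.2 := by
    rw [eventually_countable_forall]
    intro F
    by_cases h : Disjoint F.1.1 F.1.2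
    · have : ∀ᶠ x in residual (ℤ → Bool), x ∈ D F.1.1 F.1.2 F.2.1 F.2.2 :=
        residual_of_dense_open (D_open _ _ _ _) (D_dense h _ _)
      exact this.mono fun x hx _ => hx
    · exact Eventually.of_forall fun x h2 => absurd h2 h
  exact h1.mono fun x hx F1 F2 J K => hx ⟨⟨F1, F2⟩, ⟨J, K⟩⟩

theorem X0_s (k : ℤ) {x : ℤ → Bool} (hx : x ∈ X0) : s k x ∈ X0 := by
  intro F1 F2 J K h12
  let e : ℤ ↪ ℤ := ⟨fun i => i + k, fun a b h => by simpa using h⟩
  obtain ⟨m, h1, h2, h3, h4, h5⟩ := hx (F1.map e) (F2.map e) J K ((Finset.disjoint_map e).2 h12)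
  refine ⟨m - k, ?_, ?_, ?_, ?_, ?_⟩
  · intro h
    exact h1 (Finset.mem_map.2 ⟨m - k, h, sub_add_cancel m k⟩)
  · intro h
    exact h2 (Finset.mem_map.2 ⟨m - k, h, sub_add_cancel m k⟩)
  · intro j hj
    rw [← h3 j hj]
    show x (j + (m - k) + k) = _
    congr 1
    ring
  · intro p hp
    rw [E_s, sub_add_cancel]
    exact h4 _ (Finset.mem_map.2 ⟨p, hp, rfl⟩)
  · intro p hp
    rw [E_s, sub_add_cancel]
    exact h5 _ (Finset.mem_map.2 ⟨p, hp, rfl⟩)

theorem aper {x : ℤ → Bool} (hx : x ∈ X0) {k : ℤ} (h : s k x = x) : k = 0 := by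
  by_contra hk
  have h12 : Disjoint ({0} : Finset ℤ) {k} := by
    rw [Finset.disjoint_singleton]
    exact fun h => hk h.symm
  obtain ⟨m, _, _, _, h4, h5⟩ := hx {0} {k} ∅ ∅ h12
  have h6 := h4 0 (Finset.mem_singleton_self _)
  have h7 := h5 k (Finset.mem_singleton_self _)
  have hp : ∀ i, x (i + k) = x i := fun i => congrFun h i
  have h8 : E x k m = E x 0 m := by
    simp only [E]
    have a1 : x (2 * m - k) = x (2 * m - 0) := by
      rw [← hp (2 * m - k)]
      congr 1
      ring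
    have a2 : x (2 * k - m) = x (2 * 0 - m) := by
      rw [← hp (2 * 0 - m), ← hp (2 * 0 - m + k)]
      congr 1
      ring
    rw [a1, a2]
  rw [h8, h6] at h7
  exact absurd h7 (by simp)

theorem s_inj {x : ℤ → Bool} (hx : x ∈ X0) {k l : ℤ} (h : s k x = s l x) : k = l := by
  have h1 : s (k - l) x = x := by
    have := congrArg (s (-l)) h
    rw [s_add, s_add, neg_add_cancel, s_zero] at this
    rwa [show k - l = -l + k by ring]
  have := aper hx h1
  omega

/-- the graph on the generic part -/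
def G (x y : X0) : Prop := ∃ k : ℤ, y.1 = s k x.1 ∧ E x.1 0 k = true

theorem G_symm {x y : X0} (h : G x y) : G y x := by
  obtain ⟨k, hk, hE⟩ := h
  refine ⟨-k, ?_, ?_⟩
  · rw [hk, s_add, neg_add_cancel, s_zero]
  · rw [hk, E_s, zero_add, neg_add_cancel, E_symm]
    exact hE

theorem G_irr (x : X0) : ¬ G x x := by
  rintro ⟨k, hk, hE⟩
  have := aper x.2 hk.symm
  rw [this, E_irr] at hE
  exact absurd hE (by simp)

/-- the points of the orbit of `x` -/
def pt (x : X0) (p : ℤ) : X0 := ⟨s p x.1, X0_s p x.2⟩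

theorem pt_inj (x : X0) : Function.Injective (pt x) := fun _ _ h =>
  s_inj x.2 (congrArg Subtype.val h)

theorem G_pt (x : X0) (p q : ℤ) : G (pt x p) (pt x q) ↔ E x.1 p q = true := by
  constructor
  · rintro ⟨k, hk, hE⟩
    have hk' : s q x.1 = s (k + p) x.1 := by
      rw [← s_add]; exact hk
    have h1 := s_inj x.2 hk'
    have hE' : E (s p x.1) 0 k = true := hE
    rw [E_s, zero_add, ← h1] at hE'
    exact hE'
  · intro h
    refine ⟨q - p, ?_, ?_⟩
    · show s q x.1 = s (q - p) (s p x.1)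
      rw [s_add, sub_add_cancel]
    · show E (s p x.1) 0 (q - p) = true
      rw [E_s, zero_add, sub_add_cancel]
      exact h

theorem G_orbit {x y : X0} {p : ℤ} (h : G (pt x p) y) : ∃ q, y = pt x q := by
  obtain ⟨k, hk, _⟩ := h
  refine ⟨k + p, Subtype.ext ?_⟩
  rw [hk]
  exact s_add k p x.1

theorem G_meas : MeasurableSet {p : X0 × X0 | G p.1 p.2} := by
  have e : {p : X0 × X0 | G p.1 p.2} = ⋃ k : ℤ, {p : X0 × X0 | p.2.1 = s k p.1.1} ∩
      {p : X0 × X0 | E p.1.1 0 k = true} := by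
    ext p
    simp [G]
  rw [e]
  apply MeasurableSet.iUnion
  intro k
  apply MeasurableSet.inter
  · have h1 : Continuous (fun p : X0 × X0 => p.2.1) := continuous_subtype_val.comp continuous_snd
    have h2 : Continuous (fun p : X0 × X0 => s k p.1.1) :=
      (s_cont k).comp (continuous_subtype_val.comp continuous_fst)
    exact (isClosed_eq h1 h2).measurableSet
  · have h1 : Continuous (fun p : X0 × X0 => E p.1.1 0 k) :=
      (E_cont 0 k).comp (continuous_subtype_val.comp continuous_fst)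
    exact ((isClopen_discrete {true}).preimage h1).isOpen.measurableSet

/-- every Borel countable colouring is preserved by a nontrivial automorphism -/
theorem no_countable {I : Type*} [MeasurableSpace I] [MeasurableSingletonClass I] [Countable I]
    (c : X0 → I) (hc : Measurable c) :
    ∃ φ : Equiv.Perm X0, (∀ x y, G x y ↔ G (φ x) (φ y)) ∧ (∀ x, c (φ x) = c x) ∧
      ∃ x, φ x ≠ x := by
  classical
  let A : I → Set (ℤ → Bool) := fun i => Subtype.val '' (c ⁻¹' {i})
  have hA : ∀ i, MeasurableSet (A i) := fun i =>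
    MeasurableSet.subtype_image X0_meas (hc (measurableSet_singleton i))
  have hU : ∀ i, ∃ U : Set (ℤ → Bool), IsOpen U ∧
      ∀ᶠ x in residual (ℤ → Bool), (x ∈ A i) = (x ∈ U) := by
    intro i
    obtain ⟨U, hU, hSU⟩ := (hA i).residualEq_isOpen
    exact ⟨U, hU, hSU⟩
  choose U hUo hUr using hU
  have h1 : ∀ᶠ x in residual (ℤ → Bool), ∀ (i : I) (k : ℤ), (s k x ∈ A i) = (s k x ∈ U i) := by
    rw [eventually_countable_forall]
    intro i
    rw [eventually_countable_forall]
    intro k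
    exact res_pre (sH k).continuous (sH k).isOpenMap (hUr i)
  obtain ⟨x, _, hx, hxU⟩ := exists_of_res (X0_res.and h1) isOpen_univ ⟨fun _ => true, trivial⟩
  let x0 : X0 := ⟨x, hx⟩
  let col : ℤ → I := fun k => c (pt x0 k)
  have hcol : ∀ k i, col k = i ↔ s k x ∈ U i := by
    intro k i
    have h2 := hxU i k
    rw [← h2]
    constructor
    · intro h
      exact ⟨pt x0 k, h, rfl⟩
    · rintro ⟨y, hy, hyx⟩
      have : y = pt x0 k := Subtype.ext hyx
      show c (pt x0 k) = i
      rw [← this]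
      exact hy
  have hext : BF.Ext (fun p q => E x p q = true) col := by
    intro F1 F2 z h12
    have h2 : s z x ∈ U (col z) := (hcol z _).1 rfl
    obtain ⟨J, t, ht, hJ⟩ := isOpen_pi_iff.1 (hUo (col z)) _ h2
    obtain ⟨m, hm1, hm2, hm3, hm4, hm5⟩ := hx F1 F2 J (J.filter fun j => s z x j = true) h12
    refine ⟨m, hm1, hm2, ?_, hm4, ?_⟩
    · rw [hcol]
      apply hJ
      intro j hj
      have hj' : j ∈ J := hj
      have h3 : s m x j = s z x j := by
        have := hm3 j hj'
        show x (j + m) = _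
        rw [this]
        simp [hj']
      rw [h3]
      exact (ht j hj').2
    · intro p hp h
      rw [hm5 p hp] at h
      exact absurd h (by simp)
  obtain ⟨b, _, hb, hcb, _, _⟩ := hext ∅ {0} 0 (Finset.disjoint_empty_left _)
  have hb0 : b ≠ 0 := fun h => hb (Finset.mem_singleton.2 h)
  obtain ⟨π, hπ1, hπ2, hπ3⟩ := BF.back_forth (adj := fun p q => E x p q = true) (col := col) hext
    (fun a h => by rw [E_irr] at h; exact absurd h (by simp))
    (fun a b h => by rw [E_symm]; exact h) hcb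
  let o : ℤ ↪ X0 := ⟨pt x0, pt_inj x0⟩
  have hin : ∀ p, (π.viaEmbedding o) (pt x0 p) = pt x0 (π p) := fun p =>
    Equiv.Perm.viaEmbedding_apply π o p
  have hout : ∀ y, (¬ ∃ p, y = pt x0 p) → (π.viaEmbedding o) y = y := by
    intro y hy
    apply Equiv.Perm.viaEmbedding_apply_of_notMem
    rintro ⟨p, hp⟩
    exact hy ⟨p, hp.symm⟩
  refine ⟨π.viaEmbedding o, ?_, ?_, pt x0 0, ?_⟩
  · intro y z
    by_cases hy : ∃ p, y = pt x0 p
    · obtain ⟨p, rfl⟩ := hy
      by_cases hz : ∃ q, z = pt x0 q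
      · obtain ⟨q, rfl⟩ := hz
        rw [hin, hin, G_pt, G_pt]
        exact hπ3 p q
      · rw [hin, hout z hz]
        constructor
        · intro h
          exact absurd (G_orbit h) hz
        · intro h
          exact absurd (G_orbit h) hz
    · by_cases hz : ∃ q, z = pt x0 q
      · obtain ⟨q, rfl⟩ := hz
        rw [hin, hout y hy]
        constructor
        · intro h
          exact absurd (G_orbit (G_symm h)) hy
        · intro h
          exact absurd (G_orbit (G_symm h)) hy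
      · rw [hout y hy, hout z hz]
  · intro y
    by_cases hy : ∃ p, y = pt x0 p
    · obtain ⟨p, rfl⟩ := hy
      rw [hin]
      exact hπ2 p
    · rw [hout y hy]
  · rw [hin, hπ1]
    intro h
    exact hb0 (pt_inj x0 h)

end Pool.Agent.Q303.Rado
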