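import Pool.Agent.Q303.Rado

/-! A distinguishing colouring with four colours, using choice. -/

open Set Topology Filter MeasureTheory

namespace Pool.Agent.Q303.Rado

/-- an induced ray whose neighbourhoods separate the other vertices -/
theorem ray {x : ℤ → Bool} (hx : x ∈ X0) : ∃ S : ℕ → ℤ, Function.Injective S ∧
    (∀ n, E x (S n) (S (n + 1)) = true) ∧ (∀ m n, m + 1 < n → E x (S m) (S n) = false) ∧
    ∀ v w, v ≠ w → v ∉ range S → w ∉ range S → ∃ n, E x (S n) v ≠ E x (S n) w := by
  classical
  obtain ⟨en, hen⟩ := exists_surjective_nat (ℤ × ℤ)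
  let St := {l : List ℤ // l.Nodup ∧ l ≠ []}
  have hnext : ∀ (n : ℕ) (l : St), ∃ m, m ∉ l.1 ∧
      (∀ a t, l.1 = a :: t → E x a m = true ∧ ∀ b ∈ t, E x b m = false) ∧
      ((en n).1 ≠ (en n).2 → (en n).1 ∉ l.1 → (en n).2 ∉ l.1 →
        E x (en n).1 m = true ∧ E x (en n).2 m = false) := by
    rintro n ⟨l, hl, hne⟩
    obtain ⟨a, t, rfl⟩ : ∃ a t, l = a :: t := by
      cases l with
      | nil => exact absurd rfl hne
      | cons a t => exact ⟨a, t, rfl⟩
    have hat : a ∉ t := (List.nodup_cons.1 hl).1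
    by_cases hp : (en n).1 ≠ (en n).2 ∧ (en n).1 ∉ a :: t ∧ (en n).2 ∉ a :: t
    · obtain ⟨hp1, hp2, hp3⟩ := hp
      rw [List.mem_cons, not_or] at hp2 hp3
      have hd : Disjoint ({a, (en n).1} : Finset ℤ) (insert (en n).2 t.toFinset) := by
        rw [Finset.disjoint_left]
        intro b hb hb2
        rw [Finset.mem_insert, Finset.mem_singleton] at hb
        rw [Finset.mem_insert, List.mem_toFinset] at hb2
        rcases hb with rfl | rfl
        · rcases hb2 with h | h
          · exact hp3.1 h.symm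
          · exact hat h
        · rcases hb2 with h | h
          · exact hp1 h
          · exact hp2.2 h
      obtain ⟨m, h1, h2, _, h4, h5⟩ := hx _ _ ∅ ∅ hd
      refine ⟨m, ?_, ?_, ?_⟩
      · rintro h
        rcases List.mem_cons.1 h with h | h
        · exact h1 (by simp [h])
        · exact h2 (by simp [h])
      · intro b u hbu
        have hb1 : b = a := (List.cons.inj hbu).1.symm
        have hb2 : u = t := (List.cons.inj hbu).2.symm
        subst hb1
        subst hb2
        exact ⟨h4 b (by simp), fun q hq => h5 q (by simp [hq])⟩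
      · intro _ _ _
        exact ⟨h4 _ (by simp), h5 _ (by simp)⟩
    · have hd : Disjoint ({a} : Finset ℤ) t.toFinset := by
        rw [Finset.disjoint_singleton_left, List.mem_toFinset]
        exact hat
      obtain ⟨m, h1, h2, _, h4, h5⟩ := hx _ _ ∅ ∅ hd
      refine ⟨m, ?_, ?_, ?_⟩
      · rintro h
        rcases List.mem_cons.1 h with h | h
        · exact h1 (by simp [h])
        · exact h2 (by simp [h])
      · intro b u hbu
        have hb1 : b = a := (List.cons.inj hbu).1.symm
        have hb2 : u = t := (List.cons.inj hbu).2.symm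
        subst hb1
        subst hb2
        exact ⟨h4 b (by simp), fun q hq => h5 q (by simp [hq])⟩
      · intro q1 q2 q3
        exact absurd ⟨q1, q2, q3⟩ hp
  choose nx h1 h2 h3 using hnext
  let L : ℕ → St := fun n => Nat.rec ⟨[0], by simp, by simp⟩
    (fun n l => ⟨nx n l :: l.1, List.nodup_cons.2 ⟨h1 n l, l.2.1⟩, by simp⟩) n
  have hL : ∀ n, (L (n + 1)).1 = nx n (L n) :: (L n).1 := fun n => rfl
  let S : ℕ → ℤ := fun n => Nat.casesOn n 0 fun n => nx n (L n)
  have hS : ∀ n, S (n + 1) = nx n (L n) := fun n => rfl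
  have hLS : ∀ n, ∃ t, (L n).1 = S n :: t ∧ ∀ b, b ∈ t ↔ ∃ i < n, S i = b := by
    intro n
    induction n with
    | zero => exact ⟨[], rfl, fun b => by simp⟩
    | succ n ih =>
      obtain ⟨t, ht1, ht2⟩ := ih
      refine ⟨(L n).1, by rw [hL, hS], fun b => ?_⟩
      rw [ht1, List.mem_cons, ht2]
      constructor
      · rintro (rfl | ⟨i, hi, rfl⟩)
        · exact ⟨n, by omega, rfl⟩
        · exact ⟨i, by omega, rfl⟩
      · rintro ⟨i, hi, rfl⟩
        rcases Nat.lt_succ_iff_lt_or_eq.1 hi with h | h
        · exact Or.inr ⟨i, h, rfl⟩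
        · left; rw [h]
  have hmem : ∀ n b, b ∈ (L n).1 ↔ ∃ i ≤ n, S i = b := by
    intro n b
    obtain ⟨t, ht1, ht2⟩ := hLS n
    rw [ht1, List.mem_cons, ht2]
    constructor
    · rintro (rfl | ⟨i, hi, rfl⟩)
      · exact ⟨n, le_rfl, rfl⟩
      · exact ⟨i, hi.le, rfl⟩
    · rintro ⟨i, hi, rfl⟩
      rcases hi.lt_or_eq with h | h
      · exact Or.inr ⟨i, h, rfl⟩
      · left; rw [h]
  have hne : ∀ i n, i ≤ n → S i ≠ S (n + 1) := by
    intro i n hi h
    apply h1 n (L n)
    rw [← hS, hmem]
    exact ⟨i, hi, h⟩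
  refine ⟨S, ?_, ?_, ?_, ?_⟩
  · intro i j hij
    rcases lt_trichotomy i j with h | h | h
    · obtain ⟨n, rfl⟩ : ∃ n, j = n + 1 := ⟨j - 1, by omega⟩
      exact absurd hij (hne i n (by omega))
    · exact h
    · obtain ⟨n, rfl⟩ : ∃ n, i = n + 1 := ⟨i - 1, by omega⟩
      exact absurd hij.symm (hne j n (by omega))
  · intro n
    obtain ⟨t, ht1, ht2⟩ := hLS n
    exact (h2 n (L n) _ _ ht1).1
  · intro m n hmn
    obtain ⟨k, rfl⟩ : ∃ k, n = k + 1 := ⟨n - 1, by omega⟩
    obtain ⟨t, ht1, ht2⟩ := hLS k
    exact (h2 k (L k) _ _ ht1).2 _ ((ht2 _).2 ⟨m, by omega, rfl⟩)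
  · intro v w hvw hv hw
    obtain ⟨n, hn⟩ := hen (v, w)
    have h4 := h3 n (L n) (by rw [hn]; exact hvw)
      (by rw [hn, hmem]; rintro ⟨i, _, hi⟩; exact hv ⟨i, hi⟩)
      (by rw [hn, hmem]; rintro ⟨i, _, hi⟩; exact hw ⟨i, hi⟩)
    rw [hn] at h4
    refine ⟨n + 1, ?_⟩
    rw [hS, E_symm x _ v, E_symm x _ w, h4.1, h4.2]
    simp

/-- orbit equivalence -/
def orb : Setoid X0 where
  r x y := ∃ k, y = pt x k
  iseqv := {
    refl := fun x => ⟨0, Subtype.ext (s_zero x.1).symm⟩
    symm := by
      rintro x y ⟨k, rfl⟩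
      refine ⟨-k, Subtype.ext ?_⟩
      show x.1 = s (-k) (s k x.1)
      rw [s_add, neg_add_cancel, s_zero]
    trans := by
      rintro x y z ⟨k, rfl⟩ ⟨l, rfl⟩
      exact ⟨l + k, Subtype.ext (s_add l k x.1)⟩ }

/-- there is a distinguishing colouring with four colours -/
theorem dist4 : ∃ c : X0 → Fin 4, ∀ φ : Equiv.Perm X0, (∀ x y, G x y ↔ G (φ x) (φ y)) →
    (∀ x, c (φ x) = c x) → ∀ x, φ x = x := by
  classical
  choose S hS1 hS2 hS3 hS4 using fun x : X0 => ray x.2
  let rep : X0 → X0 := fun y => (Quotient.mk orb y).out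
  have hrep : ∀ y, ∃ k, y = pt (rep y) k := fun y => Quotient.exact (Quotient.out_eq (Quotient.mk orb y))
  choose kk hkk using hrep
  have hrep2 : ∀ x p, rep (pt x p) = rep x := by
    intro x p
    have : Quotient.mk orb (pt x p) = Quotient.mk orb x :=
      Quotient.sound (orb.symm ⟨p, rfl⟩)
    show (Quotient.mk orb (pt x p)).out = (Quotient.mk orb x).out
    rw [this]
  let enc : ℕ ≃ ℤ := (Denumerable.eqv ℤ).symm
  let c : X0 → Fin 4 := fun y =>
    if kk y = S (rep y) 0 then 3 else
    if h : ∃ n, kk y = S (rep y) (n + 1) then (if (rep y).1 (enc h.choose) then 1 else 0) else 2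
  have hkkp : ∀ x, rep x = x → ∀ p, kk (pt x p) = p := by
    intro x hx p
    have h1 := hkk (pt x p)
    rw [hrep2, hx] at h1
    exact (pt_inj x h1).symm
  have hc0 : ∀ x, rep x = x → c (pt x (S x 0)) = 3 := by
    intro x hx
    simp only [c, hrep2, hx, hkkp x hx, if_true]
  have hc1 : ∀ x, rep x = x → ∀ n, c (pt x (S x (n + 1))) = if x.1 (enc n) then 1 else 0 := by
    intro x hx n
    have h0 : S x (n + 1) ≠ S x 0 := fun h => absurd (hS1 x h) (by omega)
    have h1 : ∃ m, S x (n + 1) = S x (m + 1) := ⟨n, rfl⟩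
    have h2 : h1.choose = n := by
      have := hS1 x h1.choose_spec
      omega
    simp only [c, hrep2, hx, hkkp x hx, h0, if_false]
    rw [dif_pos h1, h2]
  have hc2 : ∀ x, rep x = x → ∀ p, p ∉ range (S x) → c (pt x p) = 2 := by
    intro x hx p hp
    have h0 : p ≠ S x 0 := fun h => hp ⟨0, h.symm⟩
    have h1 : ¬ ∃ m, p = S x (m + 1) := by
      rintro ⟨m, hm⟩
      exact hp ⟨m + 1, hm.symm⟩
    simp only [c, hrep2, hx, hkkp x hx, h0, if_false]
    rw [dif_neg h1]
  have hc3 : ∀ x, rep x = x → ∀ p, c (pt x p) = 3 → p = S x 0 := by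
    intro x hx p hp
    by_cases h : p ∈ range (S x)
    · obtain ⟨n, rfl⟩ := h
      cases n with
      | zero => rfl
      | succ n =>
        rw [hc1 x hx] at hp
        split_ifs at hp <;> exact absurd hp (by decide)
    · rw [hc2 x hx p h] at hp
      exact absurd hp (by decide)
  refine ⟨c, fun φ hφ hcφ => ?_⟩
  -- the automorphism fixes the ray of every component
  have hray : ∀ x, rep x = x → ∀ n, φ (pt x (S x n)) = pt x (S x n) := by
    intro x hx
    obtain ⟨x', hx', hx0⟩ : ∃ x', rep x' = x' ∧ φ (pt x (S x 0)) = pt x' (S x' 0) := by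
      refine ⟨rep (φ (pt x (S x 0))), ?_, ?_⟩
      · have h1 := hkk (φ (pt x (S x 0)))
        have h2 := congrArg rep h1
        rw [hrep2] at h2
        exact h2.symm
      · have h1 := hkk (φ (pt x (S x 0)))
        have h2 : rep (rep (φ (pt x (S x 0)))) = rep (φ (pt x (S x 0))) := by
          have h2 := congrArg rep h1
          rw [hrep2] at h2
          exact h2.symm
        have h3 := hcφ (pt x (S x 0))
        rw [hc0 x hx, h1] at h3
        have h4 := hc3 _ h2 _ h3
        rw [← h4]
        exact h1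
    have hind : ∀ n, ∀ i ≤ n, φ (pt x (S x i)) = pt x' (S x' i) := by
      intro n
      induction n with
      | zero =>
        intro i hi
        have : i = 0 := by omega
        rw [this]
        exact hx0
      | succ n ih =>
        intro i hi
        rcases Nat.lt_or_eq_of_le hi with h | h
        · exact ih i (by omega)
        · subst h
          have h1 : G (pt x (S x n)) (pt x (S x (n + 1))) := (G_pt _ _ _).2 (hS2 x n)
          rw [hφ, ih n le_rfl] at h1
          obtain ⟨q, hq⟩ := G_orbit h1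
          rw [hq, G_pt] at h1
          have h2 := hcφ (pt x (S x (n + 1)))
          rw [hc1 x hx, hq] at h2
          have hq2 : q ∈ range (S x') := by
            by_contra hcon
            rw [hc2 x' hx' q hcon] at h2
            split_ifs at h2 <;> exact absurd h2 (by decide)
          obtain ⟨m, rfl⟩ := hq2
          cases m with
          | zero =>
            rw [hc0 x' hx'] at h2
            split_ifs at h2 <;> exact absurd h2 (by decide)
          | succ m =>
            have hm1 : ¬ (n + 1 < m + 1) := fun h => by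
              rw [hS3 x' n (m + 1) h] at h1; exact absurd h1 (by simp)
            have hm2 : ¬ (m + 1 + 1 < n) := fun h => by
              rw [E_symm, hS3 x' (m + 1) n h] at h1; exact absurd h1 (by simp)
            have hm3 : n ≠ m + 1 := fun h => by
              rw [h, E_irr] at h1; exact absurd h1 (by simp)
            have hm4 : m + 1 + 1 ≠ n := fun h => by
              have h5 := ih (m + 1) (by omega)
              rw [← hq] at h5
              have h6 := hS1 x (pt_inj x (φ.injective h5))
              omega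
            have : m = n := by omega
            rw [hq, this]
    have hxx : x = x' := by
      apply Subtype.ext
      funext i
      obtain ⟨n, rfl⟩ := enc.surjective i
      have h1 := hcφ (pt x (S x (n + 1)))
      rw [hind (n + 1) (n + 1) le_rfl, hc1 x' hx', hc1 x hx] at h1
      cases ha : x.1 (enc n) <;> cases hb : x'.1 (enc n)
      · rfl
      · rw [ha, hb] at h1
        exact absurd h1 (by decide)
      · rw [ha, hb] at h1
        exact absurd h1 (by decide)
      · rfl
    intro n
    have := hind n n le_rfl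
    rw [← hxx] at this
    exact this
  intro y
  have hrr : rep (rep y) = rep y := by
    have h2 := congrArg rep (hkk y)
    rw [hrep2] at h2
    exact h2.symm
  rw [hkk y]
  set x := rep y with hxdef
  set p := kk y with hpdef
  by_cases hp : p ∈ range (S x)
  · obtain ⟨n, hn⟩ := hp
    rw [← hn]
    exact hray x hrr n
  · obtain ⟨m, _, _, _, h4, _⟩ := x.2 {p, S x 0} ∅ ∅ ∅ (Finset.disjoint_empty_right _)
    have h5 : G (pt x p) (pt x m) := (G_pt _ _ _).2 (h4 p (by simp))
    have h6 : G (pt x (S x 0)) (pt x m) := (G_pt _ _ _).2 (h4 (S x 0) (by simp))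
    rw [hφ] at h5 h6
    rw [hray x hrr 0] at h6
    obtain ⟨m', hm'⟩ := G_orbit h6
    rw [hm'] at h5
    obtain ⟨q, hq⟩ := G_orbit (G_symm h5)
    have hcq := hcφ (pt x p)
    rw [hc2 x hrr p hp, hq] at hcq
    have hqr : q ∉ range (S x) := by
      rintro ⟨n, rfl⟩
      cases n with
      | zero => rw [hc0 x hrr] at hcq; exact absurd hcq (by decide)
      | succ n =>
        rw [hc1 x hrr] at hcq
        split_ifs at hcq <;> exact absurd hcq (by decide)
    by_cases hqp : p = q
    · rw [hq, hqp]
    · exfalso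
      obtain ⟨n, hn⟩ := hS4 x p q hqp hp hqr
      apply hn
      have h7 : G (pt x (S x n)) (pt x p) ↔ G (pt x (S x n)) (pt x q) := by
        rw [hφ, hray x hrr n, hq]
      rw [G_pt, G_pt] at h7
      exact Bool.eq_iff_iff.2 h7

end Pool.Agent.Q303.Rado
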