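import Mathlib

/-! A canonical homeomorphism from a perfect closed subset of Cantor space onto Cantor space,
depending in a Borel way on the closed set. -/

open Set Topology Filter MeasureTheory

namespace Pool.Agent.Q303.Split

/-- `n` is a splitting level of `x` in `K` -/
def Sp (K : Set (ℕ → Bool)) (x : ℕ → Bool) (n : ℕ) : Prop :=
  ∃ y ∈ K, (∀ i < n, y i = x i) ∧ y n ≠ x n

/-- perfectness -/
def Perf (K : Set (ℕ → Bool)) : Prop :=
  ∀ x ∈ K, ∀ n : ℕ, ∃ y ∈ K, (∀ i < n, y i = x i) ∧ y ≠ x

/-- the values at the splitting levels -/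
noncomputable def phi (K : Set (ℕ → Bool)) (x : ℕ → Bool) (k : ℕ) : Bool :=
  x (Nat.nth (Sp K x) k)

theorem Sp_congr {K : Set (ℕ → Bool)} {x y : ℕ → Bool} {n : ℕ} (h : ∀ i ≤ n, x i = y i) :
    Sp K x n ↔ Sp K y n := by
  constructor
  · rintro ⟨w, hw, h1, h2⟩
    exact ⟨w, hw, fun i hi => (h1 i hi).trans (h i hi.le), fun h3 => h2 (h3.trans (h n le_rfl).symm)⟩
  · rintro ⟨w, hw, h1, h2⟩
    exact ⟨w, hw, fun i hi => (h1 i hi).trans (h i hi.le).symm, fun h3 => h2 (h3.trans (h n le_rfl))⟩

theorem count_congr {p q : ℕ → Prop} [DecidablePred p] [DecidablePred q] {n : ℕ}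
    (h : ∀ i < n, (p i ↔ q i)) : Nat.count p n = Nat.count q n := by
  induction n with
  | zero => simp
  | succ n ih =>
    rw [Nat.count_succ, Nat.count_succ, ih fun i hi => h i (by omega)]
    simp only [h n (by omega)]

theorem Sp_inf {K : Set (ℕ → Bool)} (hK : Perf K) {x : ℕ → Bool} (hx : x ∈ K) :
    (Set.ofPred (Sp K x)).Infinite := by
  classical
  rw [Set.infinite_iff_exists_gt]
  intro n
  obtain ⟨y, hy, hy1, hy2⟩ := hK x hx (n + 1)
  have hne : ∃ m, y m ≠ x m := by
    by_contra h
    push Not at h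
    exact hy2 (funext h)
  refine ⟨Nat.find hne, ⟨y, hy, ?_, Nat.find_spec hne⟩, ?_⟩
  · intro i hi
    by_contra h
    exact Nat.find_min hne hi h
  · by_contra h
    push Not at h
    exact Nat.find_spec hne (hy1 _ (by omega))

theorem phi_congr {K : Set (ℕ → Bool)} (hK : Perf K) {x : ℕ → Bool} (hx : x ∈ K)
    (k : ℕ) {y : ℕ → Bool} (h : ∀ i ≤ Nat.nth (Sp K x) k, y i = x i) : phi K y k = phi K x k := by
  classical
  have h1 : Sp K x (Nat.nth (Sp K x) k) := Nat.nth_mem_of_infinite (Sp_inf hK hx) k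
  have h2 : Sp K y (Nat.nth (Sp K x) k) := (Sp_congr h).2 h1
  have h3 : Nat.count (Sp K y) (Nat.nth (Sp K x) k) = k := by
    rw [count_congr (q := Sp K x) fun i hi => Sp_congr fun j hj => h j (by omega)]
    exact Nat.count_nth_of_infinite (Sp_inf hK hx) k
  have h4 := Nat.nth_count h2
  rw [h3] at h4
  rw [phi, phi, h4, h _ le_rfl]

theorem phi_inj {K : Set (ℕ → Bool)} {x y : ℕ → Bool} (hx : x ∈ K) (hy : y ∈ K)
    (h : phi K x = phi K y) : x = y := by
  classical
  by_contra hne
  have hne' : ∃ m, x m ≠ y m := by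
    by_contra h
    push Not at h
    exact hne (funext h)
  have hmin : ∀ i < Nat.find hne', x i = y i := by
    intro i hi
    by_contra h
    exact Nat.find_min hne' hi h
  have hsp := Nat.find_spec hne'
  set n := Nat.find hne' with hn
  have h1 : Sp K x n := ⟨y, hy, fun i hi => (hmin i hi).symm, fun h => hsp h.symm⟩
  have h2 : Sp K y n := ⟨x, hx, fun i hi => hmin i hi, fun h => hsp h⟩
  have h3 : Nat.count (Sp K x) n = Nat.count (Sp K y) n :=
    count_congr fun i hi => Sp_congr fun j hj => hmin j (by omega)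
  have h4 := congrFun h (Nat.count (Sp K x) n)
  rw [phi, phi, Nat.nth_count h1, h3, Nat.nth_count h2] at h4
  exact hsp h4

theorem phi_dense {K : Set (ℕ → Bool)} (hne : K.Nonempty) (hK : Perf K) (b : ℕ → Bool) (k : ℕ) :
    ∃ x ∈ K, ∀ j < k, phi K x j = b j := by
  classical
  induction k with
  | zero =>
    obtain ⟨x, hx⟩ := hne
    exact ⟨x, hx, fun j hj => absurd hj (by omega)⟩
  | succ k ih =>
    obtain ⟨x, hx, h⟩ := ih
    by_cases hb : phi K x k = b k
    · refine ⟨x, hx, fun j hj => ?_⟩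
      rcases Nat.lt_succ_iff_lt_or_eq.1 hj with h1 | h1
      · exact h j h1
      · rw [h1]; exact hb
    · set n := Nat.nth (Sp K x) k with hn
      have h1 : Sp K x n := Nat.nth_mem_of_infinite (Sp_inf hK hx) k
      obtain ⟨y, hy, hy1, hy2⟩ := h1
      refine ⟨y, hy, fun j hj => ?_⟩
      rcases Nat.lt_succ_iff_lt_or_eq.1 hj with h1 | h1
      · rw [← h j h1]
        apply phi_congr hK hx
        intro i hi
        apply hy1
        exact lt_of_le_of_lt hi (Nat.nth_strictMono (Sp_inf hK hx) h1)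
      · rw [h1]
        have h2 : Sp K y n := ⟨x, hx, fun i hi => (hy1 i hi).symm, fun h => hy2 h.symm⟩
        have h3 : Nat.count (Sp K y) n = k := by
          rw [count_congr (q := Sp K x) fun i hi => Sp_congr fun j hj => hy1 j (by omega)]
          exact Nat.count_nth_of_infinite (Sp_inf hK hx) k
        have h4 := Nat.nth_count h2
        rw [h3] at h4
        rw [phi, h4]
        have h5 : phi K x k = x n := rfl
        rw [h5] at hb
        cases hx' : x n <;> cases hy' : y n <;> cases hb' : b k <;> simp_all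

theorem phi_cont {K : Set (ℕ → Bool)} (hK : Perf K) :
    Continuous (fun x : K => phi K x.1) := by
  apply continuous_pi
  intro k
  rw [continuous_iff_continuousAt]
  intro x
  rw [ContinuousAt, nhds_discrete Bool, tendsto_pure]
  have h1 : ∀ᶠ y : K in 𝓝 x, ∀ i ∈ Finset.range (Nat.nth (Sp K x.1) k + 1), y.1 i = x.1 i := by
    rw [Finset.eventually_all]
    intro i _
    have h2 : Continuous (fun y : K => y.1 i) := (continuous_apply i).comp continuous_subtype_val
    have h3 := h2.continuousAt (x := x)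
    rw [ContinuousAt, nhds_discrete Bool, tendsto_pure] at h3
    exact h3
  refine h1.mono fun y hy => ?_
  exact phi_congr hK x.2 k fun i hi => hy i (Finset.mem_range.2 (by omega))

theorem phi_surj {K : Set (ℕ → Bool)} (hc : IsClosed K) (hne : K.Nonempty) (hK : Perf K) :
    Function.Surjective (fun x : K => phi K x.1) := by
  have hcomp : CompactSpace K := isCompact_iff_compactSpace.1 hc.isCompact
  have h1 : IsClosed (range (fun x : K => phi K x.1)) :=
    (isCompact_range (phi_cont hK)).isClosed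
  have h2 : Dense (range (fun x : K => phi K x.1)) := by
    rw [dense_iff_inter_open]
    rintro U hU ⟨b, hb⟩
    obtain ⟨I, t, ht, hI⟩ := isOpen_pi_iff.1 hU b hb
    obtain ⟨k, hk⟩ := I.bddAbove
    obtain ⟨x, hx, h⟩ := phi_dense hne hK b (k + 1)
    refine ⟨phi K x, hI ?_, ⟨x, hx⟩, rfl⟩
    intro i hi
    rw [h i (Nat.lt_succ_of_le (hk hi))]
    exact (ht i hi).2
  have h3 := h1.closure_eq.symm.trans h2.closure_eq
  intro b
  have : b ∈ range (fun x : K => phi K x.1) := by rw [h3]; trivial
  exact this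

/-- the canonical homeomorphism -/
noncomputable def homeo {K : Set (ℕ → Bool)} (hc : IsClosed K) (hne : K.Nonempty) (hK : Perf K) :
    K ≃ₜ (ℕ → Bool) :=
  haveI : CompactSpace K := isCompact_iff_compactSpace.1 hc.isCompact
  Continuous.homeoOfEquivCompactToT2 (f := Equiv.ofBijective (fun x : K => phi K x.1)
    ⟨fun x y h => Subtype.ext (phi_inj x.2 y.2 h), phi_surj hc hne hK⟩) (phi_cont hK)

theorem homeo_apply {K : Set (ℕ → Bool)} (hc : IsClosed K) (hne : K.Nonempty) (hK : Perf K)
    (x : K) : homeo hc hne hK x = phi K x.1 := rfl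

end Pool.Agent.Q303.Split
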