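import Pool.Agent.Q303.Param

/-! The subshift coding a graph. -/

open Set Topology Filter MeasureTheory

namespace Pool.Agent.Q303.Sub

/-- symbols: at most one bit is on; no bit on is the point at infinity -/
abbrev Sy := Option ℕ → Bool

/-- sequences of symbols -/
abbrev Y := ℤ → Sy

def star : Sy := fun i => decide (i = none)

def vt (v : ℕ) : Sy := fun i => decide (i = some v)

def inf : Sy := fun _ => false

/-- the subshift coding the binary relation `A` -/
structure X (A : ℕ → ℕ → Bool) (x : Y) : Prop where
  c1 : ∀ n i j, x n i = true → x n j = true → i = j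
  c2 : ∀ n i j, i ≠ j → x n (some i) = true → x (n + 1) (some j) = true → A i j = true
  c3 : ∀ m n : ℤ, m < n → (∀ k, m ≤ k → k ≤ n + 1 → x k none = false) →
    x m = x (m + 1) ∨ x n = x (n + 1)
  c4 : ∀ (n : ℤ) (l : ℕ), x n none = true → (∀ k, n - l ≤ k → k < n → x k none = false) →
    ∀ k, n ≤ k → k < n + l → x k none = true
  c5 : ∀ (n : ℤ) (l : ℕ), x n none = true → (∀ k, n < k → k ≤ n + l → x k none = false) →
    ∀ k, n - l < k → k ≤ n → x k none = true

/-- gluing two windows -/
def glue (x x' : Y) (N M : ℤ) : Y := fun k =>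
  if -N ≤ k ∧ k ≤ N then x k else if -N ≤ k - M ∧ k - M ≤ N then x' (k - M) else star

theorem glue_l {x x' : Y} {N M k : ℤ} (h1 : -N ≤ k) (h2 : k ≤ N) : glue x x' N M k = x k := by
  simp [glue, h1, h2]

theorem glue_r {x x' : Y} {N M k : ℤ} (hM : 2 * N < M) (h1 : -N ≤ k - M) (h2 : k - M ≤ N) :
    glue x x' N M k = x' (k - M) := by
  have : ¬ (-N ≤ k ∧ k ≤ N) := by omega
  simp only [glue, this, if_false]
  rw [if_pos ⟨h1, h2⟩]

theorem glue_s {x x' : Y} {N M k : ℤ} (h1 : ¬ (-N ≤ k ∧ k ≤ N))
    (h2 : ¬ (-N ≤ k - M ∧ k - M ≤ N)) : glue x x' N M k = star := by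
  simp only [glue, h1, h2, if_false]

theorem glue_cases (x x' : Y) {N M : ℤ} (hM : 2 * N < M) (k : ℤ) :
    ((-N ≤ k ∧ k ≤ N) ∧ glue x x' N M k = x k) ∨
    ((-N ≤ k - M ∧ k - M ≤ N) ∧ glue x x' N M k = x' (k - M)) ∨
    ((¬ (-N ≤ k ∧ k ≤ N) ∧ ¬ (-N ≤ k - M ∧ k - M ≤ N)) ∧ glue x x' N M k = star) := by
  by_cases h1 : -N ≤ k ∧ k ≤ N
  · exact Or.inl ⟨h1, glue_l h1.1 h1.2⟩
  · by_cases h2 : -N ≤ k - M ∧ k - M ≤ N
    · exact Or.inr (Or.inl ⟨h2, glue_r hM h2.1 h2.2⟩)
    · exact Or.inr (Or.inr ⟨⟨h1, h2⟩, glue_s h1 h2⟩)

theorem star_none : star none = true := by simp [star]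

theorem star_some (i : ℕ) : star (some i) = false := by simp [star]

theorem glue_mem {A : ℕ → ℕ → Bool} {x x' : Y} (hx : X A x) (hx' : X A x') {N M : ℤ}
    (hN : 0 ≤ N) (hM : 4 * N + 2 ≤ M) : X A (glue x x' N M) := by
  have hM2 : 2 * N < M := by omega
  have gc := glue_cases x x' hM2
  constructor
  · intro n i j hi hj
    rcases gc n with ⟨_, h⟩ | ⟨_, h⟩ | ⟨_, h⟩
    · rw [h] at hi hj; exact hx.c1 n i j hi hj
    · rw [h] at hi hj; exact hx'.c1 _ i j hi hj
    · rw [h] at hi hj
      simp only [star, decide_eq_true_eq] at hi hj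
      rw [hi, hj]
  · intro n i j hij hi hj
    rcases gc n with ⟨h1, h⟩ | ⟨h1, h⟩ | ⟨h1, h⟩
    · rcases gc (n + 1) with ⟨h1', h'⟩ | ⟨h1', h'⟩ | ⟨h1', h'⟩
      · rw [h] at hi
        rw [h'] at hj
        exact hx.c2 n i j hij hi hj
      · omega
      · rw [h', star_some] at hj
        exact absurd hj (by simp)
    · rcases gc (n + 1) with ⟨h1', h'⟩ | ⟨h1', h'⟩ | ⟨h1', h'⟩
      · omega
      · rw [h] at hi
        rw [h', show n + 1 - M = n - M + 1 by ring] at hj
        exact hx'.c2 _ i j hij hi hj
      · rw [h', star_some] at hj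
        exact absurd hj (by simp)
    · rw [h, star_some] at hi
      exact absurd hi (by simp)
  · intro m n hmn hf
    have hm := hf m (by omega) (by omega)
    rcases gc m with ⟨h1, h⟩ | ⟨h1, h⟩ | ⟨h1, h⟩
    · -- everything in the first window
      have hn : n + 1 ≤ N := by
        by_contra hcon
        have h2 := hf (N + 1) (by omega) (by omega)
        rw [glue_s (by omega) (by omega), star_none] at h2
        exact absurd h2 (by simp)
      have e : ∀ k, m ≤ k → k ≤ n + 1 → glue x x' N M k = x k := fun k hk1 hk2 =>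
        glue_l (by omega) (by omega)
      rw [e m (by omega) (by omega), e (m + 1) (by omega) (by omega), e n (by omega) (by omega),
        e (n + 1) (by omega) (by omega)]
      apply hx.c3 m n hmn
      intro k hk1 hk2
      rw [← e k hk1 hk2]
      exact hf k hk1 hk2
    · have hn : n + 1 - M ≤ N := by
        by_contra hcon
        have h2 := hf (N + M + 1) (by omega) (by omega)
        rw [glue_s (by omega) (by omega), star_none] at h2
        exact absurd h2 (by simp)
      have e : ∀ k, m ≤ k → k ≤ n + 1 → glue x x' N M k = x' (k - M) := fun k hk1 hk2 =>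
        glue_r hM2 (by omega) (by omega)
      rw [e m (by omega) (by omega), e (m + 1) (by omega) (by omega), e n (by omega) (by omega),
        e (n + 1) (by omega) (by omega), show m + 1 - M = m - M + 1 by ring,
        show n + 1 - M = n - M + 1 by ring]
      apply hx'.c3 (m - M) (n - M) (by omega)
      intro k hk1 hk2
      have h3 := e (k + M) (by omega) (by omega)
      rw [show k + M - M = k by ring] at h3
      rw [← h3]
      exact hf _ (by omega) (by omega)
    · rw [h, star_none] at hm
      exact absurd hm (by simp)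
  · intro n l hn hf k hk1 hk2
    have hl : 1 ≤ l := by omega
    have hf1 := hf (n - 1) (by omega) (by omega)
    rcases gc (n - 1) with ⟨h1, h⟩ | ⟨h1, h⟩ | ⟨h1, h⟩
    · -- the run is in the first window
      have hln : -N ≤ n - l := by
        by_contra hcon
        have h2 := hf (-N - 1) (by omega) (by omega)
        rw [glue_s (by omega) (by omega), star_none] at h2
        exact absurd h2 (by simp)
      rcases gc k with ⟨h1', h'⟩ | ⟨h1', h'⟩ | ⟨h1', h'⟩
      · rw [h']
        have e : ∀ k, n - l ≤ k → k ≤ n → glue x x' N M k = x k := fun k hk1 hk2 =>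
          glue_l (by omega) (by omega)
        apply hx.c4 n l _ _ k hk1 hk2
        · rw [← e n (by omega) (by omega)]; exact hn
        · intro q hq1 hq2
          rw [← e q (by omega) (by omega)]
          exact hf q hq1 hq2
      · omega
      · rw [h', star_none]
    · have hln : -N ≤ n - l - M := by
        by_contra hcon
        have h2 := hf (-N + M - 1) (by omega) (by omega)
        rw [glue_s (by omega) (by omega), star_none] at h2
        exact absurd h2 (by simp)
      rcases gc k with ⟨h1', h'⟩ | ⟨h1', h'⟩ | ⟨h1', h'⟩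
      · omega
      · rw [h']
        have e : ∀ k, n - l ≤ k → k ≤ n → glue x x' N M k = x' (k - M) := fun k hk1 hk2 =>
          glue_r hM2 (by omega) (by omega)
        apply hx'.c4 (n - M) l _ _ (k - M) (by omega) (by omega)
        · rw [← e n (by omega) (by omega)]; exact hn
        · intro q hq1 hq2
          have h3 := e (q + M) (by omega) (by omega)
          rw [show q + M - M = q by ring] at h3
          rw [← h3]
          exact hf _ (by omega) (by omega)
      · rw [h', star_none]
    · rw [h, star_none] at hf1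
      exact absurd hf1 (by simp)
  · intro n l hn hf k hk1 hk2
    have hl : 1 ≤ l := by omega
    have hf1 := hf (n + 1) (by omega) (by omega)
    rcases gc (n + 1) with ⟨h1, h⟩ | ⟨h1, h⟩ | ⟨h1, h⟩
    · have hln : n + l ≤ N := by
        by_contra hcon
        have h2 := hf (N + 1) (by omega) (by omega)
        rw [glue_s (by omega) (by omega), star_none] at h2
        exact absurd h2 (by simp)
      rcases gc k with ⟨h1', h'⟩ | ⟨h1', h'⟩ | ⟨h1', h'⟩
      · rw [h']
        have e : ∀ k, n ≤ k → k ≤ n + l → glue x x' N M k = x k := fun k hk1 hk2 =>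
          glue_l (by omega) (by omega)
        apply hx.c5 n l _ _ k hk1 hk2
        · rw [← e n (by omega) (by omega)]; exact hn
        · intro q hq1 hq2
          rw [← e q (by omega) (by omega)]
          exact hf q hq1 hq2
      · omega
      · rw [h', star_none]
    · have hln : n + l - M ≤ N := by
        by_contra hcon
        have h2 := hf (N + M + 1) (by omega) (by omega)
        rw [glue_s (by omega) (by omega), star_none] at h2
        exact absurd h2 (by simp)
      rcases gc k with ⟨h1', h'⟩ | ⟨h1', h'⟩ | ⟨h1', h'⟩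
      · omega
      · rw [h']
        have e : ∀ k, n ≤ k → k ≤ n + l → glue x x' N M k = x' (k - M) := fun k hk1 hk2 =>
          glue_r hM2 (by omega) (by omega)
        apply hx'.c5 (n - M) l _ _ (k - M) (by omega) (by omega)
        · rw [← e n (by omega) (by omega)]; exact hn
        · intro q hq1 hq2
          have h3 := e (q + M) (by omega) (by omega)
          rw [show q + M - M = q by ring] at h3
          rw [← h3]
          exact hf _ (by omega) (by omega)
      · rw [h', star_none]
    · rw [h, star_none] at hf1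
      exact absurd hf1 (by simp)

end Pool.Agent.Q303.Sub
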