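import Pool.Agent.Q303.Sub

/-! Members, closedness and shift invariance of the coding subshift. -/

open Set Topology Filter MeasureTheory

namespace Pool.Agent.Q303.Sub

theorem vt_none (v : ℕ) : vt v none = false := by simp [vt]

theorem vt_some (v i : ℕ) : vt v (some i) = decide (i = v) := by simp [vt]

theorem inf_app (i : Option ℕ) : inf i = false := rfl

/-- constant sequences -/
def cst (a : Sy) : Y := fun _ => a

theorem cst_star_mem (A : ℕ → ℕ → Bool) : X A (cst star) := by
  constructor
  · intro n i j hi hj
    simp only [cst, star, decide_eq_true_eq] at hi hj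
    rw [hi, hj]
  · intro n i j _ hi
    simp [cst, star] at hi
  · intro m n _ _
    exact Or.inl rfl
  · intro n l _ _ k _ _
    exact star_none
  · intro n l _ _ k _ _
    exact star_none

theorem cst_vt_mem (A : ℕ → ℕ → Bool) (v : ℕ) : X A (cst (vt v)) := by
  constructor
  · intro n i j hi hj
    simp only [cst, vt, decide_eq_true_eq] at hi hj
    rw [hi, hj]
  · intro n i j hij hi hj
    simp only [cst, vt, decide_eq_true_eq] at hi hj
    exact absurd (Option.some.inj (hi.trans hj.symm)) hij
  · intro m n _ _
    exact Or.inl rfl
  · intro n l h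
    simp [cst, vt] at h
  · intro n l h
    simp [cst, vt] at h

theorem cst_inf_mem (A : ℕ → ℕ → Bool) : X A (cst inf) := by
  constructor
  · intro n i j hi hj
    simp [cst, inf] at hi
  · intro n i j hij hi hj
    simp [cst, inf] at hi
  · intro m n _ _
    exact Or.inl rfl
  · intro n l h
    simp [cst, inf] at h
  · intro n l h
    simp [cst, inf] at h

/-- a single symbol surrounded by stars -/
def pt0 : Y := fun k => if k = 0 then vt 0 else star

theorem pt0_mem (A : ℕ → ℕ → Bool) : X A pt0 := by
  constructor
  · intro n i j hi hj
    by_cases h : n = 0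
    · simp only [pt0, h, if_true, vt, decide_eq_true_eq] at hi hj
      rw [hi, hj]
    · simp only [pt0, h, if_false, star, decide_eq_true_eq] at hi hj
      rw [hi, hj]
  · intro n i j hij hi hj
    by_cases h : n = 0
    · have h1 : n + 1 ≠ 0 := by omega
      simp only [pt0, h1, if_false, star_some] at hj
      exact absurd hj (by simp)
    · simp only [pt0, h, if_false, star_some] at hi
      exact absurd hi (by simp)
  · intro m n hmn h
    have h1 := h m (by omega) (by omega)
    have h2 := h (m + 1) (by omega) (by omega)
    exfalso
    by_cases h0 : m = 0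
    · have h3 : m + 1 ≠ 0 := by omega
      simp only [pt0, h3, if_false, star_none] at h2
      exact absurd h2 (by simp)
    · simp only [pt0, h0, if_false, star_none] at h1
      exact absurd h1 (by simp)
  · intro n l hn hf k hk1 hk2
    by_cases hk : k = 0
    · exfalso
      have hn0 : n ≠ 0 := by
        rintro rfl
        simp [pt0, vt_none] at hn
      have h1 := hf (n - 1) (by omega) (by omega)
      have h2 : n - 1 ≠ 0 := by omega
      simp only [pt0, h2, if_false, star_none] at h1
      exact absurd h1 (by simp)
    · simp only [pt0, hk, if_false, star_none]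
  · intro n l hn hf k hk1 hk2
    by_cases hk : k = 0
    · exfalso
      have hn0 : n ≠ 0 := by
        rintro rfl
        simp [pt0, vt_none] at hn
      have h1 := hf (n + 1) (by omega) (by omega)
      have h2 : n + 1 ≠ 0 := by omega
      simp only [pt0, h2, if_false, star_none] at h1
      exact absurd h1 (by simp)
    · simp only [pt0, hk, if_false, star_none]

/-- the heteroclinic point from `i` to `j` -/
def het (i j : ℕ) : Y := fun k => if k < 0 then vt i else vt j

theorem het_none (i j : ℕ) (k : ℤ) : het i j k none = false := by
  by_cases h : k < 0 <;> simp [het, h, vt_none]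

theorem het_mem {A : ℕ → ℕ → Bool} {i j : ℕ} (h : A i j = true) : X A (het i j) := by
  constructor
  · intro n a b ha hb
    by_cases h : n < 0
    · simp only [het, h, if_true, vt, decide_eq_true_eq] at ha hb
      rw [ha, hb]
    · simp only [het, h, if_false, vt, decide_eq_true_eq] at ha hb
      rw [ha, hb]
  · intro n a b hab ha hb
    by_cases h0 : n < 0
    · simp only [het, h0, if_true, vt_some, decide_eq_true_eq] at ha
      by_cases h1 : n + 1 < 0
      · simp only [het, h1, if_true, vt_some, decide_eq_true_eq] at hb
        exact absurd (ha.trans hb.symm) hab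
      · simp only [het, h1, if_false, vt_some, decide_eq_true_eq] at hb
        rw [ha, hb]
        exact h
    · have h1 : ¬ (n + 1 < 0) := by omega
      simp only [het, h0, if_false, vt_some, decide_eq_true_eq] at ha
      simp only [het, h1, if_false, vt_some, decide_eq_true_eq] at hb
      exact absurd (ha.trans hb.symm) hab
  · intro m n hmn _
    by_cases h : m + 1 < 0
    · left
      have h1 : m < 0 := by omega
      simp [het, h, h1]
    · right
      have h1 : ¬ (n < 0) := by omega
      have h2 : ¬ (n + 1 < 0) := by omega
      simp [het, h1, h2]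
  · intro n l hn
    rw [het_none] at hn
    exact absurd hn (by simp)
  · intro n l hn
    rw [het_none] at hn
    exact absurd hn (by simp)

/-- the shift -/
def sY : Y ≃ₜ Y where
  toFun x := fun k => x (k + 1)
  invFun x := fun k => x (k - 1)
  left_inv x := by funext k; simp
  right_inv x := by funext k; simp
  continuous_toFun := continuous_pi fun k => continuous_apply (k + 1)
  continuous_invFun := continuous_pi fun k => continuous_apply (k - 1)

theorem X_shift {A : ℕ → ℕ → Bool} {x : Y} (d : ℤ) (h : X A x) : X A (fun k => x (k + d)) := by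
  constructor
  · intro n i j hi hj
    exact h.c1 _ i j hi hj
  · intro n i j hij hi hj
    refine h.c2 (n + d) i j hij hi ?_
    rw [show n + d + 1 = n + 1 + d by ring]
    exact hj
  · intro m n hmn hf
    have := h.c3 (m + d) (n + d) (by omega) (by
      intro k hk1 hk2
      have := hf (k - d) (by omega) (by omega)
      simpa using this)
    rw [show m + d + 1 = m + 1 + d by ring, show n + d + 1 = n + 1 + d by ring] at this
    exact this
  · intro n l hn hf k hk1 hk2
    exact h.c4 (n + d) l hn (by
      intro q hq1 hq2
      have := hf (q - d) (by omega) (by omega)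
      simpa using this) (k + d) (by omega) (by omega)
  · intro n l hn hf k hk1 hk2
    exact h.c5 (n + d) l hn (by
      intro q hq1 hq2
      have := hf (q - d) (by omega) (by omega)
      simpa using this) (k + d) (by omega) (by omega)

theorem X_sY {A : ℕ → ℕ → Bool} (x : Y) : X A x ↔ X A (sY x) := by
  constructor
  · intro h
    exact X_shift 1 h
  · intro h
    have h1 := X_shift (-1) h
    have h2 : (fun k => sY x (k + -1)) = x := by
      funext k
      show x (k + -1 + 1) = x k
      congr 1
      ring
    rwa [h2] at h1

theorem bit_cont (n : ℤ) (i : Option ℕ) : Continuous (fun x : Y => x n i) :=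
  (continuous_apply i).comp (continuous_apply n)

/-- the graph of the family of subshifts is closed -/
theorem X_closed : IsClosed {p : (ℕ → ℕ → Bool) × Y | X p.1 p.2} := by
  have hb : ∀ n i (b : Bool), IsClopen {p : (ℕ → ℕ → Bool) × Y | p.2 n i = b} := by
    intro n i b
    have h1 : Continuous (fun p : (ℕ → ℕ → Bool) × Y => p.2 n i) :=
      (bit_cont n i).comp continuous_snd
    exact (isClopen_discrete {b}).preimage h1
  have hA : ∀ i j (b : Bool), IsClopen {p : (ℕ → ℕ → Bool) × Y | p.1 i j = b} := by
    intro i j b
    have h0 : Continuous (fun A : ℕ → ℕ → Bool => A i j) := continuous_apply_apply i j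
    have h1 : Continuous (fun p : (ℕ → ℕ → Bool) × Y => p.1 i j) := h0.comp continuous_fst
    exact (isClopen_discrete {b}).preimage h1
  have himp : ∀ {s t : Set ((ℕ → ℕ → Bool) × Y)}, IsOpen s → IsClosed t →
      IsClosed {p | p ∈ s → p ∈ t} := by
    intro s t hs ht
    have : {p | p ∈ s → p ∈ t} = sᶜ ∪ t := by
      ext p
      simp only [Set.mem_ofPred_eq, Set.mem_union, Set.mem_compl_iff]
      tauto
    rw [this]
    exact hs.isClosed_compl.union ht
  have hall : ∀ (a b : ℤ), IsOpen {p : (ℕ → ℕ → Bool) × Y |
      ∀ k, a ≤ k → k ≤ b → p.2 k none = false} := by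
    intro a b
    have : {p : (ℕ → ℕ → Bool) × Y | ∀ k, a ≤ k → k ≤ b → p.2 k none = false} =
        ⋂ k ∈ Set.Icc a b, {p | p.2 k none = false} := by
      ext p
      simp
    rw [this]
    exact (Set.finite_Icc a b).isOpen_biInter fun k _ => (hb k none false).isOpen
  have e : {p : (ℕ → ℕ → Bool) × Y | X p.1 p.2} =
      {p | ∀ n i j, p.2 n i = true → p.2 n j = true → i = j} ∩
      ({p | ∀ n i j, i ≠ j → p.2 n (some i) = true → p.2 (n + 1) (some j) = true →
        p.1 i j = true} ∩
      ({p | ∀ m n : ℤ, m < n → (∀ k, m ≤ k → k ≤ n + 1 → p.2 k none = false) →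
        p.2 m = p.2 (m + 1) ∨ p.2 n = p.2 (n + 1)} ∩
      ({p | ∀ (n : ℤ) (l : ℕ), p.2 n none = true →
        (∀ k, n - l ≤ k → k ≤ n - 1 → p.2 k none = false) →
        ∀ k, n ≤ k → k < n + l → p.2 k none = true} ∩
      {p | ∀ (n : ℤ) (l : ℕ), p.2 n none = true →
        (∀ k, n + 1 ≤ k → k ≤ n + l → p.2 k none = false) →
        ∀ k, n - l < k → k ≤ n → p.2 k none = true}))) := by
    ext p
    constructor
    · intro h
      exact ⟨h.c1, h.c2, h.c3, fun n l h1 h2 => h.c4 n l h1 fun k hk1 hk2 => h2 k hk1 (by omega),
        fun n l h1 h2 => h.c5 n l h1 fun k hk1 hk2 => h2 k (by omega) hk2⟩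
    · rintro ⟨h1, h2, h3, h4, h5⟩
      exact ⟨h1, h2, h3, fun n l h1 h2 => h4 n l h1 fun k hk1 hk2 => h2 k hk1 (by omega),
        fun n l h1 h2 => h5 n l h1 fun k hk1 hk2 => h2 k (by omega) hk2⟩
  rw [e]
  refine IsClosed.inter ?_ (IsClosed.inter ?_ (IsClosed.inter ?_ (IsClosed.inter ?_ ?_)))
  · simp only [Set.ofPred_forall]
    refine isClosed_iInter fun n => isClosed_iInter fun i => isClosed_iInter fun j => ?_
    exact himp (hb n i true).isOpen (himp (hb n j true).isOpen isClosed_const)
  · simp only [Set.ofPred_forall]
    refine isClosed_iInter fun n => isClosed_iInter fun i => isClosed_iInter fun j => ?_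
    refine isClosed_iInter fun _ => ?_
    exact himp (hb n (some i) true).isOpen
      (himp (hb (n + 1) (some j) true).isOpen (hA i j true).isClosed)
  · simp only [Set.ofPred_forall]
    refine isClosed_iInter fun m => isClosed_iInter fun n => isClosed_iInter fun _ => ?_
    have hc : ∀ k : ℤ, Continuous (fun p : (ℕ → ℕ → Bool) × Y => p.2 k) := fun k =>
      (continuous_apply k).comp continuous_snd
    exact himp (hall m (n + 1)) ((isClosed_eq (hc m) (hc (m + 1))).union
      (isClosed_eq (hc n) (hc (n + 1))))
  · simp only [Set.ofPred_forall]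
    refine isClosed_iInter fun n => isClosed_iInter fun l => ?_
    have h9 : IsClosed {p : (ℕ → ℕ → Bool) × Y | ∀ k, n ≤ k → k < n + l → p.2 k none = true} := by
      simp only [Set.ofPred_forall]
      exact isClosed_iInter fun k => isClosed_iInter fun _ => isClosed_iInter fun _ =>
        (hb k none true).isClosed
    exact himp (hb n none true).isOpen (himp (hall (n - l) (n - 1)) h9)
  · simp only [Set.ofPred_forall]
    refine isClosed_iInter fun n => isClosed_iInter fun l => ?_
    have h9 : IsClosed {p : (ℕ → ℕ → Bool) × Y | ∀ k, n - l < k → k ≤ n → p.2 k none = true} := by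
      simp only [Set.ofPred_forall]
      exact isClosed_iInter fun k => isClosed_iInter fun _ => isClosed_iInter fun _ =>
        (hb k none true).isClosed
    exact himp (hb n none true).isOpen (himp (hall (n + 1) (n + l)) h9)

end Pool.Agent.Q303.Sub
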