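import Pool.Agent.Q303.SubB

/-! Dynamics of the coding subshift. -/

open Set Topology Filter MeasureTheory

namespace Pool.Agent.Q303.Sub

/-- there is a point other than `p` going to `q` in the future and to `p` in the past -/
def Het {W : Type*} [TopologicalSpace W] (S : W ≃ₜ W) (p q : W) : Prop :=
  ∃ x, x ≠ p ∧ Tendsto (fun n : ℕ => (S ^ n) x) atTop (𝓝 q) ∧
    Tendsto (fun n : ℕ => (S⁻¹ ^ n) x) atTop (𝓝 p)

/-- isolated among the fixed points -/
def Iso {W : Type*} [TopologicalSpace W] (S : W ≃ₜ W) (p : W) : Prop :=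
  ∃ U : Set W, IsOpen U ∧ p ∈ U ∧ ∀ q ∈ U, S q = q → q = p

section conj

variable {W W' : Type*} [TopologicalSpace W] [TopologicalSpace W'] {S : W ≃ₜ W} {S' : W' ≃ₜ W'}

theorem conj_pow (h : W ≃ₜ W') (hh : ∀ x, h (S x) = S' (h x)) (n : ℕ) (x : W) :
    h ((S ^ n) x) = (S' ^ n) (h x) := by
  induction n generalizing x with
  | zero => simp
  | succ n ih =>
    rw [pow_succ, pow_succ]
    show h ((S ^ n) (S x)) = (S' ^ n) (S' (h x))
    rw [ih, hh]

theorem conj_inv (h : W ≃ₜ W') (hh : ∀ x, h (S x) = S' (h x)) (x : W) :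
    h (S⁻¹ x) = S'⁻¹ (h x) := by
  have h1 := hh (S⁻¹ x)
  have h2 : S (S⁻¹ x) = x := S.apply_symm_apply x
  rw [h2] at h1
  rw [h1]
  exact (S'.symm_apply_apply _).symm

theorem Het_conj (h : W ≃ₜ W') (hh : ∀ x, h (S x) = S' (h x)) {p q : W} (H : Het S p q) :
    Het S' (h p) (h q) := by
  obtain ⟨x, hx, h1, h2⟩ := H
  refine ⟨h x, fun h3 => hx (h.injective h3), ?_, ?_⟩
  · have := (h.continuous.tendsto q).comp h1
    refine this.congr fun n => ?_
    exact conj_pow h hh n x
  · have := (h.continuous.tendsto p).comp h2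
    refine this.congr fun n => ?_
    exact conj_pow h (S := S⁻¹) (S' := S'⁻¹) (conj_inv h hh) n x

theorem symm_conj (h : W ≃ₜ W') (hh : ∀ x, h (S x) = S' (h x)) (y : W') :
    h.symm (S' y) = S (h.symm y) := by
  apply h.injective
  rw [h.apply_symm_apply, hh, h.apply_symm_apply]

theorem Iso_conj (h : W ≃ₜ W') (hh : ∀ x, h (S x) = S' (h x)) {p : W} (H : Iso S p) :
    Iso S' (h p) := by
  obtain ⟨U, hU, hp, h1⟩ := H
  refine ⟨h.symm ⁻¹' U, hU.preimage h.symm.continuous, by simpa using hp, ?_⟩
  intro q hq hq2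
  have h3 := h1 (h.symm q) hq (by rw [← symm_conj h hh, hq2])
  rw [← h3, h.apply_symm_apply]

end conj

/-- the coding subshift as a space -/
abbrev W (A : ℕ → ℕ → Bool) := {x : Y // X A x}

/-- the shift on it -/
def S (A : ℕ → ℕ → Bool) : W A ≃ₜ W A where
  toFun x := ⟨sY x.1, (X_sY x.1).1 x.2⟩
  invFun x := ⟨sY.symm x.1, (X_sY _).2 (by rw [sY.apply_symm_apply]; exact x.2)⟩
  left_inv x := Subtype.ext (sY.symm_apply_apply x.1)
  right_inv x := Subtype.ext (sY.apply_symm_apply x.1)
  continuous_toFun := (sY.continuous.comp continuous_subtype_val).subtype_mk _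
  continuous_invFun := (sY.symm.continuous.comp continuous_subtype_val).subtype_mk _

variable {A B : ℕ → ℕ → Bool}

theorem S_pow (n : ℕ) (x : W A) (k : ℤ) : ((S A ^ n) x).1 k = x.1 (k + n) := by
  induction n generalizing x with
  | zero => simp
  | succ n ih =>
    rw [pow_succ]
    show ((S A ^ n) (S A x)).1 k = _
    rw [ih, show k + ((n + 1 : ℕ) : ℤ) = k + n + 1 by push_cast; ring]
    rfl

theorem S_inv_pow (n : ℕ) (x : W A) (k : ℤ) : (((S A)⁻¹ ^ n) x).1 k = x.1 (k - n) := by
  induction n generalizing x with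
  | zero => simp
  | succ n ih =>
    rw [pow_succ]
    show (((S A)⁻¹ ^ n) ((S A)⁻¹ x)).1 k = _
    rw [ih, show k - ((n + 1 : ℕ) : ℤ) = k - n - 1 by push_cast; ring]
    rfl

theorem fixed_const {x : W A} (h : S A x = x) : x.1 = cst (x.1 0) := by
  have h1 : ∀ k, x.1 (k + 1) = x.1 k := fun k => congrFun (congrArg Subtype.val h) k
  funext k
  show x.1 k = x.1 0
  induction k using Int.induction_on with
  | zero => rfl
  | succ i ih => rw [h1, ih]
  | pred i ih =>
    have := h1 (-i - 1)
    rw [show -(i : ℤ) - 1 + 1 = -i by ring] at this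
    rw [← this, ih]

theorem sym_cases {a : Sy} (h : ∀ i j, a i = true → a j = true → i = j) :
    a = star ∨ (∃ v, a = vt v) ∨ a = inf := by
  by_cases h1 : ∃ i, a i = true
  · obtain ⟨i, hi⟩ := h1
    have h2 : ∀ j, a j = decide (j = i) := by
      intro j
      by_cases hj : a j = true
      · rw [hj, h j i hj hi]; simp
      · have : j ≠ i := by rintro rfl; exact hj hi
        simp only [this, decide_false]
        simpa using hj
    cases i with
    | none => left; funext j; rw [h2]; rfl
    | some v => right; left; exact ⟨v, funext fun j => by rw [h2]; rfl⟩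
  · right; right
    funext j
    push Not at h1
    have := h1 j
    simpa [inf] using this

theorem fixed_cases {x : W A} (h : S A x = x) :
    x.1 = cst star ∨ (∃ v, x.1 = cst (vt v)) ∨ x.1 = cst inf := by
  have h1 := fixed_const h
  rcases sym_cases (x.2.c1 0) with h2 | ⟨v, h2⟩ | h2
  · left; rw [h1, h2]
  · right; left; exact ⟨v, by rw [h1, h2]⟩
  · right; right; rw [h1, h2]

/-- the fixed points as elements of the space -/
def pS (A : ℕ → ℕ → Bool) : W A := ⟨cst star, cst_star_mem A⟩
def pV (A : ℕ → ℕ → Bool) (v : ℕ) : W A := ⟨cst (vt v), cst_vt_mem A v⟩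
def pI (A : ℕ → ℕ → Bool) : W A := ⟨cst inf, cst_inf_mem A⟩

theorem S_pS : S A (pS A) = pS A := rfl
theorem S_pV (v : ℕ) : S A (pV A v) = pV A v := rfl
theorem S_pI : S A (pI A) = pI A := rfl

theorem tendsto_W {x : ℕ → W A} {a : Sy} (ha : X A (cst a))
    (h : ∀ k : ℤ, ∀ᶠ n in atTop, (x n).1 k = a) : Tendsto x atTop (𝓝 ⟨cst a, ha⟩) := by
  rw [tendsto_subtype_rng, tendsto_pi_nhds]
  intro k
  exact tendsto_const_nhds.congr' ((h k).mono fun n hn => hn.symm)

theorem het_star : Het (S A) (pS A) (pS A) := by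
  refine ⟨⟨pt0, pt0_mem A⟩, ?_, ?_, ?_⟩
  · intro h
    have h1 := congrFun (congrFun (congrArg Subtype.val h) 0) none
    simp [pt0, pS, cst, vt, star] at h1
  · apply tendsto_W
    intro k
    filter_upwards [eventually_gt_atTop k.natAbs] with n hn
    rw [S_pow]
    have : k + n ≠ 0 := by omega
    show pt0 (k + n) = star
    simp [pt0, this]
  · apply tendsto_W
    intro k
    filter_upwards [eventually_gt_atTop k.natAbs] with n hn
    rw [S_inv_pow]
    have : k - n ≠ 0 := by omega
    show pt0 (k - n) = star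
    simp [pt0, this]

theorem het_edge {i j : ℕ} (hij : i ≠ j) (h : A i j = true) : Het (S A) (pV A i) (pV A j) := by
  refine ⟨⟨het i j, het_mem h⟩, ?_, ?_, ?_⟩
  · intro h
    have h1 := congrFun (congrFun (congrArg Subtype.val h) 0) (some i)
    simp [het, pV, cst, vt] at h1
    exact hij h1
  · apply tendsto_W
    intro k
    filter_upwards [eventually_gt_atTop k.natAbs] with n hn
    rw [S_pow]
    have : ¬ (k + n < 0) := by omega
    show het i j (k + n) = _
    simp [het, this]
  · apply tendsto_W
    intro k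
    filter_upwards [eventually_gt_atTop k.natAbs] with n hn
    rw [S_inv_pow]
    have : k - n < 0 := by omega
    show het i j (k - n) = _
    simp [het, this]

/-- structure of points whose limits are not the star -/
theorem struct {x : Y} (hx : X A x) {a b : Sy} (ha : a none = false) (hb : b none = false)
    (h1 : Tendsto (fun n : ℕ => x n) atTop (𝓝 a)) (h2 : Tendsto (fun n : ℕ => x (-n)) atTop (𝓝 b)) :
    (x = cst a ∧ a = b) ∨ ∃ m, x m = b ∧ x (m + 1) = a ∧ a ≠ b := by
  have e1 : ∀ᶠ n : ℕ in atTop, x n none = false := by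
    have := (tendsto_pi_nhds.1 h1) none
    rw [ha, nhds_discrete, tendsto_pure] at this
    exact this
  have e2 : ∀ᶠ n : ℕ in atTop, x (-n) none = false := by
    have := (tendsto_pi_nhds.1 h2) none
    rw [hb, nhds_discrete, tendsto_pure] at this
    exact this
  obtain ⟨n1, hn1⟩ := eventually_atTop.1 e1
  obtain ⟨n2, hn2⟩ := eventually_atTop.1 e2
  have hns : ∀ k, x k none = false := by
    by_contra hcon
    push Not at hcon
    have hbdd : ∃ b : ℤ, ∀ z : ℤ, x z none = true → b ≤ z := by
      refine ⟨-n2, fun z hz => ?_⟩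
      by_contra hlt
      have := hn2 z.natAbs (by omega)
      rw [show -(z.natAbs : ℤ) = z by omega] at this
      rw [this] at hz
      exact absurd hz (by simp)
    obtain ⟨k0, hk0, hmin⟩ := Int.exists_least_of_bdd hbdd
      (by obtain ⟨k, hk⟩ := hcon; exact ⟨k, by simpa using hk⟩)
    have h3 : ∀ k, k0 ≤ k → x k none = true := by
      intro k hk
      refine hx.c4 k0 ((k - k0).toNat + 1) hk0 ?_ k hk (by push_cast; omega)
      intro q _ hq2
      by_contra hcon2
      have := hmin q (by simpa using hcon2)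
      omega
    have h4 := h3 (max k0 n1) (le_max_left _ _)
    have h5 := hn1 (max k0 n1).toNat (by omega)
    rw [show ((max k0 n1).toNat : ℤ) = max k0 n1 by omega, h4] at h5
    exact absurd h5 (by simp)
  have hc3 : ∀ m n : ℤ, m < n → x m = x (m + 1) ∨ x n = x (n + 1) := fun m n hmn =>
    hx.c3 m n hmn fun k _ _ => hns k
  by_cases hc : ∀ m, x m = x (m + 1)
  · left
    have h3 : ∀ k, x k = x 0 := by
      intro k
      induction k using Int.induction_on with
      | zero => rfl
      | succ i ih => rw [← hc, ih]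
      | pred i ih =>
        rw [hc, show -(i : ℤ) - 1 + 1 = -i by ring, ih]
    have h4 : a = x 0 := tendsto_nhds_unique h1 (tendsto_const_nhds.congr fun n => (h3 n).symm)
    have h5 : b = x 0 := tendsto_nhds_unique h2 (tendsto_const_nhds.congr fun n => (h3 (-n)).symm)
    refine ⟨?_, h4.trans h5.symm⟩
    funext k
    show x k = a
    rw [h3, h4]
  · right
    push Not at hc
    obtain ⟨m, hm⟩ := hc
    have hr : ∀ d : ℕ, x (m + 1 + d) = x (m + 1) := by
      intro d
      induction d with
      | zero => simp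
      | succ d ih =>
        rcases hc3 m (m + 1 + d) (by omega) with h | h
        · exact absurd h hm
        · rw [← ih, h]
          congr 1
          push_cast
          ring
    have hl : ∀ d : ℕ, x (m - d) = x m := by
      intro d
      induction d with
      | zero => simp
      | succ d ih =>
        rcases hc3 (m - (d + 1)) m (by omega) with h | h
        · rw [← ih]
          push_cast
          rw [h]
          congr 1
          ring
        · exact absurd h hm
    have h4 : a = x (m + 1) := by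
      refine tendsto_nhds_unique h1 (tendsto_const_nhds.congr' ?_)
      filter_upwards [eventually_ge_atTop (m + 1).natAbs] with n hn
      have := hr (n - (m + 1)).toNat
      rw [show m + 1 + (((n : ℤ) - (m + 1)).toNat : ℤ) = n by omega] at this
      exact this.symm
    have h5 : b = x m := by
      refine tendsto_nhds_unique h2 (tendsto_const_nhds.congr' ?_)
      filter_upwards [eventually_ge_atTop m.natAbs] with n hn
      have := hl (m + n).toNat
      rw [show m - ((m + n).toNat : ℤ) = -n by omega] at this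
      exact this.symm
    exact ⟨m, h5.symm, h4.symm, fun h => hm (by rw [← h5, ← h4, h])⟩

theorem het_lim {x : W A} {a b : Sy} {ha : X A (cst a)} {hb : X A (cst b)}
    (h1 : Tendsto (fun n : ℕ => (S A ^ n) x) atTop (𝓝 ⟨cst a, ha⟩))
    (h2 : Tendsto (fun n : ℕ => ((S A)⁻¹ ^ n) x) atTop (𝓝 ⟨cst b, hb⟩)) :
    Tendsto (fun n : ℕ => x.1 n) atTop (𝓝 a) ∧ Tendsto (fun n : ℕ => x.1 (-n)) atTop (𝓝 b) := by
  rw [tendsto_subtype_rng, tendsto_pi_nhds] at h1 h2
  constructor
  · refine (h1 0).congr fun n => ?_
    rw [S_pow, zero_add]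
  · refine (h2 0).congr fun n => ?_
    rw [S_inv_pow, zero_sub]

theorem not_het {a : Sy} (ha : a none = false) (hm : X A (cst a)) :
    ¬ Het (S A) ⟨cst a, hm⟩ ⟨cst a, hm⟩ := by
  rintro ⟨x, hx, h1, h2⟩
  obtain ⟨h3, h4⟩ := het_lim h1 h2
  rcases struct x.2 ha ha h3 h4 with ⟨h5, _⟩ | ⟨m, _, _, h5⟩
  · exact hx (Subtype.ext h5)
  · exact h5 rfl

theorem edge_of_het {i j : ℕ} (hij : i ≠ j) (h : Het (S A) (pV A i) (pV A j)) :
    A i j = true := by
  obtain ⟨x, hx, h1, h2⟩ := h
  obtain ⟨h3, h4⟩ := het_lim h1 h2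
  rcases struct x.2 (vt_none j) (vt_none i) h3 h4 with ⟨_, h5⟩ | ⟨m, h5, h6, _⟩
  · have := congrFun h5 (some i)
    simp [vt] at this
    exact absurd this hij
  · exact x.2.c2 m i j hij (by rw [h5]; simp [vt]) (by rw [h6]; simp [vt])

theorem vt_inj {u v : ℕ} (h : vt u = vt v) : u = v := by
  have := congrFun h (some u)
  simpa [vt] using this

theorem iso_pV (v : ℕ) : Iso (S A) (pV A v) := by
  refine ⟨{x | x.1 0 (some v) = true}, ?_, ?_, ?_⟩
  · have : Continuous (fun x : W A => x.1 0 (some v)) :=
      (bit_cont 0 (some v)).comp continuous_subtype_val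
    exact (isOpen_discrete {true}).preimage this
  · simp [pV, cst, vt]
  · intro q hq hfix
    have hq' : q.1 0 (some v) = true := hq
    rcases fixed_cases hfix with h | ⟨u, h⟩ | h
    · rw [h] at hq'
      simp [cst, star] at hq'
    · rw [h] at hq'
      simp only [cst, vt, decide_eq_true_eq] at hq'
      have : v = u := Option.some.inj hq'
      subst this
      exact Subtype.ext h
    · rw [h] at hq'
      simp [cst, inf] at hq'

theorem not_iso_pI : ¬ Iso (S A) (pI A) := by
  rintro ⟨U, hU, hp, h⟩
  have h1 : Tendsto (fun v : ℕ => pV A v) atTop (𝓝 (pI A)) := by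
    rw [tendsto_subtype_rng, tendsto_pi_nhds]
    intro k
    rw [tendsto_pi_nhds]
    intro i
    have : Tendsto (fun _ : ℕ => false) atTop (𝓝 false) := tendsto_const_nhds
    refine this.congr' ?_
    cases i with
    | none => exact Eventually.of_forall fun v => (vt_none v).symm
    | some i =>
      filter_upwards [eventually_gt_atTop i] with v hv
      show false = vt v (some i)
      rw [vt_some]
      have : i ≠ v := by omega
      simp [this]
  have h2 := h1.eventually (hU.mem_nhds hp)
  obtain ⟨v, hv⟩ := h2.exists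
  have h3 := h _ hv (S_pV v)
  have := congrFun (congrFun (congrArg Subtype.val h3) 0) (some v)
  simp [pV, pI, cst, vt, inf] at this

/-- a conjugacy induces a map on the vertices -/
theorem conj_vertex (h : W A ≃ₜ W B) (hh : ∀ x, h (S A x) = S B (h x)) (i : ℕ) :
    ∃ j, h (pV A i) = pV B j := by
  have h1 : S B (h (pV A i)) = h (pV A i) := by rw [← hh, S_pV]
  have h2 : Iso (S B) (h (pV A i)) := Iso_conj h hh (iso_pV i)
  have h3 : ¬ Het (S B) (h (pV A i)) (h (pV A i)) := by
    intro h4
    have h5 := Het_conj h.symm (symm_conj h hh) h4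
    rw [h.symm_apply_apply] at h5
    exact not_het (vt_none i) (cst_vt_mem A i) h5
  rcases fixed_cases h1 with h4 | ⟨v, h4⟩ | h4
  · exfalso
    have : h (pV A i) = pS B := Subtype.ext h4
    rw [this] at h3
    exact h3 het_star
  · exact ⟨v, Subtype.ext h4⟩
  · exfalso
    have : h (pV A i) = pI B := Subtype.ext h4
    rw [this] at h2
    exact not_iso_pI h2

theorem pV_inj {u v : ℕ} (h : pV A u = pV A v) : u = v := by
  have := congrFun (congrArg Subtype.val h) 0
  exact vt_inj this

theorem iso_of_conj (hA : ∀ i, A i i = false) (hB : ∀ i, B i i = false) (h : W A ≃ₜ W B)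
    (hh : ∀ x, h (S A x) = S B (h x)) : ∃ π : Equiv.Perm ℕ, ∀ i j, A i j = B (π i) (π j) := by
  choose f hf using conj_vertex h hh
  choose g hg using conj_vertex h.symm (symm_conj h hh)
  have hgf : ∀ i, g (f i) = i := by
    intro i
    apply pV_inj (A := A)
    rw [← hg, ← hf, h.symm_apply_apply]
  have hfg : ∀ i, f (g i) = i := by
    intro i
    apply pV_inj (A := B)
    rw [← hf, ← hg, h.apply_symm_apply]
  refine ⟨⟨f, g, hgf, hfg⟩, ?_⟩
  intro i j
  show A i j = B (f i) (f j)
  by_cases hij : i = j
  · subst hij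
    rw [hA, hB]
  · have hfij : f i ≠ f j := fun h => hij (by rw [← hgf i, ← hgf j, h])
    have h1 : A i j = true ↔ B (f i) (f j) = true := by
      constructor
      · intro h2
        have h3 := Het_conj h hh (het_edge hij h2)
        rw [hf, hf] at h3
        exact edge_of_het hfij h3
      · intro h2
        have h3 := Het_conj h.symm (symm_conj h hh) (het_edge hfij h2)
        rw [hg, hg, hgf, hgf] at h3
        exact edge_of_het hij h3
    cases hAv : A i j <;> cases hBv : B (f i) (f j) <;> simp_all

end Pool.Agent.Q303.Sub
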