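import Pool.Agent.Q303.SubC

/-! Isomorphic graphs give conjugate subshifts; transitivity; transfer to Cantor space. -/

open Set Topology Filter MeasureTheory

namespace Pool.Agent.Q303.Sub

open Pool.Agent.Q303.Split

/-- permuting the symbols -/
def permY (π : Equiv.Perm ℕ) (x : Y) : Y := fun n i => x n (Option.map π.symm i)

theorem permY_cont (π : Equiv.Perm ℕ) : Continuous (permY π) :=
  continuous_pi fun n => continuous_pi fun _ => bit_cont n _

theorem permY_symm (π : Equiv.Perm ℕ) (x : Y) : permY π.symm (permY π x) = x := by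
  funext n i
  cases i <;> simp [permY]

theorem permY_symm' (π : Equiv.Perm ℕ) (x : Y) : permY π (permY π.symm x) = x := by
  funext n i
  cases i <;> simp [permY]

theorem permY_mem {A B : ℕ → ℕ → Bool} {π : Equiv.Perm ℕ} (h : ∀ i j, A i j = B (π i) (π j))
    {x : Y} (hx : X A x) : X B (permY π x) := by
  constructor
  · intro n i j hi hj
    exact Option.map_injective π.symm.injective (hx.c1 n _ _ hi hj)
  · intro n i j hij hi hj
    have h1 := hx.c2 n (π.symm i) (π.symm j) (fun h => hij (π.symm.injective h)) hi hj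
    rw [h] at h1
    simpa using h1
  · intro m n hmn hf
    rcases hx.c3 m n hmn hf with h1 | h1
    · left
      funext i
      simp only [permY, h1]
    · right
      funext i
      simp only [permY, h1]
  · intro n l hn hf k hk1 hk2
    exact hx.c4 n l hn hf k hk1 hk2
  · intro n l hn hf k hk1 hk2
    exact hx.c5 n l hn hf k hk1 hk2

/-- isomorphic relations have conjugate subshifts -/
theorem conj_of_iso {A B : ℕ → ℕ → Bool} {π : Equiv.Perm ℕ} (h : ∀ i j, A i j = B (π i) (π j)) :
    ∃ k : W A ≃ₜ W B, ∀ x, k (S A x) = S B (k x) := by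
  have h' : ∀ i j, B i j = A (π.symm i) (π.symm j) := by
    intro i j
    rw [h]
    simp
  refine ⟨⟨⟨fun x => ⟨permY π x.1, permY_mem h x.2⟩,
    fun x => ⟨permY π.symm x.1, permY_mem h' x.2⟩, fun x => Subtype.ext (permY_symm π x.1),
    fun x => Subtype.ext (permY_symm' π x.1)⟩, ?_, ?_⟩, ?_⟩
  · exact ((permY_cont π).comp continuous_subtype_val).subtype_mk _
  · exact ((permY_cont π.symm).comp continuous_subtype_val).subtype_mk _
  · intro x
    rfl

/-- neighbourhoods are determined by windows -/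
theorem window {U : Set Y} (hU : IsOpen U) {x : Y} (hx : x ∈ U) :
    ∃ N : ℕ, ∀ y : Y, (∀ k : ℤ, -N ≤ k → k ≤ N → y k = x k) → y ∈ U := by
  obtain ⟨I, t, ht, hI⟩ := isOpen_pi_iff.1 hU x hx
  refine ⟨I.sup Int.natAbs, fun y hy => hI ?_⟩
  intro i hi
  have h1 : i.natAbs ≤ I.sup Int.natAbs := Finset.le_sup (f := Int.natAbs) hi
  rw [hy i (by omega) (by omega)]
  exact (ht i hi).2

/-- transitivity of the subshift -/
theorem trans_W {A : ℕ → ℕ → Bool} {U V : Set (W A)} (hU : IsOpen U) (hV : IsOpen V)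
    (hUne : U.Nonempty) (hVne : V.Nonempty) : ∃ n : ℕ, ∃ x ∈ U, (S A ^ n) x ∈ V := by
  obtain ⟨U', hU', rfl⟩ := isOpen_induced_iff.1 hU
  obtain ⟨V', hV', rfl⟩ := isOpen_induced_iff.1 hV
  obtain ⟨u, hu⟩ := hUne
  obtain ⟨v, hv⟩ := hVne
  obtain ⟨N1, hN1⟩ := window hU' hu
  obtain ⟨N2, hN2⟩ := window hV' hv
  let N : ℕ := max N1 N2
  let M : ℕ := 4 * N + 2
  have hmem := glue_mem u.2 v.2 (N := N) (M := M) (by omega) (by push_cast [M]; omega)
  refine ⟨M, ⟨glue u.1 v.1 N M, hmem⟩, ?_, ?_⟩
  · apply hN1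
    intro k hk1 hk2
    apply glue_l <;> omega
  · apply hN2
    intro k hk1 hk2
    rw [S_pow]
    show glue u.1 v.1 N M (k + M) = v.1 k
    rw [glue_r (by push_cast [M]; omega) (by omega) (by omega), show k + M - M = k by ring]

/-- enumeration of coordinates -/
noncomputable def dn : ℕ ≃ ℤ × Option ℕ := (Denumerable.eqv (ℤ × Option ℕ)).symm

/-- the identification with Cantor space -/
noncomputable def eY : Y ≃ₜ (ℕ → Bool) where
  toFun x := fun n => x (dn n).1 (dn n).2
  invFun w := fun k i => w (dn.symm (k, i))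
  left_inv x := by funext k i; simp
  right_inv w := by funext n; simp
  continuous_toFun := continuous_pi fun n => bit_cont _ _
  continuous_invFun := continuous_pi fun k => continuous_pi fun i => continuous_apply _

/-- the space of countable graphs -/
abbrev Gph := {A : ℕ → ℕ → Bool // (∀ i j, A i j = A j i) ∧ ∀ i, A i i = false}

theorem gph_closed : IsClosed {A : ℕ → ℕ → Bool | (∀ i j, A i j = A j i) ∧ ∀ i, A i i = false} := by
  have h0 : ∀ i j, Continuous (fun A : ℕ → ℕ → Bool => A i j) := fun i j =>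
    continuous_apply_apply i j
  have h1 : IsClosed {A : ℕ → ℕ → Bool | ∀ i j, A i j = A j i} := by
    simp only [Set.ofPred_forall]
    exact isClosed_iInter fun i => isClosed_iInter fun j => isClosed_eq (h0 i j) (h0 j i)
  have h2 : IsClosed {A : ℕ → ℕ → Bool | ∀ i, A i i = false} := by
    simp only [Set.ofPred_forall]
    exact isClosed_iInter fun i => isClosed_eq (h0 i i) continuous_const
  exact h1.inter h2

instance : StandardBorelSpace Gph := gph_closed.measurableSet.standardBorel

/-- the family of closed sets -/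
def P (G : Gph) : Set (ℕ → Bool) := {w | X G.1 (eY.symm w)}

theorem Gr_closed : IsClosed (Gr P) := by
  have h1 : Continuous (fun p : Gph × (ℕ → Bool) => (p.1.1, eY.symm p.2)) :=
    (continuous_subtype_val.comp continuous_fst).prodMk (eY.symm.continuous.comp continuous_snd)
  exact X_closed.preimage h1

theorem P_closed (G : Gph) : IsClosed (P G) := by
  have h1 : Continuous (fun w : ℕ → Bool => (G, w)) := continuous_const.prodMk continuous_id
  exact Gr_closed.preimage h1

theorem P_ne (G : Gph) : (P G).Nonempty :=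
  ⟨eY (cst star), by
    show X G.1 (eY.symm (eY (cst star)))
    rw [eY.symm_apply_apply]
    exact cst_star_mem _⟩

theorem P_perf (G : Gph) : Perf (P G) := by
  intro w hw n
  let N : ℕ := (Finset.range n).sup fun i => (dn i).1.natAbs
  let M : ℕ := 4 * N + 2
  have hM : 4 * (N : ℤ) + 2 ≤ (M : ℤ) := by push_cast [M]; omega
  have h1 := glue_mem hw (cst_star_mem G.1) (N := N) (M := M) (by omega) hM
  have h2 := glue_mem hw (pt0_mem G.1) (N := N) (M := M) (by omega) hM
  have hne : glue (eY.symm w) (cst star) N M ≠ glue (eY.symm w) pt0 N M := by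
    intro h
    have h3 := congrFun (congrFun h M) none
    rw [glue_r (by omega) (by omega) (by omega), glue_r (by omega) (by omega) (by omega)] at h3
    simp [cst, star, pt0, vt] at h3
  have hag : ∀ x' : Y, ∀ i < n, eY (glue (eY.symm w) x' N M) i = w i := by
    intro x' i hi
    have h4 : (dn i).1.natAbs ≤ N :=
      Finset.le_sup (f := fun i => (dn i).1.natAbs) (Finset.mem_range.2 hi)
    show glue (eY.symm w) x' N M (dn i).1 (dn i).2 = w i
    rw [glue_l (by omega) (by omega)]
    show w (dn.symm ((dn i).1, (dn i).2)) = w i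
    simp
  by_cases h : eY (glue (eY.symm w) (cst star) N M) = w
  · refine ⟨eY (glue (eY.symm w) pt0 N M), ?_, hag _, ?_⟩
    · show X G.1 (eY.symm (eY _))
      rw [eY.symm_apply_apply]
      exact h2
    · intro h5
      exact hne (eY.injective (h.trans h5.symm))
  · refine ⟨eY (glue (eY.symm w) (cst star) N M), ?_, hag _, h⟩
    show X G.1 (eY.symm (eY _))
    rw [eY.symm_apply_apply]
    exact h1

theorem P_proj (s : ℕ → Bool) (n : ℕ) :
    MeasurableSet {G : Gph | ∃ y ∈ P G, ∀ i < n, y i = s i} := by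
  have h1 : IsClosed {y : ℕ → Bool | ∀ i < n, y i = s i} := by
    simp only [Set.ofPred_forall]
    exact isClosed_iInter fun i => isClosed_iInter fun _ =>
      isClosed_eq (continuous_apply i) continuous_const
  have h2 : IsClosed (Gr P ∩ Prod.snd ⁻¹' {y : ℕ → Bool | ∀ i < n, y i = s i}) :=
    Gr_closed.inter (h1.preimage continuous_snd)
  have h3 := isClosedMap_fst_of_compactSpace _ h2
  have h4 : {G : Gph | ∃ y ∈ P G, ∀ i < n, y i = s i} =
      Prod.fst '' (Gr P ∩ Prod.snd ⁻¹' {y : ℕ → Bool | ∀ i < n, y i = s i}) := by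
    ext G
    constructor
    · rintro ⟨y, hy, h⟩
      exact ⟨(G, y), ⟨hy, h⟩, rfl⟩
    · rintro ⟨⟨G', y⟩, ⟨hy, h⟩, rfl⟩
      exact ⟨y, hy, h⟩
  rw [h4]
  exact h3.measurableSet

/-- the shift transferred to Cantor space -/
noncomputable def sC : (ℕ → Bool) ≃ₜ (ℕ → Bool) := (eY.symm.trans sY).trans eY

theorem P_sC (G : Gph) (w : ℕ → Bool) : w ∈ P G ↔ sC w ∈ P G := by
  show X G.1 (eY.symm w) ↔ X G.1 (eY.symm (eY (sY (eY.symm w))))
  rw [eY.symm_apply_apply]
  exact X_sY _

/-- identification of the two descriptions of the subshift -/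
noncomputable def wP (G : Gph) : W G.1 ≃ₜ P G where
  toFun x := ⟨eY x.1, by
    show X G.1 (eY.symm (eY x.1))
    rw [eY.symm_apply_apply]
    exact x.2⟩
  invFun w := ⟨eY.symm w.1, w.2⟩
  left_inv x := Subtype.ext (eY.symm_apply_apply x.1)
  right_inv w := Subtype.ext (eY.apply_symm_apply w.1)
  continuous_toFun := (eY.continuous.comp continuous_subtype_val).subtype_mk _
  continuous_invFun := (eY.symm.continuous.comp continuous_subtype_val).subtype_mk _

/-- the family of homeomorphisms of Cantor space -/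
theorem family : ∃ (T : Gph → (ℕ → Bool) ≃ₜ (ℕ → Bool)) (h : ∀ G : Gph, W G.1 ≃ₜ (ℕ → Bool)),
      @Measurable _ _ _ (borel _) (fun G => (⟨T G, (T G).continuous⟩ : C(ℕ → Bool, ℕ → Bool))) ∧
      @Measurable _ _ _ (borel _)
        (fun G => (⟨(T G).symm, (T G).symm.continuous⟩ : C(ℕ → Bool, ℕ → Bool))) ∧
      ∀ G (x : W G.1), h G (S G.1 x) = T G (h G x) := by
  obtain ⟨T, h, h1, h2, h3⟩ := param P Gr_closed.measurableSet P_closed P_ne P_perf P_proj sC P_sC
  refine ⟨T, fun G => (wP G).trans (h G), h1, h2, ?_⟩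
  intro G x
  show h G (wP G (S G.1 x)) = T G (h G (wP G x))
  rw [h3]
  congr 1
  apply Subtype.ext
  show eY (sY x.1) = eY (sY (eY.symm (eY x.1)))
  rw [eY.symm_apply_apply]

end Pool.Agent.Q303.Sub
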