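import Mathlib

set_option autoImplicit false

/-! A Polish space with shrinking copies of the Cantor space attached. -/

namespace Pool.Agent.Q303.TR

open Set Filter Topology

section size

variable {A : Type} [Encodable A]

/-- the size of the copy with index `a` -/
noncomputable def sz (a : A) : ℝ := 1 / ((Encodable.encode a : ℝ) + 1)

theorem sz_pos (a : A) : 0 < sz a := by unfold sz; positivity

theorem sz_inj {a b : A} (h : sz a = sz b) : a = b := by
  unfold sz at h
  have h1 : ((Encodable.encode a : ℝ) + 1) = ((Encodable.encode b : ℝ) + 1) := by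
    have := congrArg (fun t : ℝ => 1 / t) h
    simpa using this
  have h2 : (Encodable.encode a : ℝ) = (Encodable.encode b : ℝ) := by linarith
  exact Encodable.encode_injective (by exact_mod_cast h2)

theorem sz_fin (ε : ℝ) (hε : 0 < ε) : {a : A | ε ≤ sz a}.Finite := by
  refine Set.Finite.of_finite_image (f := (Encodable.encode : A → ℕ)) ?_
    Encodable.encode_injective.injOn
  obtain ⟨N, hN⟩ := exists_nat_gt (1 / ε)
  refine (Set.finite_lt_nat N).subset ?_
  rintro _ ⟨a, ha, rfl⟩
  have ha' : ε ≤ 1 / ((Encodable.encode a : ℝ) + 1) := ha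
  have h1 : ((Encodable.encode a : ℝ) + 1) ≤ 1 / ε := by
    rw [le_div_iff₀ hε]
    rw [le_div_iff₀ (by positivity)] at ha'
    linarith
  have h2 : (Encodable.encode a : ℝ) < N := by linarith
  show Encodable.encode a < N
  exact_mod_cast h2

end size

variable {Z A : Type}

/-- the space: `Z` together with the copies `{a} × 2^ℕ` -/
def YS (_ : A → Z) : Type := Z ⊕ (A × (ℕ → Bool))

variable {pt : A → Z}

/-- points of `Z` -/
def inl (z : Z) : YS pt := Sum.inl z
/-- points of the copies -/
def inr (a : A) (q : ℕ → Bool) : YS pt := Sum.inr (a, q)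

theorem ys_cases (y : YS pt) : (∃ z, y = inl z) ∨ ∃ a q, y = inr a q := by
  rcases y with z | ⟨a, q⟩
  · exact Or.inl ⟨z, rfl⟩
  · exact Or.inr ⟨a, q, rfl⟩

variable [Encodable A]

/-- the coding -/
noncomputable def co (y : YS pt) : Z × (ℕ → ℝ) × ℝ :=
  Sum.elim (fun z => (z, 0, 0))
    (fun w : A × (ℕ → Bool) => (pt w.1, (fun n => sz w.1 * (if w.2 n then 1 else 0)), sz w.1)) y

theorem co_inl (z : Z) : co (inl z : YS pt) = (z, 0, 0) := rfl
theorem co_inr (a : A) (q : ℕ → Bool) : co (inr a q : YS pt) =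
    (pt a, (fun n => sz a * (if q n then 1 else 0)), sz a) := rfl

theorem co_inj : Function.Injective (co (pt := pt)) := by
  intro y y' h
  rcases ys_cases y with ⟨z, rfl⟩ | ⟨a, q, rfl⟩ <;> rcases ys_cases y' with ⟨z', rfl⟩ | ⟨b, q', rfl⟩
  · rw [co_inl, co_inl] at h
    have h1 : z = z' := (Prod.ext_iff.1 h).1
    rw [h1]
  · exfalso
    rw [co_inl, co_inr] at h
    have := (Prod.ext_iff.1 (Prod.ext_iff.1 h).2).2
    exact (sz_pos b).ne this
  · exfalso
    rw [co_inl, co_inr] at h
    have := (Prod.ext_iff.1 (Prod.ext_iff.1 h).2).2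
    exact (sz_pos a).ne' this
  · rw [co_inr, co_inr] at h
    have h1 : sz a = sz b := (Prod.ext_iff.1 (Prod.ext_iff.1 h).2).2
    have hab := sz_inj h1
    subst hab
    have h2 := (Prod.ext_iff.1 (Prod.ext_iff.1 h).2).1
    have : q = q' := by
      funext n
      have h3 := congrFun h2 n
      simp only at h3
      have h4 := mul_left_cancel₀ (sz_pos a).ne' h3
      cases hq : q n <;> cases hq' : q' n <;> simp [hq, hq'] at h4 <;> rfl
    rw [this]

variable [TopologicalSpace Z]

noncomputable instance : TopologicalSpace (YS pt) := TopologicalSpace.induced co inferInstance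

theorem co_inducing : IsInducing (co (pt := pt)) := ⟨rfl⟩

theorem co_embedding : IsEmbedding (co (pt := pt)) := ⟨co_inducing, co_inj⟩

theorem co_cont : Continuous (co (pt := pt)) := co_inducing.continuous

/-- projection to `Z` -/
noncomputable def pj (y : YS pt) : Z := (co y).1
/-- the radius -/
noncomputable def rad (y : YS pt) : ℝ := (co y).2.2

theorem pj_cont : Continuous (pj (pt := pt)) := continuous_fst.comp co_cont
theorem rad_cont : Continuous (rad (pt := pt)) :=
  continuous_snd.comp (continuous_snd.comp co_cont)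

omit [TopologicalSpace Z] in
theorem pj_inl (z : Z) : pj (inl z : YS pt) = z := rfl
omit [TopologicalSpace Z] in
theorem rad_inl (z : Z) : rad (inl z : YS pt) = 0 := rfl
omit [TopologicalSpace Z] in
theorem pj_inr (a : A) (q : ℕ → Bool) : pj (inr a q : YS pt) = pt a := rfl
omit [TopologicalSpace Z] in
theorem rad_inr (a : A) (q : ℕ → Bool) : rad (inr a q : YS pt) = sz a := rfl

omit [TopologicalSpace Z] in
theorem rad_nonneg (y : YS pt) : 0 ≤ rad y := by
  rcases ys_cases y with ⟨z, rfl⟩ | ⟨a, q, rfl⟩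
  · exact le_rfl
  · exact (sz_pos a).le

omit [TopologicalSpace Z] in
theorem coord_le (y : YS pt) (n : ℕ) : |(co y).2.1 n| ≤ rad y := by
  rcases ys_cases y with ⟨z, rfl⟩ | ⟨a, q, rfl⟩
  · rw [co_inl, rad_inl]; simp
  · rw [co_inr, rad_inr]
    simp only
    rw [abs_mul, abs_of_pos (sz_pos a)]
    cases q n <;> simp [(sz_pos a).le]

theorem tendsto_inl {α : Type*} {l : Filter α} {F : α → YS pt} {z : Z}
    (h1 : Tendsto (fun x => pj (F x)) l (𝓝 z)) (h2 : Tendsto (fun x => rad (F x)) l (𝓝 0)) :
    Tendsto F l (𝓝 (inl z)) := by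
  rw [co_inducing.tendsto_nhds_iff, co_inl]
  refine Tendsto.prodMk_nhds h1 (Tendsto.prodMk_nhds ?_ h2)
  rw [tendsto_pi_nhds]
  intro n
  exact squeeze_zero_norm (fun x => coord_le (F x) n) h2

theorem inr_cont (a : A) : Continuous (fun q => (inr a q : YS pt)) := by
  rw [co_inducing.continuous_iff]
  show Continuous fun q : ℕ → Bool => (pt a, (fun n => sz a * (if q n then (1 : ℝ) else 0)), sz a)
  refine continuous_const.prodMk (Continuous.prodMk ?_ continuous_const)
  refine continuous_pi fun n => continuous_const.mul ?_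
  exact (continuous_of_discreteTopology (f := fun b : Bool => if b then (1 : ℝ) else 0)).comp
    (continuous_apply n)

theorem inl_cont : Continuous (fun z : Z => (inl z : YS pt)) := by
  rw [co_inducing.continuous_iff]
  exact continuous_id.prodMk continuous_const

/-- the copy with index `a` -/
def cp (a : A) : Set (YS pt) := {y | rad y = sz a}

omit [TopologicalSpace Z] in
theorem mem_cp (a : A) (y : YS pt) : y ∈ (cp a : Set (YS pt)) ↔ ∃ q, y = inr a q := by
  constructor
  · intro h
    have h' : rad y = sz a := h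
    rcases ys_cases y with ⟨z, rfl⟩ | ⟨b, q, rfl⟩
    · exact absurd h' (sz_pos a).ne
    · rw [rad_inr] at h'
      rw [sz_inj h']
      exact ⟨q, rfl⟩
  · rintro ⟨q, rfl⟩
    exact rfl

theorem cp_closed (a : A) : IsClosed (cp a : Set (YS pt)) :=
  isClosed_eq rad_cont continuous_const

theorem fin_closed (F : Set A) (hF : F.Finite) : IsClosed (⋃ a ∈ F, (cp a : Set (YS pt))) :=
  hF.isClosed_biUnion fun a _ => cp_closed a

theorem cp_open (a : A) : IsOpen (cp a : Set (YS pt)) := by
  have hF : {b : A | sz a / 2 ≤ sz b ∧ b ≠ a}.Finite :=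
    (sz_fin (sz a / 2) (half_pos (sz_pos a))).subset fun b hb => hb.1
  have e : (cp a : Set (YS pt)) = {y | sz a / 2 < rad y} ∩
      (⋃ b ∈ {b : A | sz a / 2 ≤ sz b ∧ b ≠ a}, (cp b : Set (YS pt)))ᶜ := by
    ext y
    constructor
    · intro h
      have h' : rad y = sz a := h
      refine ⟨?_, ?_⟩
      · show sz a / 2 < rad y
        rw [h']; exact half_lt_self (sz_pos a)
      · intro h2
        simp only [mem_iUnion] at h2
        obtain ⟨b, hb, h3⟩ := h2
        have h3' : rad y = sz b := h3
        rw [h'] at h3'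
        exact hb.2 (sz_inj h3').symm
    · rintro ⟨h1, h2⟩
      have h1' : sz a / 2 < rad y := h1
      rcases ys_cases y with ⟨z, rfl⟩ | ⟨b, q, rfl⟩
      · rw [rad_inl] at h1'
        linarith [sz_pos a]
      · rw [rad_inr] at h1'
        by_contra hne
        apply h2
        simp only [mem_iUnion]
        refine ⟨b, ⟨h1'.le, ?_⟩, rfl⟩
        rintro rfl
        exact hne rfl
  rw [e]
  exact (isOpen_lt continuous_const rad_cont).inter (fin_closed _ hF).isOpen_compl

instance [T2Space Z] : T2Space (YS pt) := co_embedding.t2Space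

theorem inr_openEmb [T2Space Z] (a : A) : IsOpenEmbedding (fun q => (inr a q : YS pt)) := by
  have h1 : IsClosedEmbedding (fun q => (inr a q : YS pt)) := by
    refine (inr_cont a).isClosedEmbedding ?_
    intro q q' h
    have h' : (Sum.inr (a, q) : Z ⊕ (A × (ℕ → Bool))) = Sum.inr (a, q') := h
    exact (Prod.ext_iff.1 (Sum.inr.inj h')).2
  refine ⟨h1.isEmbedding, ?_⟩
  have e : range (fun q => (inr a q : YS pt)) = cp a := by
    ext y
    rw [mem_cp]
    constructor
    · rintro ⟨q, rfl⟩; exact ⟨q, rfl⟩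
    · rintro ⟨q, rfl⟩; exact ⟨q, rfl⟩
  rw [e]
  exact cp_open a

theorem range_closed [T2Space Z] : IsClosed (range (co (pt := pt))) := by
  rw [← closure_subset_iff_isClosed]
  rintro ⟨z, u, v⟩ hx
  have hc : IsClosed {x : Z × (ℕ → ℝ) × ℝ | ∀ n, |x.2.1 n| ≤ x.2.2} := by
    have : {x : Z × (ℕ → ℝ) × ℝ | ∀ n, |x.2.1 n| ≤ x.2.2} =
        ⋂ n, {x : Z × (ℕ → ℝ) × ℝ | |x.2.1 n| ≤ x.2.2} := by ext x; simp
    rw [this]
    refine isClosed_iInter fun n => isClosed_le ?_ ?_
    · exact ((continuous_apply n).comp (continuous_fst.comp continuous_snd)).abs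
    · exact continuous_snd.comp continuous_snd
  have h1 : ∀ n, |u n| ≤ v := by
    have : range (co (pt := pt)) ⊆ {x : Z × (ℕ → ℝ) × ℝ | ∀ n, |x.2.1 n| ≤ x.2.2} := by
      rintro _ ⟨y, rfl⟩
      exact fun n => coord_le y n
    exact closure_minimal this hc hx
  have hv : 0 ≤ v := (abs_nonneg _).trans (h1 0)
  rcases hv.eq_or_lt with hv0 | hv0
  · refine ⟨inl z, ?_⟩
    rw [co_inl]
    have hu : u = 0 := by
      funext n
      have := h1 n
      rw [← hv0] at this
      exact abs_nonpos_iff.1 this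
    rw [hu, ← hv0]
  · have hO : IsOpen {x : Z × (ℕ → ℝ) × ℝ | v / 2 < x.2.2} :=
      isOpen_lt continuous_const (continuous_snd.comp continuous_snd)
    have h2 := hO.inter_closure ⟨show v / 2 < v by linarith, hx⟩
    have hF : {b : A | v / 2 ≤ sz b}.Finite := sz_fin _ (half_pos hv0)
    have h3 : {x : Z × (ℕ → ℝ) × ℝ | v / 2 < x.2.2} ∩ range (co (pt := pt)) ⊆
        ⋃ b ∈ {b : A | v / 2 ≤ sz b}, range (fun q => co (inr b q : YS pt)) := by
      rintro x ⟨hx1, y, rfl⟩
      have hx1' : v / 2 < rad y := hx1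
      rcases ys_cases y with ⟨z, rfl⟩ | ⟨b, q, rfl⟩
      · rw [rad_inl] at hx1'; linarith
      · simp only [mem_iUnion]
        exact ⟨b, (show v / 2 ≤ sz b from hx1'.le), q, rfl⟩
    have hcl : IsClosed (⋃ b ∈ {b : A | v / 2 ≤ sz b}, range (fun q => co (inr b q : YS pt))) := by
      refine hF.isClosed_biUnion fun b _ => ?_
      exact (isCompact_range (co_cont.comp (inr_cont b))).isClosed
    have h4 := closure_minimal h3 hcl h2
    simp only [mem_iUnion] at h4
    obtain ⟨b, -, q, hq⟩ := h4
    exact ⟨inr b q, hq⟩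

theorem polish [PolishSpace Z] : PolishSpace (YS pt) := by
  have : IsClosedEmbedding (co (pt := pt)) := ⟨co_embedding, range_closed⟩
  exact this.polishSpace

/-- continuity of structured maps -/
theorem cont_str [T2Space Z] (f : YS pt → YS pt) (g : Z → Z) (π : A → A)
    (h : A → (ℕ → Bool) → (ℕ → Bool)) (hg : Continuous g) (hπ : Function.Injective π)
    (hh : ∀ a, Continuous (h a)) (hpt : {a | pt (π a) ≠ g (pt a)}.Finite)
    (hf1 : ∀ z, f (inl z) = inl (g z)) (hf2 : ∀ a q, f (inr a q) = inr (π a) (h a q)) :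
    Continuous f := by
  rw [continuous_iff_continuousAt]
  intro y
  rcases ys_cases y with ⟨z, rfl⟩ | ⟨a, q, rfl⟩
  · show Tendsto f (𝓝 (inl z)) (𝓝 (f (inl z)))
    rw [hf1]
    have hnot : ∀ F : Set A, (inl z : YS pt) ∉ ⋃ a ∈ F, (cp a : Set (YS pt)) := by
      intro F hF
      simp only [mem_iUnion] at hF
      obtain ⟨a, -, ha⟩ := hF
      exact (sz_pos a).ne ha
    apply tendsto_inl
    · have h1 : Tendsto (fun y : YS pt => g (pj y)) (𝓝 (inl z)) (𝓝 (g z)) :=
        (hg.comp pj_cont).tendsto (inl z)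
      refine h1.congr' ?_
      have h2 := (fin_closed (pt := pt) _ hpt).isOpen_compl.mem_nhds (hnot _)
      filter_upwards [h2] with y hy
      rcases ys_cases y with ⟨z', rfl⟩ | ⟨a, q, rfl⟩
      · rw [hf1]; rfl
      · rw [hf2, pj_inr, pj_inr]
        by_contra hne
        apply hy
        simp only [mem_iUnion]
        exact ⟨a, fun he => hne he.symm, rfl⟩
    · rw [Metric.tendsto_nhds]
      intro ε hε
      have hF : {a : A | ε ≤ sz (π a)}.Finite :=
        Set.Finite.preimage (s := {a : A | ε ≤ sz a}) hπ.injOn (sz_fin ε hε)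
      have h2 := (fin_closed (pt := pt) _ hF).isOpen_compl.mem_nhds (hnot _)
      filter_upwards [h2] with y hy
      rcases ys_cases y with ⟨z', rfl⟩ | ⟨a, q, rfl⟩
      · rw [hf1, rad_inl]; simpa using hε
      · rw [hf2, rad_inr, Real.dist_eq, sub_zero, abs_of_pos (sz_pos _)]
        by_contra hne
        apply hy
        simp only [mem_iUnion]
        exact ⟨a, not_lt.1 hne, rfl⟩
  · rw [← (inr_openEmb (pt := pt) a).continuousAt_iff]
    have e : f ∘ (fun q => (inr a q : YS pt)) = fun q => inr (π a) (h a q) := by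
      funext q
      exact hf2 a q
    rw [e]
    exact ((inr_cont (π a)).comp (hh a)).continuousAt

/-- the copies are dense -/
theorem exists_inr_mem [T2Space Z] (hd : ∀ z, ∀ O : Set Z, IsOpen O → z ∈ O → {a | pt a ∈ O}.Infinite)
    (O : Set (YS pt)) (hO : IsOpen O) (hne : O.Nonempty) : ∃ a q, (inr a q : YS pt) ∈ O := by
  obtain ⟨y, hy⟩ := hne
  rcases ys_cases y with ⟨z, rfl⟩ | ⟨a, q, rfl⟩
  · have hNB : (comap pt (𝓝 z) ⊓ cofinite).NeBot := by
      rw [inf_neBot_iff]
      intro s hs t ht
      obtain ⟨V, hV, hVs⟩ := hs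
      obtain ⟨U, hUV, hU, hzU⟩ := mem_nhds_iff.1 hV
      have h1 := hd z U hU hzU
      have h2 : tᶜ.Finite := ht
      by_contra hcon
      rw [Set.not_nonempty_iff_eq_empty] at hcon
      apply h1
      refine h2.subset ?_
      intro a ha hat
      have : a ∈ s ∩ t := ⟨hVs (hUV ha), hat⟩
      rw [hcon] at this
      exact this
    have ht : Tendsto (fun a : A => (inr a (fun _ => true) : YS pt)) (comap pt (𝓝 z) ⊓ cofinite)
        (𝓝 (inl z)) := by
      apply tendsto_inl
      · exact tendsto_comap.mono_left inf_le_left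
      · have : Tendsto (fun a : A => sz a) cofinite (𝓝 0) := by
          rw [Metric.tendsto_nhds]
          intro ε hε
          have hF := sz_fin (A := A) ε hε
          have h2 : {a : A | ε ≤ sz a}ᶜ ∈ (cofinite : Filter A) := hF.compl_mem_cofinite
          filter_upwards [h2] with a ha
          rw [Real.dist_eq, sub_zero, abs_of_pos (sz_pos _)]
          exact not_le.1 ha
        exact this.mono_left inf_le_right
    obtain ⟨a, ha⟩ := (ht.eventually (hO.mem_nhds hy)).exists
    exact ⟨a, _, ha⟩
  · exact ⟨a, q, hy⟩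

end Pool.Agent.Q303.TR
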