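import Mathlib
import Pool.Agent.Q303.TRSpace
import Pool.Agent.TH286.CR.GE
import Pool.Agent.TH635.CR_ABS
import Pool.Agent.H139R3.FM
import Pool.Agent.TH722.CR.TopAux
import Pool.Agent.TH722.CR.Core

set_option autoImplicit false

/-! Every nonsmooth countable Borel equivalence relation has a continuous action realization on a
perfect Polish space with a dense orbit. -/

namespace Pool.Agent.Q303.TR

open Set Filter Topology MeasureTheory

/-- relations generated by countably many homeomorphisms are orbit relations -/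
theorem of_homeos {K : Type} [TopologicalSpace K] {ι : Type} (T : ι → K ≃ₜ K)
    (R : K → K → Prop) (hR : Equivalence R) (h1 : ∀ i x, R x (T i x))
    (h2 : ∀ x y, R x y → Relation.EqvGen (fun a b => ∃ i, T i a = b) x y) :
    ∃ (_ : MulAction (FreeGroup ι) K), ContinuousConstSMul (FreeGroup ι) K ∧
      ∀ a b, R a b ↔ ∃ g : FreeGroup ι, g • a = b := by
  let φ : FreeGroup ι →* (K ≃ₜ K) := FreeGroup.lift T
  let act : MulAction (FreeGroup ι) K :=
    { smul := fun g x => φ g x
      one_smul := fun x => by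
        change φ 1 x = x
        rw [map_one]; rfl
      mul_smul := fun g h x => by
        change φ (g * h) x = φ g (φ h x)
        rw [map_mul]; rfl }
  refine ⟨act, ⟨fun g => (φ g).continuous⟩, ?_⟩
  intro a b
  change R a b ↔ ∃ g : FreeGroup ι, φ g a = b
  constructor
  · intro h
    have h' := h2 a b h
    clear h
    induction h' with
    | rel x y hxy =>
      obtain ⟨i, hi⟩ := hxy
      exact ⟨FreeGroup.of i, by rw [← hi]; simp [φ]⟩
    | refl x => exact ⟨1, by rw [map_one]; rfl⟩
    | symm x y hxy ih =>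
      obtain ⟨g, hg⟩ := ih
      refine ⟨g⁻¹, ?_⟩
      rw [map_inv, ← hg]
      exact (φ g).symm_apply_apply x
    | trans x y z hxy hyz ih1 ih2 =>
      obtain ⟨g, hg⟩ := ih1
      obtain ⟨g', hg'⟩ := ih2
      refine ⟨g' * g, ?_⟩
      rw [map_mul]
      change φ g' (φ g x) = z
      rw [hg, hg']
  · rintro ⟨g, rfl⟩
    have key : ∀ (g : FreeGroup ι) (a : K), R a (φ g a) := by
      intro g
      induction g using FreeGroup.induction_on with
      | C1 => intro a; rw [map_one]; exact hR.refl a
      | of i =>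
        intro a
        have : φ (FreeGroup.of i) = T i := by simp [φ]
        rw [this]
        exact h1 i a
      | inv_of i ih =>
        intro a
        have : φ (FreeGroup.of i) = T i := by simp [φ]
        rw [map_inv, this]
        have h3 := h1 i ((T i)⁻¹ a)
        have h4 : T i ((T i)⁻¹ a) = a := (T i).apply_symm_apply a
        rw [h4] at h3
        exact hR.symm h3
      | mul g h hg hh =>
        intro a
        rw [map_mul]
        exact hR.trans (hh a) (hg _)
    exact key g a

/-- eventual equality -/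
def EE (q q' : ℕ → Bool) : Prop := ∃ N, ∀ n, N ≤ n → q n = q' n

theorem ee_equiv : Equivalence EE := by
  refine ⟨fun q => ⟨0, fun n _ => rfl⟩, ?_, ?_⟩
  · rintro q q' ⟨N, h⟩
    exact ⟨N, fun n hn => (h n hn).symm⟩
  · rintro q q' q'' ⟨N, h⟩ ⟨M, h'⟩
    exact ⟨max N M, fun n hn => (h n (le_trans (le_max_left _ _) hn)).trans
      (h' n (le_trans (le_max_right _ _) hn))⟩

/-- flipping a coordinate -/
def flp (k : ℕ) (q : ℕ → Bool) : ℕ → Bool := Function.update q k (!q k)

theorem flp_flp (k : ℕ) (q : ℕ → Bool) : flp k (flp k q) = q := by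
  unfold flp
  simp

theorem flp_cont (k : ℕ) : Continuous (flp k) := by
  refine Continuous.update continuous_id k ?_
  exact (continuous_of_discreteTopology (f := fun b : Bool => !b)).comp (continuous_apply k)

theorem ee_flp (k : ℕ) (q : ℕ → Bool) : EE q (flp k q) :=
  ⟨k + 1, fun n hn => by unfold flp; rw [Function.update_of_ne (by omega)]⟩

section

variable {Z A : Type} [TopologicalSpace Z] [T2Space Z] [Encodable A] {pt : A → Z}

/-- the relation on the space -/
def RR (E : Z → Z → Prop) (y y' : YS pt) : Prop :=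
  Sum.LiftRel E (fun w w' : A × (ℕ → Bool) => EE w.2 w'.2) y y'

omit [TopologicalSpace Z] [T2Space Z] [Encodable A] in
theorem rr_ll (E : Z → Z → Prop) (z z' : Z) : RR E (inl z : YS pt) (inl z') ↔ E z z' :=
  Sum.liftRel_inl_inl
omit [TopologicalSpace Z] [T2Space Z] [Encodable A] in
theorem rr_rr (E : Z → Z → Prop) (a b : A) (q q' : ℕ → Bool) :
    RR E (inr a q : YS pt) (inr b q') ↔ EE q q' :=
  Sum.liftRel_inr_inr
omit [TopologicalSpace Z] [T2Space Z] [Encodable A] in
theorem rr_lr (E : Z → Z → Prop) (b : A) (z : Z) (q' : ℕ → Bool) :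
    ¬ RR E (inl z : YS pt) (inr b q') := by
  intro h
  have h' : Sum.LiftRel E (fun w w' : A × (ℕ → Bool) => EE w.2 w'.2)
    (Sum.inl z) (Sum.inr (b, q')) := h
  cases h'
omit [TopologicalSpace Z] [T2Space Z] [Encodable A] in
theorem rr_rl (E : Z → Z → Prop) (b : A) (z : Z) (q' : ℕ → Bool) :
    ¬ RR E (inr b q' : YS pt) (inl z) := by
  intro h
  have h' : Sum.LiftRel E (fun w w' : A × (ℕ → Bool) => EE w.2 w'.2)
    (Sum.inr (b, q')) (Sum.inl z) := h
  cases h'

omit [TopologicalSpace Z] [T2Space Z] [Encodable A] in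
theorem rr_equiv (E : Z → Z → Prop) (hE : Equivalence E) :
    Equivalence (RR E : YS pt → YS pt → Prop) := by
  refine ⟨?_, ?_, ?_⟩
  · intro y
    rcases ys_cases y with ⟨z, rfl⟩ | ⟨a, q, rfl⟩
    · exact (rr_ll E z z).2 (hE.refl z)
    · exact (rr_rr E a a q q).2 (ee_equiv.refl q)
  · intro y y' h
    rcases ys_cases y with ⟨z, rfl⟩ | ⟨a, q, rfl⟩ <;>
      rcases ys_cases y' with ⟨z', rfl⟩ | ⟨b, q', rfl⟩
    · exact (rr_ll E _ _).2 (hE.symm ((rr_ll E _ _).1 h))
    · exact absurd h (rr_lr E _ _ _)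
    · exact absurd h (rr_rl E _ _ _)
    · exact (rr_rr E _ _ _ _).2 (ee_equiv.symm ((rr_rr E _ _ _ _).1 h))
  · intro y y' y'' h h'
    rcases ys_cases y with ⟨z, rfl⟩ | ⟨a, q, rfl⟩ <;>
      rcases ys_cases y' with ⟨z', rfl⟩ | ⟨b, q', rfl⟩ <;>
      rcases ys_cases y'' with ⟨z'', rfl⟩ | ⟨c, q'', rfl⟩
    · exact (rr_ll E _ _).2 (hE.trans ((rr_ll E _ _).1 h) ((rr_ll E _ _).1 h'))
    · exact absurd h' (rr_lr E _ _ _)
    · exact absurd h (rr_lr E _ _ _)
    · exact absurd h (rr_lr E _ _ _)
    · exact absurd h (rr_rl E _ _ _)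
    · exact absurd h (rr_rl E _ _ _)
    · exact absurd h' (rr_rl E _ _ _)
    · exact (rr_rr E _ _ _ _).2 (ee_equiv.trans ((rr_rr E _ _ _ _).1 h) ((rr_rr E _ _ _ _).1 h'))

/-- an involutive structured map is a homeomorphism -/
theorem exists_homeo (g : Z → Z) (π : A → A) (h : A → (ℕ → Bool) → (ℕ → Bool))
    (hg : Continuous g) (hgg : ∀ z, g (g z) = z) (hππ : ∀ a, π (π a) = a)
    (hhh : ∀ a q, h (π a) (h a q) = q)
    (hh : ∀ a, Continuous (h a)) (hpt : {a | pt (π a) ≠ g (pt a)}.Finite) :
    ∃ T : YS pt ≃ₜ YS pt, (∀ z, T (inl z) = inl (g z)) ∧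
      ∀ a q, T (inr a q) = inr (π a) (h a q) := by
  let f : YS pt → YS pt := fun y => Sum.elim (fun z => inl (g z))
    (fun w : A × (ℕ → Bool) => inr (π w.1) (h w.1 w.2)) y
  have hf1 : ∀ z, f (inl z) = inl (g z) := fun z => rfl
  have hf2 : ∀ a q, f (inr a q) = inr (π a) (h a q) := fun a q => rfl
  have hπ : Function.Injective π := fun a b hab => by rw [← hππ a, hab, hππ]
  have hfc := cont_str f g π h hg hπ hh hpt hf1 hf2
  have hff : ∀ y, f (f y) = y := by
    intro y
    rcases ys_cases y with ⟨z, rfl⟩ | ⟨a, q, rfl⟩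
    · rw [hf1, hf1, hgg]
    · rw [hf2, hf2, hππ, hhh]
  let T : YS pt ≃ₜ YS pt :=
    { toFun := f
      invFun := f
      left_inv := hff
      right_inv := hff
      continuous_toFun := hfc
      continuous_invFun := hfc }
  exact ⟨T, hf1, hf2⟩

/-- the action -/
theorem exists_action (E : Z → Z → Prop) (hE : Equivalence E) (s : ℕ → Z → Z)
    (hs : ∀ n, Continuous (s n)) (hinv : ∀ n z, s n (s n z) = z)
    (hsE : ∀ x y, E x y ↔ ∃ n, s n x = y) (π : ℕ → A → A) (hππ : ∀ n a, π n (π n a) = a)
    (hπ : ∀ n a, pt (π n a) = s n (pt a)) :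
    ∃ (_ : MulAction (FreeGroup (ℕ ⊕ (A × ℕ) ⊕ (A × A))) (YS pt)),
      ContinuousConstSMul (FreeGroup (ℕ ⊕ (A × ℕ) ⊕ (A × A))) (YS pt) ∧
      ∀ a b : YS pt, RR E a b ↔ ∃ g : FreeGroup (ℕ ⊕ (A × ℕ) ⊕ (A × A)), g • a = b := by
  classical
  have hS : ∀ n, ∃ T : YS pt ≃ₜ YS pt, (∀ z, T (inl z) = inl (s n z)) ∧
      ∀ a q, T (inr a q) = inr (π n a) q := by
    intro n
    exact exists_homeo (s n) (π n) (fun _ => id) (hs n) (hinv n) (hππ n) (fun _ _ => rfl)
      (fun _ => continuous_id) (by
        have : {a | pt (π n a) ≠ s n (pt a)} = ∅ := by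
          ext a
          simp [hπ n a]
        rw [this]; exact Set.finite_empty)
  have hF : ∀ (b : A) (k : ℕ), ∃ T : YS pt ≃ₜ YS pt, (∀ z, T (inl z) = inl z) ∧
      ∀ a q, T (inr a q) = inr a (if a = b then flp k q else q) := by
    intro b k
    refine exists_homeo id id (fun a q => if a = b then flp k q else q) continuous_id
      (fun _ => rfl) (fun _ => rfl) ?_ ?_ ?_
    · intro a q
      by_cases h : a = b
      · simp only [h, id, if_true, flp_flp]
      · simp only [h, id, if_false]
    · intro a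
      by_cases h : a = b
      · simp only [h, if_true]; exact flp_cont k
      · simp only [h, if_false]; exact continuous_id
    · have : {a : A | pt (id a) ≠ id (pt a)} = ∅ := by
        ext a
        simp
      rw [this]; exact Set.finite_empty
  have hW : ∀ b c : A, ∃ T : YS pt ≃ₜ YS pt, (∀ z, T (inl z) = inl z) ∧
      ∀ a q, T (inr a q) = inr (Equiv.swap b c a) q := by
    intro b c
    refine exists_homeo id (Equiv.swap b c) (fun _ => id) continuous_id
      (fun _ => rfl) (fun a => Equiv.swap_apply_self b c a) (fun _ _ => rfl)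
      (fun _ => continuous_id) ?_
    refine Set.Finite.subset (Set.toFinite ({b, c} : Set A)) ?_
    intro a ha
    by_contra hne
    simp only [mem_insert_iff, mem_singleton_iff, not_or] at hne
    apply ha
    rw [Equiv.swap_apply_of_ne_of_ne hne.1 hne.2]
    rfl
  choose S hS1 hS2 using hS
  choose F hF1 hF2 using hF
  choose W hW1 hW2 using hW
  let T : ℕ ⊕ (A × ℕ) ⊕ (A × A) → YS pt ≃ₜ YS pt :=
    Sum.elim S (Sum.elim (fun p => F p.1 p.2) (fun p => W p.1 p.2))
  have hR := rr_equiv (pt := pt) E hE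
  refine of_homeos T (RR E) hR ?_ ?_
  · rintro (n | ⟨b, k⟩ | ⟨b, c⟩) y
    · show RR E y (S n y)
      rcases ys_cases y with ⟨z, rfl⟩ | ⟨a, q, rfl⟩
      · rw [hS1, rr_ll, hsE]; exact ⟨n, rfl⟩
      · rw [hS2, rr_rr]; exact ee_equiv.refl q
    · show RR E y (F b k y)
      rcases ys_cases y with ⟨z, rfl⟩ | ⟨a, q, rfl⟩
      · rw [hF1, rr_ll]; exact hE.refl z
      · rw [hF2, rr_rr]
        split_ifs
        · exact ee_flp k q
        · exact ee_equiv.refl q
    · show RR E y (W b c y)
      rcases ys_cases y with ⟨z, rfl⟩ | ⟨a, q, rfl⟩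
      · rw [hW1, rr_ll]; exact hE.refl z
      · rw [hW2, rr_rr]; exact ee_equiv.refl q
  · intro y y' h
    rcases ys_cases y with ⟨z, rfl⟩ | ⟨a, q, rfl⟩ <;>
      rcases ys_cases y' with ⟨z', rfl⟩ | ⟨b, q', rfl⟩
    · rw [rr_ll, hsE] at h
      obtain ⟨n, rfl⟩ := h
      exact Relation.EqvGen.rel _ _ ⟨Sum.inl n, hS1 n z⟩
    · exact absurd h (rr_lr E _ _ _)
    · exact absurd h (rr_rl E _ _ _)
    · rw [rr_rr] at h
      obtain ⟨N, hN⟩ := h
      have h1 : ∀ N (q q' : ℕ → Bool), (∀ n, N ≤ n → q n = q' n) →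
          Relation.EqvGen (fun a b => ∃ i, T i a = b) (inr a q : YS pt) (inr a q') := by
        intro N
        induction N with
        | zero =>
          intro q q' h
          have : q = q' := funext fun n => h n (Nat.zero_le n)
          rw [this]
          exact Relation.EqvGen.refl _
        | succ N ih =>
          intro q q' h
          by_cases hq : q N = q' N
          · exact ih q q' fun n hn => by
              rcases hn.eq_or_lt with rfl | h'
              · exact hq
              · exact h n h'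
          · have h2 : Relation.EqvGen (fun a b => ∃ i, T i a = b) (inr a q : YS pt)
                (inr a (flp N q)) := by
              refine Relation.EqvGen.rel _ _ ⟨Sum.inr (Sum.inl (a, N)), ?_⟩
              show F a N (inr a q) = _
              rw [hF2, if_pos rfl]
            refine Relation.EqvGen.trans _ _ _ h2 (ih _ _ fun n hn => ?_)
            rcases hn.eq_or_lt with rfl | h'
            · unfold flp
              rw [Function.update_self]
              cases hx : q N <;> cases hy : q' N <;> simp_all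
            · unfold flp
              rw [Function.update_of_ne (by omega)]
              exact h n h'
      refine Relation.EqvGen.trans _ _ _ (h1 N q q' hN) ?_
      refine Relation.EqvGen.rel _ _ ⟨Sum.inr (Sum.inr (a, b)), ?_⟩
      show W a b (inr a q') = _
      rw [hW2, Equiv.swap_apply_left]

/-- density of the classes in the copies -/
theorem dense_class (E : Z → Z → Prop)
    (hd : ∀ z, ∀ O : Set Z, IsOpen O → z ∈ O → {a | pt a ∈ O}.Infinite) (a : A) (q : ℕ → Bool) :
    Dense {y : YS pt | RR E (inr a q) y} := by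
  rw [dense_iff_inter_open]
  intro O hO hne
  obtain ⟨b, q', h⟩ := exists_inr_mem hd O hO hne
  have h1 : IsOpen ((fun q => (inr b q : YS pt)) ⁻¹' O) := hO.preimage (inr_cont b)
  have h2 : Tendsto (fun N : ℕ => fun n => if n < N then q' n else q n) atTop (𝓝 q') := by
    rw [tendsto_pi_nhds]
    intro n
    refine tendsto_const_nhds.congr' ?_
    filter_upwards [eventually_gt_atTop n] with N hN
    rw [if_pos hN]
  obtain ⟨N, hN⟩ := (h2.eventually (h1.mem_nhds h)).exists
  refine ⟨_, hN, ?_⟩
  show RR E (inr a q) (inr b _)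
  rw [rr_rr]
  exact ⟨N, fun n hn => by simp only [if_neg (show ¬ n < N by omega)]⟩

/-- no isolated points -/
theorem no_isolated (hd : ∀ z, ∀ O : Set Z, IsOpen O → z ∈ O → {a | pt a ∈ O}.Infinite)
    (y : YS pt) : ¬ IsOpen ({y} : Set (YS pt)) := by
  intro h
  obtain ⟨a, q, hq⟩ := exists_inr_mem hd {y} h ⟨y, rfl⟩
  have hy : (inr a q : YS pt) = y := hq
  subst hy
  have h1 : IsOpen ((fun q => (inr a q : YS pt)) ⁻¹' {inr a q}) := h.preimage (inr_cont a)
  have h2 : Tendsto (fun N : ℕ => flp N q) atTop (𝓝 q) := by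
    rw [tendsto_pi_nhds]
    intro n
    refine tendsto_const_nhds.congr' ?_
    filter_upwards [eventually_gt_atTop n] with N hN
    unfold flp
    rw [Function.update_of_ne (by omega)]
  obtain ⟨N, hN⟩ := (h2.eventually (h1.mem_nhds rfl)).exists
  have h3 : flp N q = q := (inr_openEmb (pt := pt) a).injective hN
  have h4 := congrFun h3 N
  unfold flp at h4
  rw [Function.update_self] at h4
  simp at h4

end

theorem sb_sum (A B : Type) [MeasurableSpace A] [StandardBorelSpace A] [MeasurableSpace B]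
    [StandardBorelSpace B] : StandardBorelSpace (A ⊕ B) := by
  let := upgradeStandardBorel A
  let := upgradeStandardBorel B
  have := Pool.Agent.TH722.CR.borelSpace_sum A B
  have h1 : PolishSpace (A ⊕ B) := { }
  infer_instance

/-- the main theorem -/
theorem main {X : Type} [MeasurableSpace X] [StandardBorelSpace X] (E : X → X → Prop)
    (hE : Equivalence E) (hEm : MeasurableSet {p : X × X | E p.1 p.2})
    (hc : ∀ x : X, {y : X | E x y}.Countable)
    (hns : ¬ ∃ f : X → ℝ, Measurable f ∧ ∀ x y, E x y ↔ f x = f y) :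
    ∃ (G : Type) (_ : Group G) (_ : Countable G) (Y : Type) (_ : TopologicalSpace Y)
      (_ : PolishSpace Y) (_ : MeasurableSpace Y) (_ : BorelSpace Y) (_ : MulAction G Y)
      (_ : ContinuousConstSMul G Y) (f : X ≃ᵐ Y),
      (∀ a b : X, E a b ↔ ∃ g : G, g • f a = f b) ∧
      (∃ y : Y, Dense {y' : Y | ∃ g : G, g • y = y'}) ∧
      ∀ y : Y, ¬ IsOpen ({y} : Set Y) := by
  classical
  obtain ⟨s, hs, hinv, hsE⟩ := Pool.Agent.H139R3.FM.feldman_moore E hE hEm hc
  obtain ⟨j, hj1, hj2, hj3⟩ := Pool.Agent.TH286.CR.glimm_effros s hs hinv E hE hsE hns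
  obtain ⟨t, hP, hB, hsc, -⟩ := Pool.Agent.TH722.CR.exists_top s hs (fun _ : X => ())
    measurable_const
  obtain ⟨D0, hD0, hD0d⟩ := TopologicalSpace.exists_countable_dense X
  let D : Set X := {y | ∃ x ∈ D0, E x y}
  have hDc : D.Countable := by
    have : D = ⋃ x ∈ D0, {y | E x y} := by
      ext y
      simp [D]
    rw [this]
    exact hD0.biUnion fun x _ => hc x
  have hDd : Dense D := hD0d.mono fun x hx => ⟨x, hx, hE.refl x⟩
  have hDE : ∀ x y, E x y → x ∈ D → y ∈ D := by
    rintro x y hxy ⟨z, hz, hzx⟩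
    exact ⟨z, hz, hE.trans hzx hxy⟩
  have hEs : ∀ n x, E x (s n x) := fun n x => (hsE _ _).2 ⟨n, rfl⟩
  have hcD : Countable D := hDc.to_subtype
  let _ : Encodable D := Encodable.ofCountable D
  let pt : D × ℕ → X := fun a => a.1.1
  let π : ℕ → D × ℕ → D × ℕ := fun n a => (⟨s n a.1.1, hDE _ _ (hEs n _) a.1.2⟩, a.2)
  have hππ : ∀ n a, π n (π n a) = a := by
    rintro n ⟨d, m⟩
    exact Prod.ext (Subtype.ext (hinv n _)) rfl
  have hd : ∀ z, ∀ O : Set X, IsOpen O → z ∈ O → {a | pt a ∈ O}.Infinite := by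
    intro z O hO hz
    obtain ⟨d, hdO, hd⟩ := hDd.inter_open_nonempty O hO ⟨z, hz⟩
    refine Set.infinite_of_injective_forall_mem (f := fun m : ℕ => ((⟨d, hd⟩, m) : D × ℕ)) ?_ ?_
    · intro m m' h
      exact (Prod.ext_iff.1 h).2
    · intro m
      exact hdO
  obtain ⟨act, hact, hR⟩ := exists_action (pt := pt) E hE s hsc hinv hsE π hππ (fun _ _ => rfl)
  have hpol : PolishSpace (YS pt) := polish
  let mY : MeasurableSpace (YS pt) := borel (YS pt)
  have hBY : BorelSpace (YS pt) := ⟨rfl⟩
  -- the measurable isomorphism with the sum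
  let e0 : X ⊕ ((D × ℕ) × (ℕ → Bool)) → YS pt := fun y => y
  have he0m : Measurable e0 := by
    refine measurable_fun_sum ?_ ?_
    · exact (inl_cont (pt := pt)).measurable
    · refine measurable_from_prod_countable_right fun a => ?_
      exact (inr_cont (pt := pt) a).measurable
  have he0i : Function.Injective e0 := fun a b h => h
  have hsb : StandardBorelSpace (X ⊕ ((D × ℕ) × (ℕ → Bool))) := sb_sum X _
  have he0e : MeasurableEmbedding e0 := he0m.measurableEmbedding he0i
  let e : X ⊕ ((D × ℕ) × (ℕ → Bool)) ≃ᵐ YS pt :=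
    { toFun := e0
      invFun := fun y => y
      left_inv := fun y => rfl
      right_inv := fun y => rfl
      measurable_toFun := he0m
      measurable_invFun := by
        intro S hS
        have := he0e.measurableSet_image.2 hS
        convert this using 1
        ext y
        constructor
        · intro h; exact ⟨y, h, rfl⟩
        · rintro ⟨y', h, rfl⟩; exact h }
  -- absorption
  let c : (D × ℕ) × (ℕ → Bool) → ℕ → ℕ := fun w n =>
    Nat.casesOn n (Encodable.encode w.1) (fun k => if w.2 k then 1 else 0)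
  have hc0 : ∀ w, c w 0 = Encodable.encode w.1 := fun w => rfl
  have hc1 : ∀ w k, c w (k + 1) = if w.2 k then 1 else 0 := fun w k => rfl
  have hbool : ∀ b b' : Bool, ((if b then 1 else 0 : ℕ) = if b' then 1 else 0) ↔ b = b' := by
    intro b b'
    cases b <;> cases b' <;> simp
  obtain ⟨h, hh⟩ := Pool.Agent.TH635.CRAbs.absorb s hs hinv E hE hsE j hj1 hj2 hj3
    (fun w w' : (D × ℕ) × (ℕ → Bool) => EE w.2 w'.2) c
    (by
      rw [measurable_pi_iff]
      rintro (_ | k)
      · exact (measurable_of_countable (fun a : D × ℕ => Encodable.encode a)).comp measurable_fst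
      · have h1 : Measurable fun w : (D × ℕ) × (ℕ → Bool) => w.2 k :=
          (measurable_pi_apply k).comp measurable_snd
        exact (measurable_of_countable (fun b : Bool => if b then 1 else 0)).comp h1)
    (by
      intro w w' h
      refine Prod.ext ?_ ?_
      · exact Encodable.encode_injective (congrFun h 0)
      · funext k
        exact (hbool _ _).1 (congrFun h (k + 1)))
    (by
      intro w w'
      constructor
      · rintro ⟨N, hN⟩
        refine ⟨N + 1, fun n hn => ?_⟩
        obtain ⟨k, rfl⟩ : ∃ k, n = k + 1 := ⟨n - 1, by omega⟩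
        rw [hc1, hc1, hbool]
        exact hN k (by omega)
      · rintro ⟨N, hN⟩
        refine ⟨N, fun n hn => ?_⟩
        have := hN (n + 1) (by omega)
        rwa [hc1, hc1, hbool] at this)
    (fun w n => ((w.1.1, Nat.pair w.1.2 n), w.2))
    (by
      intro n
      refine Measurable.prodMk ?_ measurable_snd
      exact (measurable_of_countable (fun a : D × ℕ => ((a.1, Nat.pair a.2 n) : D × ℕ))).comp
        measurable_fst)
    (by
      intro w n
      exact ee_equiv.refl _)
    (by
      rintro ⟨⟨d, m⟩, q⟩ ⟨⟨d', m'⟩, q'⟩ n n' h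
      simp only [Prod.mk.injEq] at h
      obtain ⟨⟨h1, h2⟩, h3⟩ := h
      obtain ⟨h4, h5⟩ := Nat.pair_eq_pair.1 h2
      subst h1 h3 h4 h5
      exact ⟨rfl, rfl⟩)
  have hXne : Nonempty X := ⟨j fun _ => true⟩
  obtain ⟨x0⟩ := hXne
  obtain ⟨d0, -, hd0⟩ := hDd.inter_open_nonempty univ isOpen_univ ⟨x0, trivial⟩
  refine ⟨FreeGroup (ℕ ⊕ ((D × ℕ) × ℕ) ⊕ ((D × ℕ) × (D × ℕ))), inferInstance, inferInstance,
    YS pt, inferInstance, hpol, mY, hBY, act, hact, h.symm.trans e, ?_, ?_, ?_⟩
  · intro a b
    rw [← hR]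
    show E a b ↔ Sum.LiftRel E (fun w w' : (D × ℕ) × (ℕ → Bool) => EE w.2 w'.2)
      (h.symm a) (h.symm b)
    rw [hh, h.apply_symm_apply, h.apply_symm_apply]
  · refine ⟨inr (⟨d0, hd0⟩, 0) (fun _ => true), ?_⟩
    have := dense_class (pt := pt) E hd (⟨d0, hd0⟩, 0) (fun _ => true)
    convert this using 1
    ext y
    exact (hR _ _).symm
  · exact no_isolated hd

end Pool.Agent.Q303.TR
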